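import Mathlib

/-!
The nine-dimensional monomial algebra with three vertices.
-/

set_option autoImplicit false
set_option linter.style.haveILetI false

namespace Pool.Agent.R722.EB

/-- The algebra with basis `e_x, e_y, e_z, a, b, d, e, p = da, q = db`. -/
@[ext] structure Lam (k : Type) where
  x : k
  y : k
  z : k
  a : k
  b : k
  d : k
  e : k
  p : k
  q : k

namespace Lam
variable {k : Type} [Field k]

instance : Zero (Lam k) := ⟨⟨0, 0, 0, 0, 0, 0, 0, 0, 0⟩⟩
instance : One (Lam k) := ⟨⟨1, 1, 1, 0, 0, 0, 0, 0, 0⟩⟩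
instance : Add (Lam k) := ⟨fun u v => ⟨u.x + v.x, u.y + v.y, u.z + v.z, u.a + v.a, u.b + v.b,
  u.d + v.d, u.e + v.e, u.p + v.p, u.q + v.q⟩⟩
instance : Neg (Lam k) := ⟨fun u => ⟨-u.x, -u.y, -u.z, -u.a, -u.b, -u.d, -u.e, -u.p, -u.q⟩⟩
instance : Mul (Lam k) := ⟨fun u v =>
  ⟨u.x * v.x, u.y * v.y, u.z * v.z, u.y * v.a + u.a * v.x, u.y * v.b + u.b * v.y,
   u.z * v.d + u.d * v.y, u.x * v.e + u.e * v.z, u.z * v.p + u.p * v.x + u.d * v.a,
   u.z * v.q + u.q * v.y + u.d * v.b⟩⟩

@[simp] theorem x_zero : (0 : Lam k).x = 0 := rfl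
@[simp] theorem y_zero : (0 : Lam k).y = 0 := rfl
@[simp] theorem z_zero : (0 : Lam k).z = 0 := rfl
@[simp] theorem a_zero : (0 : Lam k).a = 0 := rfl
@[simp] theorem b_zero : (0 : Lam k).b = 0 := rfl
@[simp] theorem d_zero : (0 : Lam k).d = 0 := rfl
@[simp] theorem e_zero : (0 : Lam k).e = 0 := rfl
@[simp] theorem p_zero : (0 : Lam k).p = 0 := rfl
@[simp] theorem q_zero : (0 : Lam k).q = 0 := rfl
@[simp] theorem x_one : (1 : Lam k).x = 1 := rfl
@[simp] theorem y_one : (1 : Lam k).y = 1 := rfl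
@[simp] theorem z_one : (1 : Lam k).z = 1 := rfl
@[simp] theorem a_one : (1 : Lam k).a = 0 := rfl
@[simp] theorem b_one : (1 : Lam k).b = 0 := rfl
@[simp] theorem d_one : (1 : Lam k).d = 0 := rfl
@[simp] theorem e_one : (1 : Lam k).e = 0 := rfl
@[simp] theorem p_one : (1 : Lam k).p = 0 := rfl
@[simp] theorem q_one : (1 : Lam k).q = 0 := rfl
@[simp] theorem x_add (u v : Lam k) : (u + v).x = u.x + v.x := rfl
@[simp] theorem y_add (u v : Lam k) : (u + v).y = u.y + v.y := rfl
@[simp] theorem z_add (u v : Lam k) : (u + v).z = u.z + v.z := rfl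
@[simp] theorem a_add (u v : Lam k) : (u + v).a = u.a + v.a := rfl
@[simp] theorem b_add (u v : Lam k) : (u + v).b = u.b + v.b := rfl
@[simp] theorem d_add (u v : Lam k) : (u + v).d = u.d + v.d := rfl
@[simp] theorem e_add (u v : Lam k) : (u + v).e = u.e + v.e := rfl
@[simp] theorem p_add (u v : Lam k) : (u + v).p = u.p + v.p := rfl
@[simp] theorem q_add (u v : Lam k) : (u + v).q = u.q + v.q := rfl
@[simp] theorem x_neg (u : Lam k) : (-u).x = -u.x := rfl
@[simp] theorem y_neg (u : Lam k) : (-u).y = -u.y := rfl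
@[simp] theorem z_neg (u : Lam k) : (-u).z = -u.z := rfl
@[simp] theorem a_neg (u : Lam k) : (-u).a = -u.a := rfl
@[simp] theorem b_neg (u : Lam k) : (-u).b = -u.b := rfl
@[simp] theorem d_neg (u : Lam k) : (-u).d = -u.d := rfl
@[simp] theorem e_neg (u : Lam k) : (-u).e = -u.e := rfl
@[simp] theorem p_neg (u : Lam k) : (-u).p = -u.p := rfl
@[simp] theorem q_neg (u : Lam k) : (-u).q = -u.q := rfl
@[simp] theorem x_mul (u v : Lam k) : (u * v).x = u.x * v.x := rfl
@[simp] theorem y_mul (u v : Lam k) : (u * v).y = u.y * v.y := rfl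
@[simp] theorem z_mul (u v : Lam k) : (u * v).z = u.z * v.z := rfl
@[simp] theorem a_mul (u v : Lam k) : (u * v).a = u.y * v.a + u.a * v.x := rfl
@[simp] theorem b_mul (u v : Lam k) : (u * v).b = u.y * v.b + u.b * v.y := rfl
@[simp] theorem d_mul (u v : Lam k) : (u * v).d = u.z * v.d + u.d * v.y := rfl
@[simp] theorem e_mul (u v : Lam k) : (u * v).e = u.x * v.e + u.e * v.z := rfl
@[simp] theorem p_mul (u v : Lam k) : (u * v).p = u.z * v.p + u.p * v.x + u.d * v.a := rfl
@[simp] theorem q_mul (u v : Lam k) : (u * v).q = u.z * v.q + u.q * v.y + u.d * v.b := rfl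

instance : Ring (Lam k) where
  add_assoc u v w := by ext <;> simp <;> ring
  zero_add u := by ext <;> simp
  add_zero u := by ext <;> simp
  add_comm u v := by ext <;> simp <;> ring
  neg_add_cancel u := by ext <;> simp
  mul_assoc u v w := by ext <;> simp <;> ring
  one_mul u := by ext <;> simp
  mul_one u := by ext <;> simp
  left_distrib u v w := by ext <;> simp <;> ring
  right_distrib u v w := by ext <;> simp <;> ring
  zero_mul u := by ext <;> simp
  mul_zero u := by ext <;> simp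
  nsmul := nsmulRec
  zsmul := zsmulRec

/-- The structure map. -/
def ofk : k →+* Lam k where
  toFun c := ⟨c, c, c, 0, 0, 0, 0, 0, 0⟩
  map_zero' := rfl
  map_one' := rfl
  map_add' c c' := by ext <;> simp
  map_mul' c c' := by ext <;> simp

instance : Algebra k (Lam k) where
  smul c u := ofk c * u
  algebraMap := ofk
  commutes' c u := by ext <;> simp [ofk] <;> ring
  smul_def' c u := rfl

theorem smul_eq (c : k) (u : Lam k) : c • u = ⟨c * u.x, c * u.y, c * u.z, c * u.a, c * u.b,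
    c * u.d, c * u.e, c * u.p, c * u.q⟩ := by
  show ofk c * u = _
  ext <;> simp [ofk]

end Lam

end Pool.Agent.R722.EB
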