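import Pool.Agent.R722.EBAlg

/-!
Modules over the nine-dimensional algebra: the minimal projective resolution of the simple module.
-/

set_option autoImplicit false
set_option linter.style.haveILetI false

open CategoryTheory

namespace Pool.Agent.R722.EB

variable {k : Type} [Field k]

open Lam

/-- The simple module at `x`. -/
def SX (k : Type) : Type := k

noncomputable instance : AddCommGroup (SX k) := inferInstanceAs (AddCommGroup k)

instance : SMul (Lam k) (SX k) := ⟨fun u c => (u.x * (show k from c) : k)⟩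

theorem SX.smul_def (u : Lam k) (c : SX k) : u • c = (u.x * (show k from c) : k) := rfl

noncomputable instance : Module (Lam k) (SX k) where
  one_smul c := one_mul (show k from c)
  mul_smul u v c := mul_assoc u.x v.x (show k from c)
  smul_zero u := mul_zero u.x
  smul_add u c c' := mul_add u.x (show k from c) (show k from c')
  add_smul u v c := add_mul u.x v.x (show k from c)
  zero_smul c := zero_mul (show k from c)

/-- The projective module at `x`. -/
def PX (k : Type) [Field k] : Submodule (Lam k) (Lam k) where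
  carrier := {u | u.y = 0 ∧ u.z = 0 ∧ u.b = 0 ∧ u.d = 0 ∧ u.e = 0 ∧ u.q = 0}
  zero_mem' := ⟨rfl, rfl, rfl, rfl, rfl, rfl⟩
  add_mem' := by
    rintro u v ⟨h1, h2, h3, h4, h5, h6⟩ ⟨g1, g2, g3, g4, g5, g6⟩
    refine ⟨?_, ?_, ?_, ?_, ?_, ?_⟩ <;> simp [*]
  smul_mem' := by
    rintro c u ⟨h1, h2, h3, h4, h5, h6⟩
    refine ⟨?_, ?_, ?_, ?_, ?_, ?_⟩ <;> simp [smul_eq_mul, *]

/-- The projective module at `y`. -/
def PY (k : Type) [Field k] : Submodule (Lam k) (Lam k) where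
  carrier := {u | u.x = 0 ∧ u.z = 0 ∧ u.a = 0 ∧ u.e = 0 ∧ u.p = 0}
  zero_mem' := ⟨rfl, rfl, rfl, rfl, rfl⟩
  add_mem' := by
    rintro u v ⟨h1, h2, h3, h4, h5⟩ ⟨g1, g2, g3, g4, g5⟩
    refine ⟨?_, ?_, ?_, ?_, ?_⟩ <;> simp [*]
  smul_mem' := by
    rintro c u ⟨h1, h2, h3, h4, h5⟩
    refine ⟨?_, ?_, ?_, ?_, ?_⟩ <;> simp [smul_eq_mul, *]

/-- The module generated by the arrow `a`. -/
def MA (k : Type) [Field k] : Submodule (Lam k) (Lam k) where
  carrier := {u | u.x = 0 ∧ u.y = 0 ∧ u.z = 0 ∧ u.b = 0 ∧ u.d = 0 ∧ u.e = 0 ∧ u.q = 0}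
  zero_mem' := ⟨rfl, rfl, rfl, rfl, rfl, rfl, rfl⟩
  add_mem' := by
    rintro u v ⟨h1, h2, h3, h4, h5, h6, h7⟩ ⟨g1, g2, g3, g4, g5, g6, g7⟩
    refine ⟨?_, ?_, ?_, ?_, ?_, ?_, ?_⟩ <;> simp [*]
  smul_mem' := by
    rintro c u ⟨h1, h2, h3, h4, h5, h6, h7⟩
    refine ⟨?_, ?_, ?_, ?_, ?_, ?_, ?_⟩ <;> simp [smul_eq_mul, *]

/-- The module generated by the arrow `b`. -/
def MB (k : Type) [Field k] : Submodule (Lam k) (Lam k) where
  carrier := {u | u.x = 0 ∧ u.y = 0 ∧ u.z = 0 ∧ u.a = 0 ∧ u.d = 0 ∧ u.e = 0 ∧ u.p = 0}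
  zero_mem' := ⟨rfl, rfl, rfl, rfl, rfl, rfl, rfl⟩
  add_mem' := by
    rintro u v ⟨h1, h2, h3, h4, h5, h6, h7⟩ ⟨g1, g2, g3, g4, g5, g6, g7⟩
    refine ⟨?_, ?_, ?_, ?_, ?_, ?_, ?_⟩ <;> simp [*]
  smul_mem' := by
    rintro c u ⟨h1, h2, h3, h4, h5, h6, h7⟩
    refine ⟨?_, ?_, ?_, ?_, ?_, ?_, ?_⟩ <;> simp [smul_eq_mul, *]

/-- Basis elements. -/
def ex (k : Type) [Field k] : Lam k := ⟨1, 0, 0, 0, 0, 0, 0, 0, 0⟩
/-- Basis elements. -/
def ey (k : Type) [Field k] : Lam k := ⟨0, 1, 0, 0, 0, 0, 0, 0, 0⟩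
/-- Basis elements. -/
def ez (k : Type) [Field k] : Lam k := ⟨0, 0, 1, 0, 0, 0, 0, 0, 0⟩
/-- Basis elements. -/
def ga (k : Type) [Field k] : Lam k := ⟨0, 0, 0, 1, 0, 0, 0, 0, 0⟩
/-- Basis elements. -/
def gb (k : Type) [Field k] : Lam k := ⟨0, 0, 0, 0, 1, 0, 0, 0, 0⟩
/-- Basis elements. -/
def gd (k : Type) [Field k] : Lam k := ⟨0, 0, 0, 0, 0, 1, 0, 0, 0⟩
/-- Basis elements. -/
def ge (k : Type) [Field k] : Lam k := ⟨0, 0, 0, 0, 0, 0, 1, 0, 0⟩

theorem ex_mem : ex k ∈ PX k := ⟨rfl, rfl, rfl, rfl, rfl, rfl⟩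
theorem ey_mem : ey k ∈ PY k := ⟨rfl, rfl, rfl, rfl, rfl⟩

theorem PX_gen {u : Lam k} (hu : u ∈ PX k) : u * ex k = u := by
  obtain ⟨h1, h2, h3, h4, h5, h6⟩ := hu
  ext <;> simp [ex, *]

theorem PY_gen {u : Lam k} (hu : u ∈ PY k) : u * ey k = u := by
  obtain ⟨h1, h2, h3, h4, h5⟩ := hu
  ext <;> simp [ey, *]

instance : Module.Projective (Lam k) (PX k) := by
  refine Module.Projective.of_split (PX k).subtype
    ((LinearMap.toSpanSingleton (Lam k) (Lam k) (ex k)).codRestrict (PX k) fun u => ?_) ?_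
  · exact (PX k).smul_mem u ex_mem
  · refine LinearMap.ext fun u => Subtype.ext ?_
    exact PX_gen u.2

instance : Module.Projective (Lam k) (PY k) := by
  refine Module.Projective.of_split (PY k).subtype
    ((LinearMap.toSpanSingleton (Lam k) (Lam k) (ey k)).codRestrict (PY k) fun u => ?_) ?_
  · exact (PY k).smul_mem u ey_mem
  · refine LinearMap.ext fun u => Subtype.ext ?_
    exact PY_gen u.2

instance : Module.Finite (Lam k) (PX k) := by
  refine Module.Finite.of_surjective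
    ((LinearMap.toSpanSingleton (Lam k) (Lam k) (ex k)).codRestrict (PX k) fun u => ?_) ?_
  · exact (PX k).smul_mem u ex_mem
  · exact fun u => ⟨u, Subtype.ext (PX_gen u.2)⟩

instance : Module.Finite (Lam k) (PY k) := by
  refine Module.Finite.of_surjective
    ((LinearMap.toSpanSingleton (Lam k) (Lam k) (ey k)).codRestrict (PY k) fun u => ?_) ?_
  · exact (PY k).smul_mem u ey_mem
  · exact fun u => ⟨u, Subtype.ext (PY_gen u.2)⟩

/-- A submodule of `PX` containing an element with nonzero first coordinate is everything. -/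
theorem PX_top (U : Submodule (Lam k) (PX k)) (u : PX k) (hu : u ∈ U) (h1 : (u : Lam k).x = 1) :
    U = ⊤ := by
  have h2 : (⟨ex k, ex_mem⟩ : PX k) ∈ U := by
    have h3 : ex k • u = ⟨ex k, ex_mem⟩ := by
      obtain ⟨g1, g2, g3, g4, g5, g6⟩ := u.2
      refine Subtype.ext ?_
      show ex k * (u : Lam k) = ex k
      ext <;> simp [ex, *]
    rw [← h3]
    exact U.smul_mem _ hu
  rw [eq_top_iff]
  intro w _
  have h4 : w = (w : Lam k) • (⟨ex k, ex_mem⟩ : PX k) := Subtype.ext (PX_gen w.2).symm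
  rw [h4]
  exact U.smul_mem _ h2

theorem PY_top (U : Submodule (Lam k) (PY k)) (u : PY k) (hu : u ∈ U) (h1 : (u : Lam k).y = 1) :
    U = ⊤ := by
  obtain ⟨g1, g2, g3, g4, g5⟩ := u.2
  have h3 : ((ey k - (u : Lam k).b • gb k) • u : PY k) = ⟨ey k, ey_mem⟩ := by
    refine Subtype.ext ?_
    show (ey k - (u : Lam k).b • gb k) * (u : Lam k) = ey k
    rw [sub_eq_add_neg]
    ext <;> simp [ey, gb, Lam.smul_eq, *]
  have h2 : (⟨ey k, ey_mem⟩ : PY k) ∈ U := by
    rw [← h3]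
    exact U.smul_mem _ hu
  rw [eq_top_iff]
  intro w _
  have h4 : w = (w : Lam k) • (⟨ey k, ey_mem⟩ : PY k) := Subtype.ext (PY_gen w.2).symm
  rw [h4]
  exact U.smul_mem _ h2

/-- The cover of the simple module. -/
def f0 (k : Type) [Field k] : PX k →ₗ[Lam k] SX k where
  toFun u := ((u : Lam k).x : k)
  map_add' _ _ := rfl
  map_smul' _ _ := rfl

/-- The inclusion of its kernel. -/
def i0 (k : Type) [Field k] : MA k →ₗ[Lam k] PX k where
  toFun u := ⟨u, u.2.2.1, u.2.2.2.1, u.2.2.2.2.1, u.2.2.2.2.2.1, u.2.2.2.2.2.2.1,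
    u.2.2.2.2.2.2.2⟩
  map_add' _ _ := rfl
  map_smul' _ _ := rfl

theorem ga_mem (w : PY k) : (w : Lam k) * ga k ∈ MA k := by
  obtain ⟨h1, h2, h3, h4, h5⟩ := w.2
  refine ⟨?_, ?_, ?_, ?_, ?_, ?_, ?_⟩ <;> simp [ga, *]

theorem gb_mem (w : PY k) : (w : Lam k) * gb k ∈ MB k := by
  obtain ⟨h1, h2, h3, h4, h5⟩ := w.2
  refine ⟨?_, ?_, ?_, ?_, ?_, ?_, ?_⟩ <;> simp [gb, *]

/-- The cover of the module generated by `a`. -/
def f1 (k : Type) [Field k] : PY k →ₗ[Lam k] MA k where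
  toFun w := ⟨(w : Lam k) * ga k, ga_mem w⟩
  map_add' u v := Subtype.ext (add_mul (u : Lam k) v (ga k))
  map_smul' c u := Subtype.ext (mul_assoc c (u : Lam k) (ga k))

/-- The cover of the module generated by `b`. -/
def f2 (k : Type) [Field k] : PY k →ₗ[Lam k] MB k where
  toFun w := ⟨(w : Lam k) * gb k, gb_mem w⟩
  map_add' u v := Subtype.ext (add_mul (u : Lam k) v (gb k))
  map_smul' c u := Subtype.ext (mul_assoc c (u : Lam k) (gb k))

/-- The inclusion of the kernel. -/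
def i1 (k : Type) [Field k] : MB k →ₗ[Lam k] PY k where
  toFun u := ⟨u, u.2.1, u.2.2.2.1, u.2.2.2.2.1, u.2.2.2.2.2.2.1, u.2.2.2.2.2.2.2⟩
  map_add' _ _ := rfl
  map_smul' _ _ := rfl

/-- `N` is a first syzygy of `M`: the kernel of a projective cover. -/
def IsSyz {R : Type} [Ring R] (M N : ModuleCat.{0} R) : Prop :=
  ∃ (P : ModuleCat.{0} R) (i : N →ₗ[R] P) (p : P →ₗ[R] M), Module.Projective R P ∧
    Module.Finite R P ∧ Function.Injective i ∧ Function.Exact i p ∧ Function.Surjective p ∧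
    ∀ U : Submodule R P, U ⊔ LinearMap.ker p = ⊤ → U = ⊤

theorem syz0 : IsSyz (ModuleCat.of (Lam k) (SX k)) (ModuleCat.of (Lam k) (MA k)) := by
  refine ⟨ModuleCat.of (Lam k) (PX k), i0 k, f0 k, inferInstanceAs (Module.Projective _ (PX k)),
    inferInstanceAs (Module.Finite _ (PX k)), ?_, ?_, ?_, ?_⟩
  · intro u v huv
    exact Subtype.ext (congrArg (fun t : PX k => (t : Lam k)) huv)
  · intro u
    constructor
    · intro (hu : (u : Lam k).x = 0)
      obtain ⟨h1, h2, h3, h4, h5, h6⟩ := (show PX k from u).2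
      exact ⟨⟨(show PX k from u).1, hu, h1, h2, h3, h4, h5, h6⟩, rfl⟩
    · rintro ⟨v, rfl⟩
      exact v.2.1
  · intro c
    exact ⟨⟨⟨(show k from c), 0, 0, 0, 0, 0, 0, 0, 0⟩, rfl, rfl, rfl, rfl, rfl, rfl⟩, rfl⟩
  · intro U hU
    have h1 : (⟨ex k, ex_mem⟩ : PX k) ∈ U ⊔ LinearMap.ker (f0 k) := by
      have : U ⊔ LinearMap.ker (f0 k) = ⊤ := hU
      rw [this]
      trivial
    obtain ⟨u, hu, v, hv, huv⟩ := Submodule.mem_sup.1 h1
    refine PX_top U u hu ?_
    have h2 : (v : Lam k).x = 0 := hv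
    have h3 : (u : Lam k).x + (v : Lam k).x = 1 := congrArg (fun t : PX k => (t : Lam k).x) huv
    rw [h2, add_zero] at h3
    exact h3

theorem syz1 : IsSyz (ModuleCat.of (Lam k) (MA k)) (ModuleCat.of (Lam k) (MB k)) := by
  refine ⟨ModuleCat.of (Lam k) (PY k), i1 k, f1 k, inferInstanceAs (Module.Projective _ (PY k)),
    inferInstanceAs (Module.Finite _ (PY k)), ?_, ?_, ?_, ?_⟩
  · intro u v huv
    exact Subtype.ext (congrArg (fun t : PY k => (t : Lam k)) huv)
  · intro u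
    constructor
    · intro (hu : f1 k u = 0)
      obtain ⟨h1, h2, h3, h4, h5⟩ := (show PY k from u).2
      have h6 : ((show PY k from u).1 * ga k) = 0 := congrArg Subtype.val hu
      have h7 := congrArg Lam.a h6
      have h8 := congrArg Lam.p h6
      simp [ga] at h7 h8
      exact ⟨⟨(show PY k from u).1, h1, h7, h2, h3, h8, h4, h5⟩, rfl⟩
    · rintro ⟨v, rfl⟩
      obtain ⟨h1, h2, h3, h4, h5, h6, h7⟩ := v.2
      refine Subtype.ext ?_
      show (v : Lam k) * ga k = 0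
      ext <;> simp [ga, *]
  · intro v
    obtain ⟨h1, h2, h3, h4, h5, h6, h7⟩ := (show MA k from v).2
    refine ⟨⟨⟨0, (show MA k from v).1.a, 0, 0, 0, (show MA k from v).1.p, 0, 0, 0⟩,
      rfl, rfl, rfl, rfl, rfl⟩, ?_⟩
    refine Subtype.ext ?_
    show _ * ga k = (show MA k from v).1
    ext <;> simp [ga, *]
  · intro U hU
    have h1 : (⟨ey k, ey_mem⟩ : PY k) ∈ U ⊔ LinearMap.ker (f1 k) := by
      have : U ⊔ LinearMap.ker (f1 k) = ⊤ := hU
      rw [this]
      trivial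
    obtain ⟨u, hu, v, hv, huv⟩ := Submodule.mem_sup.1 h1
    refine PY_top U u hu ?_
    have h2 : (v : Lam k).y = 0 := by
      have h6 : ((v : Lam k) * ga k) = 0 := congrArg Subtype.val hv
      have h7 := congrArg Lam.a h6
      simpa [ga] using h7
    have h3 : (u : Lam k).y + (v : Lam k).y = 1 := congrArg (fun t : PY k => (t : Lam k).y) huv
    rw [h2, add_zero] at h3
    exact h3

theorem syz2 : IsSyz (ModuleCat.of (Lam k) (MB k)) (ModuleCat.of (Lam k) (MB k)) := by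
  refine ⟨ModuleCat.of (Lam k) (PY k), i1 k, f2 k, inferInstanceAs (Module.Projective _ (PY k)),
    inferInstanceAs (Module.Finite _ (PY k)), ?_, ?_, ?_, ?_⟩
  · intro u v huv
    exact Subtype.ext (congrArg (fun t : PY k => (t : Lam k)) huv)
  · intro u
    constructor
    · intro (hu : f2 k u = 0)
      obtain ⟨h1, h2, h3, h4, h5⟩ := (show PY k from u).2
      have h6 : ((show PY k from u).1 * gb k) = 0 := congrArg Subtype.val hu
      have h7 := congrArg Lam.b h6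
      have h8 := congrArg Lam.q h6
      simp [gb] at h7 h8
      exact ⟨⟨(show PY k from u).1, h1, h7, h2, h3, h8, h4, h5⟩, rfl⟩
    · rintro ⟨v, rfl⟩
      obtain ⟨h1, h2, h3, h4, h5, h6, h7⟩ := v.2
      refine Subtype.ext ?_
      show (v : Lam k) * gb k = 0
      ext <;> simp [gb, *]
  · intro v
    obtain ⟨h1, h2, h3, h4, h5, h6, h7⟩ := (show MB k from v).2
    refine ⟨⟨⟨0, (show MB k from v).1.b, 0, 0, 0, (show MB k from v).1.q, 0, 0, 0⟩,
      rfl, rfl, rfl, rfl, rfl⟩, ?_⟩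
    refine Subtype.ext ?_
    show _ * gb k = (show MB k from v).1
    ext <;> simp [gb, *]
  · intro U hU
    have h1 : (⟨ey k, ey_mem⟩ : PY k) ∈ U ⊔ LinearMap.ker (f2 k) := by
      have : U ⊔ LinearMap.ker (f2 k) = ⊤ := hU
      rw [this]
      trivial
    obtain ⟨u, hu, v, hv, huv⟩ := Submodule.mem_sup.1 h1
    refine PY_top U u hu ?_
    have h2 : (v : Lam k).y = 0 := by
      have h6 : ((v : Lam k) * gb k) = 0 := congrArg Subtype.val hv
      have h7 := congrArg Lam.b h6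
      simpa [gb] using h7
    have h3 : (u : Lam k).y + (v : Lam k).y = 1 := congrArg (fun t : PY k => (t : Lam k).y) huv
    rw [h2, add_zero] at h3
    exact h3

/-- Dimension shifting along syzygies. -/
theorem pd_syz {R : Type} [Ring R] {M N : ModuleCat.{0} R} (h : IsSyz M N) (n : ℕ) :
    HasProjectiveDimensionLT M (n + 2) ↔ HasProjectiveDimensionLT N (n + 1) := by
  obtain ⟨P, i, p, hP, _, hi, hex, hp, _⟩ := h
  let S : ShortComplex (ModuleCat.{0} R) := ShortComplex.mk (X₁ := N) (X₂ := P) (X₃ := M)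
    (ModuleCat.ofHom i) (ModuleCat.ofHom p) (by
      apply ModuleCat.hom_ext
      exact LinearMap.ext fun x => hex.apply_apply_eq_zero x)
  have hS : S.ShortExact := by
    have hm : Mono S.f := by
      rw [ModuleCat.mono_iff_injective]
      exact hi
    have he : Epi S.g := by
      rw [ModuleCat.epi_iff_surjective]
      exact hp
    refine @ShortComplex.ShortExact.mk _ _ _ _ ?_ hm he
    rw [ShortComplex.moduleCat_exact_iff]
    intro x hx
    exact (hex x).1 hx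
  have hP' : Projective S.X₂ := (IsProjective.iff_projective (R := R) (P := P)).1 hP
  exact hS.hasProjectiveDimensionLT_X₃_iff n hP'

theorem MB_not_projective : ¬ Module.Projective (Lam k) (MB k) := by
  intro h
  obtain ⟨s, hs⟩ := Module.projective_lifting_property (f2 k) LinearMap.id (by
    obtain ⟨P, i, p, _, _, _, _, hp, _⟩ := syz2 (k := k)
    intro v
    obtain ⟨h1, h2, h3, h4, h5, h6, h7⟩ := v.2
    refine ⟨⟨⟨0, (v : Lam k).b, 0, 0, 0, (v : Lam k).q, 0, 0, 0⟩, rfl, rfl, rfl, rfl, rfl⟩, ?_⟩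
    refine Subtype.ext ?_
    show _ * gb k = (v : Lam k)
    ext <;> simp [gb, *])
  have hbm : gb k ∈ MB k := ⟨rfl, rfl, rfl, rfl, rfl, rfl, rfl⟩
  have h1 : f2 k (s ⟨gb k, hbm⟩) = ⟨gb k, hbm⟩ := LinearMap.congr_fun hs _
  have h2 : ((s ⟨gb k, hbm⟩ : PY k) : Lam k).y = 1 := by
    have := congrArg (fun t : MB k => (t : Lam k).b) h1
    simpa [f2, gb] using this
  have h3 : gb k • (⟨gb k, hbm⟩ : MB k) = 0 := by
    refine Subtype.ext ?_
    show gb k * gb k = 0
    ext <;> simp [gb]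
  have h4 : gb k • s ⟨gb k, hbm⟩ = 0 := by rw [← map_smul, h3, map_zero]
  have h5 := congrArg (fun t : PY k => (t : Lam k).b) h4
  have h6 : (gb k * ((s ⟨gb k, hbm⟩ : PY k) : Lam k)).b = 0 := h5
  simp [gb] at h6
  have h7 : ((s ⟨gb k, hbm⟩ : PY k) : Lam k).y = 0 := h6
  rw [h2] at h7
  exact one_ne_zero h7

theorem MB_pd (n : ℕ) : ¬ HasProjectiveDimensionLT (ModuleCat.of (Lam k) (MB k)) (n + 1) := by
  induction n with
  | zero =>
    intro h
    have h1 : Projective (ModuleCat.of (Lam k) (MB k)) :=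
      projective_iff_hasProjectiveDimensionLT_one.2 h
    exact MB_not_projective ((IsProjective.iff_projective _).2 h1)
  | succ n ih =>
    intro h
    exact ih ((pd_syz syz2 n).1 h)

theorem SX_pd (n : ℕ) : ¬ HasProjectiveDimensionLT (ModuleCat.of (Lam k) (SX k)) n := by
  intro h
  have h1 : HasProjectiveDimensionLT (ModuleCat.of (Lam k) (SX k)) (n + 1 + 2) :=
    hasProjectiveDimensionLT_of_ge _ n (n + 1 + 2) (by omega)
  exact MB_pd n ((pd_syz syz1 n).1 ((pd_syz syz0 (n + 1)).1 h1))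

end Pool.Agent.R722.EB
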