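import Pool.Agent.R722.FGVan

/-!
Nonvanishing of `Ext^4(S_⊤, S_Z)`.
-/

set_option autoImplicit false
set_option linter.style.haveILetI false
set_option linter.unusedSectionVars false

open CategoryTheory CategoryTheory.Abelian

namespace Pool.Agent.R722.FG

variable {G : Type} [Group G] [Finite G]

/-- The subgroups used in the nonvanishing proof. -/
structure Hyp2 (C T Q A1 A2 Z : Subgroup G) : Prop where
  cardC : Nat.card C = 24
  cardT : Nat.card T = 3
  cardQ : Nat.card Q = 8
  cardA1 : Nat.card A1 = 4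
  cardA2 : Nat.card A2 = 4
  cardZ : Nat.card Z = 2
  hne : A1 ≠ A2
  hTC : T ≤ C
  hQC : Q ≤ C
  hA1 : A1 ≤ Q
  hA2 : A2 ≤ Q
  hZ1 : Z ≤ A1
  hZ2 : Z ≤ A2
  hT : ∀ g ∈ C, ∀ t ∈ T, g * t * g⁻¹ ∈ T

theorem eq_of_card {x y : Subgroup G} (h : x ≤ y) (hc : Nat.card x = Nat.card y) : x = y :=
  Subgroup.eq_of_le_of_card_ge h hc.ge

theorem lt_of_card {x y : Subgroup G} (h : x ≤ y) (hc : Nat.card x ≠ Nat.card y) : x < y :=
  lt_of_le_of_ne h (fun he => hc (by rw [he]))

section
variable [Fintype (Subgroup G)] [DecidableEq (Subgroup G)] [LocallyFiniteOrder (Subgroup G)]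

theorem nonvanishing {W C T Q A1 A2 Z : Subgroup G} (h : Hyp W) (h' : Hyp2 C T Q A1 A2 Z) :
    ¬ V (Sm (⊤ : Subgroup G)) (Sm Z) 4 := by
  intro h4
  have hcZ := h'.cardZ
  -- first step
  have hCW : ∀ y : Subgroup G, Nat.card y = 24 → y ⊔ W = ⊤ := by
    intro y hy
    refine eq_of_card le_top ?_
    rw [Subgroup.card_top, h.cardG]
    have h1 : Nat.card y ∣ Nat.card (y ⊔ W : Subgroup G) := Subgroup.card_dvd_of_le le_sup_left
    have h2 : Nat.card W ∣ Nat.card (y ⊔ W : Subgroup G) := Subgroup.card_dvd_of_le le_sup_right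
    have h3 : Nat.card (y ⊔ W : Subgroup G) ∣ Nat.card G := Subgroup.card_subgroup_dvd_card _
    rw [h.cardV] at h2
    rw [hy] at h1
    rw [h.cardG] at h3
    have h5 : 24 * 121 ∣ Nat.card (y ⊔ W : Subgroup G) :=
      Nat.Coprime.mul_dvd_of_dvd_of_dvd (by norm_num) h1 h2
    exact Nat.dvd_antisymm h3 h5
  have hc1 : ∀ y ∈ Cmp W (⊤ : Subgroup G), Nat.card y = 24 := by
    rintro y ⟨hy, hyW⟩
    have h1 := Cmp_inf h hyW hy (Or.inl (by rw [Subgroup.card_top, h.cardG]; norm_num))
    have h2 := card_Cmp h hyW h1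
    rw [Subgroup.card_top, h.cardG] at h2
    omega
  have h3 : V (Sm C) (Sm Z) 3 := by
    refine v_to_Cmp (N := W) (b := ⊤) ?_ le_top ?_ ⟨?_, ?_⟩ ?_ ?_ h4
    · intro he
      rw [← he, Subgroup.card_top, h.cardG] at hcZ
      omega
    · intro hle
      have := Subgroup.card_le_of_le hle
      rw [h.cardV, hcZ] at this
      omega
    · exact lt_of_card le_top (by rw [Subgroup.card_top, h.cardG, h'.cardC]; norm_num)
    · exact hCW C h'.cardC
    · intro y hy hyC
      exact eq_of_card hyC (by rw [hc1 y hy, h'.cardC])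
    · intro y hy hyC
      exact (eq_of_card hyC (by rw [hc1 y hy, h'.cardC])).symm
  -- second step
  have hc2 : ∀ y ∈ Cmp T C, Nat.card y = 8 := by
    rintro y ⟨hy, hyT⟩
    have h5 : ¬ T ≤ y := by
      intro hTy
      rw [sup_eq_left.2 hTy] at hyT
      exact hy.ne hyT
    have h6 : T ⊓ y = ⊥ := by
      have h7 : Nat.card (T ⊓ y : Subgroup G) ∣ 3 := by
        rw [← h'.cardT]
        exact Subgroup.card_dvd_of_le inf_le_left
      rcases (Nat.dvd_prime Nat.prime_three).1 h7 with h8 | h8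
      · exact Subgroup.card_eq_one.1 h8
      · exfalso
        apply h5
        have : T ⊓ y = T := eq_of_card inf_le_left (by rw [h8, h'.cardT])
        rw [← this]
        exact inf_le_right
    have hnorm : (T.subgroupOf C).Normal := by
      refine ⟨fun n hn g => ?_⟩
      rw [Subgroup.mem_subgroupOf] at hn ⊢
      exact h'.hT g g.2 n hn
    have h8 : (y.subgroupOf C) ⊔ T.subgroupOf C = ⊤ := by
      rw [← Subgroup.subgroupOf_sup hy.le h'.hTC, hyT, Subgroup.subgroupOf_self]
    have h9 := Subgroup.relIndex_sup_right (y.subgroupOf C) (T.subgroupOf C)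
    rw [h8, Subgroup.relIndex_top_right, ← Subgroup.inf_relIndex_right] at h9
    have h10 : T.subgroupOf C ⊓ y.subgroupOf C = ⊥ := by
      rw [eq_bot_iff]
      intro g hg
      have : (g : G) ∈ T ⊓ y := ⟨hg.1, hg.2⟩
      rw [h6, Subgroup.mem_bot] at this
      exact Subtype.ext this
    rw [h10, Subgroup.relIndex_bot_left,
      Nat.card_congr (Subgroup.subgroupOfEquivOfLe hy.le).toEquiv] at h9
    have h11 := Subgroup.card_mul_index (T.subgroupOf C)
    rw [Nat.card_congr (Subgroup.subgroupOfEquivOfLe h'.hTC).toEquiv, h'.cardT, h'.cardC, h9]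
      at h11
    omega
  have h2 : V (Sm Q) (Sm Z) 2 := by
    refine v_to_Cmp (N := T) (b := C) ?_ h'.hTC ?_ ⟨?_, ?_⟩ ?_ ?_ h3
    · intro he
      rw [← he, h'.cardC] at hcZ
      omega
    · intro hle
      have := Subgroup.card_le_of_le hle
      rw [h'.cardT, hcZ] at this
      omega
    · exact lt_of_card h'.hQC (by rw [h'.cardC, h'.cardQ]; norm_num)
    · refine eq_of_card (sup_le h'.hQC h'.hTC) ?_
      rw [h'.cardC]
      have h1 : Nat.card Q ∣ Nat.card (Q ⊔ T : Subgroup G) :=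
        Subgroup.card_dvd_of_le le_sup_left
      have h2 : Nat.card T ∣ Nat.card (Q ⊔ T : Subgroup G) :=
        Subgroup.card_dvd_of_le le_sup_right
      have h3 : Nat.card (Q ⊔ T : Subgroup G) ∣ Nat.card C :=
        Subgroup.card_dvd_of_le (sup_le h'.hQC h'.hTC)
      rw [h'.cardT] at h2
      rw [h'.cardQ] at h1
      rw [h'.cardC] at h3
      have h5 : 8 * 3 ∣ Nat.card (Q ⊔ T : Subgroup G) :=
        Nat.Coprime.mul_dvd_of_dvd_of_dvd (by norm_num) h1 h2
      exact Nat.dvd_antisymm h3 h5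
    · intro y hy hyC
      exact eq_of_card hyC (by rw [hc2 y hy, h'.cardQ])
    · intro y hy hyC
      exact (eq_of_card hyC (by rw [hc2 y hy, h'.cardQ])).symm
  -- third step
  have hA2Q : A2 < Q := lt_of_card h'.hA2 (by rw [h'.cardA2, h'.cardQ]; norm_num)
  have h1 : V (Sm A2) (Sm Z) 1 := by
    refine v_to_Cmp (N := A1) (b := Q) ?_ h'.hA1 ?_ ⟨hA2Q, ?_⟩ ?_ ?_ h2
    · intro he
      rw [← he, h'.cardQ] at hcZ
      omega
    · intro hle
      have := Subgroup.card_le_of_le hle
      rw [h'.cardA1, hcZ] at this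
      omega
    · refine eq_of_card (sup_le h'.hA2 h'.hA1) ?_
      rw [h'.cardQ]
      have h1 : Nat.card A2 ∣ Nat.card (A2 ⊔ A1 : Subgroup G) :=
        Subgroup.card_dvd_of_le le_sup_left
      have h3 : Nat.card (A2 ⊔ A1 : Subgroup G) ∣ Nat.card Q :=
        Subgroup.card_dvd_of_le (sup_le h'.hA2 h'.hA1)
      have h5 : Nat.card (A2 ⊔ A1 : Subgroup G) ≠ 4 := by
        intro h6
        have h7 : A2 = A2 ⊔ A1 := eq_of_card le_sup_left (by rw [h6, h'.cardA2])
        have h8 : A1 = A2 ⊔ A1 := eq_of_card le_sup_right (by rw [h6, h'.cardA1])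
        exact h'.hne (h8.trans h7.symm)
      rw [h'.cardA2] at h1
      rw [h'.cardQ] at h3
      obtain ⟨k, hk⟩ := h1
      have h9 : Nat.card (A2 ⊔ A1 : Subgroup G) ≤ 8 := Nat.le_of_dvd (by norm_num) h3
      have h10 : 0 < Nat.card (A2 ⊔ A1 : Subgroup G) := Nat.card_pos
      omega
    · rintro y ⟨hy, hyA⟩ hyA2
      by_contra hne
      have h5 : Nat.card y ∣ 2 ^ 2 := by
        have := Subgroup.card_dvd_of_le hyA2
        rwa [h'.cardA2] at this
      have h6 : Nat.card y ≠ 4 := fun h7 => hne (eq_of_card hyA2 (by rw [h7, h'.cardA2]))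
      -- y is contained in A1
      have hyA1 : y ≤ A1 := by
        obtain ⟨z, hz, hz2, hz1⟩ := exists_inv (M := Z) (by rw [hcZ])
        have h24 : Nat.card C ∣ 24 := by rw [h'.cardC]
        intro g hg
        by_cases hg1 : g = 1
        · rw [hg1]; exact A1.one_mem
        · have h7 : Nat.card y ∣ 2 := by
            rw [Nat.dvd_prime_pow Nat.prime_two] at h5
            obtain ⟨k, hk, hk'⟩ := h5
            interval_cases k
            · rw [hk']; norm_num
            · rw [hk']; norm_num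
            · exact absurd hk' h6
          have h8 : g ^ 2 = 1 :=
            orderOf_dvd_iff_pow_eq_one.1 ((Subgroup.orderOf_dvd_natCard y hg).trans h7)
          have h9 := inv_unique h h24 (h'.hQC (hy.le hg)) (h'.hQC (h'.hA1 (h'.hZ1 hz))) h8 hg1
            hz2 hz1
          rw [h9]
          exact h'.hZ1 hz
      rw [sup_eq_right.2 hyA1] at hyA
      have := h'.cardA1
      rw [hyA, h'.cardQ] at this
      omega
    · rintro y ⟨hy, hyA⟩ hyA2
      refine (eq_of_card hyA2 ?_).symm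
      have h5 := Subgroup.card_dvd_of_le hyA2
      have h6 := Subgroup.card_dvd_of_le hy.le
      have h7 : Nat.card y ≠ 8 := fun h8 => hy.ne (eq_of_card hy.le (by rw [h8, h'.cardQ]))
      rw [h'.cardA2] at h5
      rw [h'.cardQ] at h6
      rw [h'.cardA2]
      have h9 : Nat.card y ≤ 8 := Nat.le_of_dvd (by norm_num) h6
      have h10 : 0 < Nat.card y := Nat.card_pos
      omega
  refine not_v_one (lt_of_card h'.hZ2 (by rw [h'.cardA2, hcZ]; norm_num)) ?_ h1
  intro x hx hZx
  refine (eq_of_card hZx ?_).symm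
  have h5 := Subgroup.card_dvd_of_le hZx
  have h6 := Subgroup.card_dvd_of_le hx.le
  have h7 : Nat.card x ≠ 4 := fun h8 => hx.ne (eq_of_card hx.le (by rw [h8, h'.cardA2]))
  rw [hcZ] at h5
  rw [h'.cardA2] at h6
  rw [hcZ]
  have h9 : Nat.card x ≤ 4 := Nat.le_of_dvd (by norm_num) h6
  have h10 : 0 < Nat.card x := Nat.card_pos
  omega

end

end Pool.Agent.R722.FG
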