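import Mathlib
import Pool.Agent.R722.FGLow

/-!
The concrete group of order `2904`.
-/

set_option autoImplicit false
set_option linter.style.haveILetI false

namespace Pool.Agent.R722.FG

/-- The vector space of dimension two over the field with eleven elements, as a group. -/
abbrev Vec : Type := Multiplicative (ZMod 11 × ZMod 11)

/-- The matrix entries of the twelve powers of the element of order twelve. -/
def tab : Fin 12 → ZMod 11 × ZMod 11 × ZMod 11 × ZMod 11
  | 0 => (1, 0, 0, 1)
  | 1 => (0, 10, 1, 5)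
  | 2 => (10, 6, 5, 2)
  | 3 => (6, 9, 2, 5)
  | 4 => (9, 6, 5, 1)
  | 5 => (6, 10, 1, 0)
  | 6 => (10, 0, 0, 10)
  | 7 => (0, 1, 10, 6)
  | 8 => (1, 5, 6, 9)
  | 9 => (5, 2, 9, 6)
  | 10 => (2, 5, 6, 10)
  | 11 => (5, 1, 10, 0)

/-- Matrix multiplication. -/
def mm (p q : ZMod 11 × ZMod 11 × ZMod 11 × ZMod 11) : ZMod 11 × ZMod 11 × ZMod 11 × ZMod 11 :=
  (p.1 * q.1 + p.2.1 * q.2.2.1, p.1 * q.2.1 + p.2.1 * q.2.2.2,
   p.2.2.1 * q.1 + p.2.2.2 * q.2.2.1, p.2.2.1 * q.2.1 + p.2.2.2 * q.2.2.2)

/-- The matrix of an element of the group. -/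
def mat : QuaternionGroup 6 → ZMod 11 × ZMod 11 × ZMod 11 × ZMod 11
  | .a i => tab i
  | .xa i => mm (2, 2, 3, 9) (tab i)

theorem mat_mul : ∀ g h : QuaternionGroup 6, mat (g * h) = mm (mat g) (mat h) := by
  decide

/-- The action of an element on a vector. -/
def av (p : ZMod 11 × ZMod 11 × ZMod 11 × ZMod 11) (v : Vec) : Vec :=
  Multiplicative.ofAdd (p.1 * v.toAdd.1 + p.2.1 * v.toAdd.2,
    p.2.2.1 * v.toAdd.1 + p.2.2.2 * v.toAdd.2)

theorem av_mm (p q : ZMod 11 × ZMod 11 × ZMod 11 × ZMod 11) (v : Vec) :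
    av (mm p q) v = av p (av q v) := by
  unfold av mm
  refine congrArg Multiplicative.ofAdd (Prod.ext ?_ ?_)
  · simp only [toAdd_ofAdd]
    ring
  · simp only [toAdd_ofAdd]
    ring

theorem av_mul (p : ZMod 11 × ZMod 11 × ZMod 11 × ZMod 11) (v w : Vec) :
    av p (v * w) = av p v * av p w := by
  unfold av
  rw [← ofAdd_add]
  refine congrArg Multiplicative.ofAdd (Prod.ext ?_ ?_)
  · simp only [toAdd_mul, Prod.fst_add, Prod.snd_add]
    ring
  · simp only [toAdd_mul, Prod.fst_add, Prod.snd_add]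
    ring

theorem av_one (v : Vec) : av (1, 0, 0, 1) v = v := by
  unfold av
  apply Multiplicative.toAdd.injective
  refine Prod.ext ?_ ?_ <;> simp

/-- The action. -/
def ph : QuaternionGroup 6 →* MulAut Vec where
  toFun g :=
    { toFun := av (mat g)
      invFun := av (mat g⁻¹)
      left_inv := fun v => by
        rw [← av_mm, ← mat_mul, inv_mul_cancel]
        exact av_one v
      right_inv := fun v => by
        rw [← av_mm, ← mat_mul, mul_inv_cancel]
        exact av_one v
      map_mul' := av_mul _ }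
  map_one' := MulEquiv.ext fun v => av_one v
  map_mul' g h := MulEquiv.ext fun v => by
    show av (mat (g * h)) v = av (mat g) (av (mat h) v)
    rw [mat_mul, av_mm]

theorem ph_apply (g : QuaternionGroup 6) (v : Vec) : ph g v = av (mat g) v := rfl

/-- The group. -/
abbrev GG : Type := SemidirectProduct Vec (QuaternionGroup 6) ph

instance : Finite GG := Finite.of_equiv _ (SemidirectProduct.equivProd).symm

theorem card_Vec : Nat.card Vec = 121 := by
  rw [Nat.card_eq_fintype_card]
  rfl

theorem card_Q : Nat.card (QuaternionGroup 6) = 24 := by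
  rw [Nat.card_eq_fintype_card, QuaternionGroup.card]

theorem card_GG : Nat.card GG = 2904 := by
  rw [Nat.card_congr (SemidirectProduct.equivProd), Nat.card_prod, card_Vec, card_Q]

/-- The normal subgroup of order `121`. -/
def WW : Subgroup GG := (SemidirectProduct.inl : Vec →* GG).range

theorem conj_inl (t : GG) (v : Vec) :
    t * SemidirectProduct.inl v * t⁻¹ = SemidirectProduct.inl (ph t.right v) := by
  have h1 : t = SemidirectProduct.inl t.left * SemidirectProduct.inr t.right :=
    (SemidirectProduct.inl_left_mul_inr_right t).symm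
  have h2 : t * SemidirectProduct.inl v * t⁻¹
      = SemidirectProduct.inl t.left * (SemidirectProduct.inr t.right *
        SemidirectProduct.inl v * SemidirectProduct.inr t.right⁻¹) *
        (SemidirectProduct.inl t.left)⁻¹ := by
    nth_rewrite 1 [h1]
    nth_rewrite 3 [h1]
    rw [mul_inv_rev, map_inv]
    simp only [mul_assoc]
  rw [h2, ← SemidirectProduct.inl_aut, ← map_inv, ← map_mul, ← map_mul, mul_comm t.left,
    mul_inv_cancel_right]

theorem fix3a : ∀ g : QuaternionGroup 6, g * (g * g) = 1 → g ≠ 1 →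
    g = .a 4 ∨ g = .a 8 := by
  decide

theorem fix3b : ∀ x y : ZMod 11, (9 * x + 6 * y = x ∧ 5 * x + 1 * y = y) → x = 0 ∧ y = 0 := by
  decide

theorem fix3c : ∀ x y : ZMod 11, (1 * x + 5 * y = x ∧ 6 * x + 9 * y = y) → x = 0 ∧ y = 0 := by
  decide

theorem fix3 (g : QuaternionGroup 6) (h1 : g * (g * g) = 1) (h2 : g ≠ 1) (x y : ZMod 11)
    (h3 : (mat g).1 * x + (mat g).2.1 * y = x)
    (h4 : (mat g).2.2.1 * x + (mat g).2.2.2 * y = y) :
    x = 0 ∧ y = 0 := by
  rcases fix3a g h1 h2 with h | h
  · rw [h] at h3 h4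
    exact fix3b x y ⟨h3, h4⟩
  · rw [h] at h3 h4
    exact fix3c x y ⟨h3, h4⟩

theorem fix2 : ∀ g : QuaternionGroup 6, g * g = 1 → g ≠ 1 → mat g = (10, 0, 0, 10) := by
  decide

theorem eq_inl_of_right {t : GG} (h : t.right = 1) : t = SemidirectProduct.inl t.left := by
  have h1 := SemidirectProduct.inl_left_mul_inr_right t
  rw [h, map_one, mul_one] at h1
  exact h1.symm

theorem vec_pow (v : Vec) : v ^ 11 = 1 := by
  apply Multiplicative.toAdd.injective
  refine Prod.ext ?_ ?_
  · show 11 • (Multiplicative.toAdd v).1 = 0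
    rw [nsmul_eq_mul]
    have : ((11 : ℕ) : ZMod 11) = 0 := rfl
    rw [this, zero_mul]
  · show 11 • (Multiplicative.toAdd v).2 = 0
    rw [nsmul_eq_mul]
    have : ((11 : ℕ) : ZMod 11) = 0 := rfl
    rw [this, zero_mul]

theorem hyp : Hyp WW where
  normal := by
    unfold WW
    rw [SemidirectProduct.range_inl_eq_ker_rightHom]
    infer_instance
  cardV := by
    unfold WW
    rw [← card_Vec]
    exact (Nat.card_congr (MonoidHom.ofInjective SemidirectProduct.inl_injective).toEquiv).symm
  cardG := card_GG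
  comm := by
    rintro _ ⟨u, rfl⟩ _ ⟨v, rfl⟩
    rw [← map_mul, ← map_mul, mul_comm]
  three := by
    rintro t ht ht1 _ ⟨u, rfl⟩ hu
    rw [conj_inl] at hu
    have h0 := SemidirectProduct.inl_injective hu
    have h1 : t.right * (t.right * t.right) = 1 := by
      have := congrArg SemidirectProduct.right ht
      rw [pow_succ, pow_two] at this
      rw [← mul_assoc]
      exact this
    by_cases h2 : t.right = 1
    · exfalso
      apply ht1
      rw [eq_inl_of_right h2] at ht ⊢
      rw [← map_pow, ← map_one (SemidirectProduct.inl : Vec →* GG)] at ht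
      have h3 := SemidirectProduct.inl_injective ht
      have h4 : t.left = 1 := by
        have h5 := vec_pow t.left
        calc t.left = (t.left ^ 3) ^ 4 * (t.left ^ 11)⁻¹ := by
              rw [← pow_mul, ← pow_sub _ (by norm_num), pow_one]
          _ = 1 := by rw [h3, h5, one_pow, inv_one, mul_one]
      rw [h4, map_one]
    · have h3 := fix3 t.right h1 h2 (Multiplicative.toAdd u).1 (Multiplicative.toAdd u).2
        (congrArg (fun w : Vec => (Multiplicative.toAdd w).1) h0)
        (congrArg (fun w : Vec => (Multiplicative.toAdd w).2) h0)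
      have h4 : u = 1 := Multiplicative.toAdd.injective (Prod.ext h3.1 h3.2)
      rw [h4, map_one]
  two := by
    rintro t ht ht1 _ ⟨u, rfl⟩
    rw [conj_inl, ← map_inv]
    have h1 : t.right * t.right = 1 := by
      have := congrArg SemidirectProduct.right ht
      rw [pow_two] at this
      exact this
    by_cases h2 : t.right = 1
    · exfalso
      apply ht1
      rw [eq_inl_of_right h2] at ht ⊢
      rw [← map_pow, ← map_one (SemidirectProduct.inl : Vec →* GG)] at ht
      have h3 := SemidirectProduct.inl_injective ht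
      have h4 : t.left = 1 := by
        have h5 := vec_pow t.left
        calc t.left = (t.left ^ 2) ^ 6 * (t.left ^ 11)⁻¹ := by
              rw [← pow_mul, ← pow_sub _ (by norm_num), pow_one]
          _ = 1 := by rw [h3, h5, one_pow, inv_one, mul_one]
      rw [h4, map_one]
    · congr 1
      rw [ph_apply, fix2 t.right h1 h2]
      unfold av
      apply Multiplicative.toAdd.injective
      have h10 : (10 : ZMod 11) = -1 := rfl
      rw [h10]
      refine Prod.ext ?_ ?_ <;> simp

/-- The subgroup of order eight. -/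
def Q8 : Subgroup (QuaternionGroup 6) where
  carrier := (({.a 0, .a 3, .a 6, .a 9, .xa 0, .xa 3, .xa 6, .xa 9} :
    Finset (QuaternionGroup 6)) : Set (QuaternionGroup 6))
  one_mem' := by
    show (1 : QuaternionGroup 6) ∈ (_ : Finset (QuaternionGroup 6))
    decide
  mul_mem' := by
    have h : ∀ g ∈ ({.a 0, .a 3, .a 6, .a 9, .xa 0, .xa 3, .xa 6, .xa 9} :
      Finset (QuaternionGroup 6)), ∀ h ∈ ({.a 0, .a 3, .a 6, .a 9, .xa 0, .xa 3, .xa 6, .xa 9} :
      Finset (QuaternionGroup 6)), g * h ∈ ({.a 0, .a 3, .a 6, .a 9, .xa 0, .xa 3, .xa 6, .xa 9} :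
      Finset (QuaternionGroup 6)) := by decide
    intro g g' hg hg'
    exact h g hg g' hg'
  inv_mem' := by
    have h : ∀ g ∈ ({.a 0, .a 3, .a 6, .a 9, .xa 0, .xa 3, .xa 6, .xa 9} :
      Finset (QuaternionGroup 6)), g⁻¹ ∈ ({.a 0, .a 3, .a 6, .a 9, .xa 0, .xa 3, .xa 6, .xa 9} :
      Finset (QuaternionGroup 6)) := by decide
    intro g hg
    exact h g hg

theorem mem_Q8 (g : QuaternionGroup 6) : g ∈ Q8 ↔
    g ∈ ({.a 0, .a 3, .a 6, .a 9, .xa 0, .xa 3, .xa 6, .xa 9} :
    Finset (QuaternionGroup 6)) := Iff.rfl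

theorem card_Q8 : Nat.card Q8 = 8 := by
  have h : Nat.card Q8 = (({.a 0, .a 3, .a 6, .a 9, .xa 0, .xa 3, .xa 6, .xa 9} :
    Finset (QuaternionGroup 6)) : Set (QuaternionGroup 6)).ncard := rfl
  rw [h, Set.ncard_coe_finset]
  decide

theorem card_map (S : Subgroup (QuaternionGroup 6)) :
    Nat.card (S.map (SemidirectProduct.inr : QuaternionGroup 6 →* GG)) = Nat.card S :=
  (Nat.card_congr (Subgroup.equivMapOfInjective S _ SemidirectProduct.inr_injective).toEquiv).symm

theorem card_T : Nat.card (Subgroup.zpowers (QuaternionGroup.a 4 : QuaternionGroup 6)) = 3 := by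
  haveI : Fact (Nat.Prime 3) := ⟨by norm_num⟩
  rw [Nat.card_zpowers]
  exact orderOf_eq_prime (by decide) (by decide)

theorem card_Z : Nat.card (Subgroup.zpowers (QuaternionGroup.a 6 : QuaternionGroup 6)) = 2 := by
  haveI : Fact (Nat.Prime 2) := ⟨by norm_num⟩
  rw [Nat.card_zpowers]
  exact orderOf_eq_prime (by decide) (by decide)

theorem card_A1 : Nat.card (Subgroup.zpowers (QuaternionGroup.a 3 : QuaternionGroup 6)) = 4 := by
  haveI : Fact (Nat.Prime 2) := ⟨by norm_num⟩
  rw [Nat.card_zpowers]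
  exact orderOf_eq_prime_pow (p := 2) (n := 1) (by decide) (by decide)

theorem card_A2 : Nat.card (Subgroup.zpowers (QuaternionGroup.xa 0 : QuaternionGroup 6)) = 4 := by
  haveI : Fact (Nat.Prime 2) := ⟨by norm_num⟩
  rw [Nat.card_zpowers]
  exact orderOf_eq_prime_pow (p := 2) (n := 1) (by decide) (by decide)

theorem hyp2 : Hyp2 (G := GG)
    ((⊤ : Subgroup (QuaternionGroup 6)).map SemidirectProduct.inr)
    ((Subgroup.zpowers (QuaternionGroup.a 4 : QuaternionGroup 6)).map SemidirectProduct.inr)
    (Q8.map SemidirectProduct.inr)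
    ((Subgroup.zpowers (QuaternionGroup.a 3 : QuaternionGroup 6)).map SemidirectProduct.inr)
    ((Subgroup.zpowers (QuaternionGroup.xa 0 : QuaternionGroup 6)).map SemidirectProduct.inr)
    ((Subgroup.zpowers (QuaternionGroup.a 6 : QuaternionGroup 6)).map SemidirectProduct.inr) where
  cardC := by rw [card_map, Subgroup.card_top, card_Q]
  cardT := by rw [card_map, card_T]
  cardQ := by rw [card_map, card_Q8]
  cardA1 := by rw [card_map, card_A1]
  cardA2 := by rw [card_map, card_A2]
  cardZ := by rw [card_map, card_Z]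
  hne := by
    intro h
    have h1 := Subgroup.map_injective SemidirectProduct.inr_injective h
    have h2 : (QuaternionGroup.xa 0 : QuaternionGroup 6) ∈
        Subgroup.zpowers (QuaternionGroup.a 3 : QuaternionGroup 6) := by
      rw [h1]
      exact Subgroup.mem_zpowers _
    have h3 : Commute (QuaternionGroup.xa 0 : QuaternionGroup 6)
        (QuaternionGroup.a 3 : QuaternionGroup 6) := by
      obtain ⟨k, hk⟩ := Subgroup.mem_zpowers_iff.1 h2
      rw [← hk]
      exact (Commute.refl _).zpow_left k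
    have h4 : (QuaternionGroup.xa 0 : QuaternionGroup 6) * QuaternionGroup.a 3
      ≠ QuaternionGroup.a 3 * QuaternionGroup.xa 0 := by decide
    exact h4 h3
  hTC := Subgroup.map_mono le_top
  hQC := Subgroup.map_mono le_top
  hA1 := Subgroup.map_mono (by
    rw [Subgroup.zpowers_le, mem_Q8]
    decide)
  hA2 := Subgroup.map_mono (by
    rw [Subgroup.zpowers_le, mem_Q8]
    decide)
  hZ1 := Subgroup.map_mono (by
    rw [Subgroup.zpowers_le, Subgroup.mem_zpowers_iff]
    exact ⟨2, by decide⟩)
  hZ2 := Subgroup.map_mono (by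
    rw [Subgroup.zpowers_le, Subgroup.mem_zpowers_iff]
    exact ⟨2, by decide⟩)
  hT := by
    rintro _ ⟨g, _, rfl⟩ _ ⟨t, ht, rfl⟩
    rw [← map_inv, ← map_mul, ← map_mul]
    refine Subgroup.mem_map_of_mem _ ?_
    obtain ⟨k, rfl⟩ := Subgroup.mem_zpowers_iff.1 ht
    rw [← conj_zpow]
    refine Subgroup.zpow_mem _ ?_ k
    have h : ∀ g : QuaternionGroup 6, g * QuaternionGroup.a 4 * g⁻¹ = QuaternionGroup.a 4 ∨
      g * QuaternionGroup.a 4 * g⁻¹ = QuaternionGroup.a 4 ^ 2 := by decide
    rcases h g with h1 | h1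
    · rw [h1]
      exact Subgroup.mem_zpowers _
    · rw [h1]
      exact Subgroup.pow_mem _ (Subgroup.mem_zpowers _) 2

end Pool.Agent.R722.FG
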