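import Mathlib

/-!
Long exact sequence bookkeeping for vanishing of Ext in the first variable.
-/

set_option autoImplicit false

open CategoryTheory CategoryTheory.Abelian

namespace Pool.Agent.R722.FG

universe w v u

variable {C : Type u} [Category.{v} C] [Abelian C] [HasExt.{w} C]

/-- vanishing of `Ext^n(X, Y)` -/
abbrev V (X Y : C) (n : ℕ) : Prop := Subsingleton (Ext.{w} X Y n)

section
variable {S : ShortComplex C} (hS : S.ShortExact) {Y : C}
include hS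

theorem v2 {n : ℕ} (h1 : V S.X₁ Y n) (h3 : V S.X₃ Y n) : V S.X₂ Y n := by
  refine subsingleton_of_forall_eq 0 fun x => ?_
  obtain ⟨y, rfl⟩ := Ext.contravariant_sequence_exact₂ hS Y x (Subsingleton.elim _ _)
  rw [Subsingleton.elim y 0, Ext.comp_zero]

theorem v3 {n : ℕ} (h1 : V S.X₁ Y n) (h2 : V S.X₂ Y (n + 1)) : V S.X₃ Y (n + 1) := by
  refine subsingleton_of_forall_eq 0 fun x => ?_
  obtain ⟨y, rfl⟩ := Ext.contravariant_sequence_exact₃ hS Y x (Subsingleton.elim _ _)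
    (add_comm 1 n)
  rw [Subsingleton.elim y 0, Ext.comp_zero]

theorem v30 (h2 : V S.X₂ Y 0) : V S.X₃ Y 0 := by
  have := hS.epi_g
  refine subsingleton_of_forall_eq 0 fun x => ?_
  apply Ext.precomp_mk₀_injective_of_epi Y S.g
  exact Subsingleton.elim _ _

theorem v1 {n : ℕ} (h2 : V S.X₂ Y n) (h3 : V S.X₃ Y (n + 1)) : V S.X₁ Y n := by
  refine subsingleton_of_forall_eq 0 fun x => ?_
  obtain ⟨y, rfl⟩ := Ext.contravariant_sequence_exact₁ hS Y x (add_comm 1 n)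
    (Subsingleton.elim _ _)
  rw [Subsingleton.elim y 0, Ext.comp_zero]

end

/-- vanishing of `Ext` in all degrees -/
def Acyc (X Y : C) : Prop := ∀ n : ℕ, V X Y n

section
variable {S : ShortComplex C} (hS : S.ShortExact) {Y : C}
include hS

theorem acyc2 (h1 : Acyc S.X₁ Y) (h3 : Acyc S.X₃ Y) : Acyc S.X₂ Y :=
  fun n => v2 hS (h1 n) (h3 n)

theorem acyc3 (h1 : Acyc S.X₁ Y) (h2 : Acyc S.X₂ Y) : Acyc S.X₃ Y
  | 0 => v30 hS (h2 0)
  | n + 1 => v3 hS (h1 n) (h2 (n + 1))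

theorem v3_of_acyc1 (h1 : Acyc S.X₁ Y) {n : ℕ} (h2 : V S.X₂ Y n) : V S.X₃ Y n := by
  cases n with
  | zero => exact v30 hS h2
  | succ n => exact v3 hS (h1 n) h2

end

theorem v_retract {X X' Y : C} (i : X ⟶ X') (r : X' ⟶ X) (h : i ≫ r = 𝟙 X) {n : ℕ}
    (h' : V X' Y n) : V X Y n := by
  refine subsingleton_of_forall_eq 0 fun x => ?_
  have h1 : (Ext.mk₀ r).comp x (zero_add n) = 0 := Subsingleton.elim _ _
  have h2 : (Ext.mk₀ i).comp ((Ext.mk₀ r).comp x (zero_add n)) (zero_add n) = x := by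
    rw [Ext.mk₀_comp_mk₀_assoc, h, Ext.mk₀_id_comp]
  rw [← h2, h1, Ext.comp_zero]

theorem v_iso {X X' Y : C} (e : X ≅ X') {n : ℕ} (h' : V X' Y n) : V X Y n :=
  v_retract e.hom e.inv e.hom_inv_id h'

theorem v_iso_right {X Y Y' : C} (e : Y ≅ Y') {n : ℕ} (h' : V X Y' n) : V X Y n := by
  refine subsingleton_of_forall_eq 0 fun x => ?_
  have h1 : x.comp (Ext.mk₀ e.hom) (add_zero n) = 0 := Subsingleton.elim _ _
  have h2 : (x.comp (Ext.mk₀ e.hom) (add_zero n)).comp (Ext.mk₀ e.inv) (add_zero n) = x := by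
    rw [Ext.comp_assoc_of_second_deg_zero, Ext.mk₀_comp_mk₀, e.hom_inv_id, Ext.comp_mk₀_id]
  rw [← h2, h1, Ext.zero_comp]

theorem v_projective {X Y : C} [Projective X] (n : ℕ) : V X Y (n + 1) :=
  Ext.subsingleton_of_projective X Y n

theorem v_zero_iff {X Y : C} : V X Y 0 ↔ ∀ f : X ⟶ Y, f = 0 := by
  constructor
  · intro h f
    have : Ext.mk₀ f = Ext.mk₀ (0 : X ⟶ Y) := Subsingleton.elim _ _
    exact (Ext.mk₀_bijective X Y).1 this
  · intro h
    refine subsingleton_of_forall_eq 0 fun x => ?_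
    obtain ⟨f, rfl⟩ := (Ext.mk₀_bijective X Y).2 x
    rw [h f, Ext.mk₀_zero]

end Pool.Agent.R722.FG
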