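import Mathlib

/-!
Group theory for a group `G = V ⋊ C` of order `2904`, `|V| = 121`.
-/

set_option autoImplicit false

namespace Pool.Agent.R722.FG

variable {G : Type} [Group G] [Finite G]

/-- The properties of the pair `(G, V)` which are used. -/
structure Hyp (V : Subgroup G) : Prop where
  normal : V.Normal
  cardV : Nat.card V = 121
  cardG : Nat.card G = 2904
  comm : ∀ u ∈ V, ∀ v ∈ V, u * v = v * u
  three : ∀ t : G, t ^ 3 = 1 → t ≠ 1 → ∀ u ∈ V, t * u * t⁻¹ = u → u = 1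
  two : ∀ t : G, t ^ 2 = 1 → t ≠ 1 → ∀ u ∈ V, t * u * t⁻¹ = u⁻¹

/-- The Frattini subgroup of a subgroup, as a subgroup of the ambient group. -/
def Phi (H : Subgroup G) : Subgroup G := (frattini H).map H.subtype

omit [Finite G] in
theorem Phi_le (H : Subgroup G) : Phi H ≤ H := Subgroup.map_subtype_le _

theorem Phi_nongen {H x : Subgroup G} (hx : x ≤ H) (h : x ⊔ Phi H = H) : x = H := by
  have h1 : (x.subgroupOf H) ⊔ frattini H = ⊤ := by
    have h2 : (Phi H).subgroupOf H = frattini H := by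
      rw [Phi, Subgroup.subgroupOf, Subgroup.comap_map_eq_self_of_injective]
      exact H.subtype_injective
    rw [← h2, ← Subgroup.subgroupOf_sup hx (Phi_le H), h, Subgroup.subgroupOf_self]
  have h3 := frattini_nongenerating h1
  exact le_antisymm hx (Subgroup.subgroupOf_eq_top.1 h3)

omit [Finite G] in
theorem Phi_normal {H : Subgroup G} {g k : G} (hg : g ∈ H) (hk : k ∈ Phi H) :
    g * k * g⁻¹ ∈ Phi H := by
  obtain ⟨k', hk', rfl⟩ := hk
  refine ⟨⟨g, hg⟩ * k' * ⟨g, hg⟩⁻¹, ?_, rfl⟩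
  have : (frattini H).Normal := inferInstance
  exact this.conj_mem k' hk' ⟨g, hg⟩

omit [Finite G] in
theorem eq_one_of_sq {V : Subgroup G} (h : Hyp V) {u : G} (hu : u ∈ V) (h2 : u * u = 1) :
    u = 1 := by
  have h1 : orderOf u ∣ 121 := by
    rw [← h.cardV]
    exact Subgroup.orderOf_dvd_natCard V hu
  have h3 : orderOf u ∣ 2 := orderOf_dvd_of_pow_eq_one (by rw [pow_two, h2])
  have h4 : orderOf u ∣ 1 := by
    have h5 := Nat.dvd_gcd h1 h3
    have h6 : Nat.gcd 121 2 = 1 := by norm_num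
    rwa [h6] at h5
  exact orderOf_eq_one_iff.1 (Nat.dvd_one.1 h4)

theorem exists_ne_one {V : Subgroup G} (h : Hyp V) : ∃ u ∈ V, u ≠ 1 := by
  by_contra hcon
  push Not at hcon
  have : V = ⊥ := (Subgroup.eq_bot_iff_forall V).2 hcon
  have h1 := h.cardV
  rw [this, Subgroup.card_bot] at h1
  omega

/-- A nontrivial element of a subgroup of order dividing `24` acts nontrivially on `V`. -/
theorem faithful {V : Subgroup G} (h : Hyp V) {M : Subgroup G} (hM : Nat.card M ∣ 24) {r : G}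
    (hr : r ∈ M) (hc : ∀ u ∈ V, r * u * r⁻¹ = u) : r = 1 := by
  by_contra hne
  have hn1 : orderOf r ≠ 1 := fun h1 => hne (orderOf_eq_one_iff.1 h1)
  have hn24 : orderOf r ∣ 24 := (Subgroup.orderOf_dvd_natCard M hr).trans hM
  have hn0 : orderOf r ≠ 0 := (orderOf_pos r).ne'
  obtain ⟨p, hp, hpn⟩ := Nat.exists_prime_and_dvd hn1
  have hp24 : p ∣ 24 := hpn.trans hn24
  obtain ⟨k, hk⟩ := hpn
  have hkn : k ∣ orderOf r := ⟨p, by rw [hk, mul_comm]⟩
  have hord : orderOf (r ^ k) = p := by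
    rw [orderOf_pow_of_dvd (by rintro rfl; simp at hk; omega) hkn, hk]
    exact Nat.mul_div_cancel p (Nat.pos_of_ne_zero (by rintro rfl; simp at hk; omega))
  have hcomm : ∀ u ∈ V, r ^ k * u * (r ^ k)⁻¹ = u := by
    intro u hu
    have h1 : Commute r u := by
      have := hc u hu
      rw [mul_inv_eq_iff_eq_mul] at this
      exact this
    have h2 : Commute (r ^ k) u := h1.pow_left k
    rw [mul_inv_eq_iff_eq_mul]
    exact h2
  have hne' : r ^ k ≠ 1 := by
    intro h1
    rw [h1, orderOf_one] at hord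
    exact hp.one_lt.ne hord
  obtain ⟨u, hu, hu1⟩ := exists_ne_one h
  have hp23 : p = 2 ∨ p = 3 := by
    have h1 : p ∣ 2 ^ 3 * 3 := by norm_num; exact hp24
    rcases (hp.dvd_mul).1 h1 with h2 | h2
    · left
      exact (Nat.prime_dvd_prime_iff_eq hp Nat.prime_two).1 (hp.dvd_of_dvd_pow h2)
    · right
      exact (Nat.prime_dvd_prime_iff_eq hp Nat.prime_three).1 h2
  rcases hp23 with rfl | rfl
  · have h1 := h.two (r ^ k) (by rw [← hord]; exact pow_orderOf_eq_one _) hne' u hu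
    rw [hcomm u hu] at h1
    exact hu1 (eq_one_of_sq h hu (by nth_rewrite 2 [h1]; exact mul_inv_cancel u))
  · exact hu1 (h.three (r ^ k) (by rw [← hord]; exact pow_orderOf_eq_one _) hne' u hu
      (hcomm u hu))

theorem inv_unique {V : Subgroup G} (h : Hyp V) {M : Subgroup G} (hM : Nat.card M ∣ 24)
    {s t : G} (hs : s ∈ M) (ht : t ∈ M) (hs2 : s ^ 2 = 1) (hs1 : s ≠ 1) (ht2 : t ^ 2 = 1)
    (ht1 : t ≠ 1) : s = t := by
  have htt : t⁻¹ = t := by
    rw [inv_eq_iff_mul_eq_one, ← pow_two, ht2]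
  have hst : s * t = 1 := by
    refine faithful h hM (M.mul_mem hs ht) fun u hu => ?_
    have h1 : s * t * u * (s * t)⁻¹ = s * (t * u * t⁻¹) * s⁻¹ := by group
    rw [h1, h.two t ht2 ht1 u hu, h.two s hs2 hs1 _ (V.inv_mem hu), inv_inv]
  rw [mul_eq_one_iff_eq_inv, htt] at hst
  exact hst

theorem exists_inv {M : Subgroup G} (h2 : 2 ∣ Nat.card M) : ∃ z ∈ M, z ^ 2 = 1 ∧ z ≠ 1 := by
  haveI : Fact (Nat.Prime 2) := ⟨Nat.prime_two⟩
  obtain ⟨z, hz⟩ := exists_prime_orderOf_dvd_card' 2 h2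
  refine ⟨z, z.2, ?_, ?_⟩
  · have := pow_orderOf_eq_one z
    rw [hz] at this
    exact_mod_cast congrArg Subtype.val this
  · intro h1
    have : z = 1 := Subtype.ext h1
    rw [this, orderOf_one] at hz
    omega

/-- The involution is a nongenerator. -/
theorem inv_nongen {V : Subgroup G} (h : Hyp V) {M : Subgroup G} (hM : Nat.card M ∣ 24)
    (h4 : 4 ∣ Nat.card M) {z : G} (hz : z ∈ M) (hz2 : z ^ 2 = 1) (hz1 : z ≠ 1) {x : Subgroup G}
    (hx : x < M) : x ⊔ Subgroup.zpowers z ≠ M := by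
  intro hxM
  have hzM : Subgroup.zpowers z ≤ M := by
    rw [Subgroup.zpowers_le]
    exact hz
  -- z not in x
  have hzx : z ∉ x := by
    intro hzx
    have : Subgroup.zpowers z ≤ x := by
      rw [Subgroup.zpowers_le]
      exact hzx
    rw [sup_eq_left.2 this] at hxM
    exact hx.ne hxM
  have hxcard : Nat.card x ∣ Nat.card M := Subgroup.card_dvd_of_le hx.le
  -- x has odd order
  have hodd : ¬ 2 ∣ Nat.card x := by
    intro h2
    obtain ⟨t, ht, ht2, ht1⟩ := exists_inv h2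
    have := inv_unique h hM (hx.le ht) hz ht2 ht1 hz2 hz1
    exact hzx (this ▸ ht)
  -- z is central in M
  have hnorm : ((Subgroup.zpowers z).subgroupOf M).Normal := by
    refine ⟨fun n hn g => ?_⟩
    rw [Subgroup.mem_subgroupOf] at hn ⊢
    have hg : (g : G) * z * (g : G)⁻¹ = z := by
      refine inv_unique h hM (M.mul_mem (M.mul_mem g.2 hz) (M.inv_mem g.2)) hz ?_ ?_ hz2 hz1
      · rw [conj_pow, hz2, mul_one, mul_inv_cancel]
      · intro h1
        rw [mul_inv_eq_one] at h1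
        exact hz1 (mul_left_cancel (h1.trans (mul_one _).symm))
    rw [Subgroup.mem_zpowers_iff] at hn
    obtain ⟨k, hk⟩ := hn
    rw [Subgroup.mem_zpowers_iff]
    refine ⟨k, ?_⟩
    have h1 : ((g * n * g⁻¹ : M) : G) = g * n * (g : G)⁻¹ := rfl
    rw [h1, ← hk, ← conj_zpow, hg]
  have h1 : (x.subgroupOf M) ⊔ (Subgroup.zpowers z).subgroupOf M = ⊤ := by
    rw [← Subgroup.subgroupOf_sup hx.le hzM, hxM, Subgroup.subgroupOf_self]
  have h2 := Subgroup.relIndex_sup_right (x.subgroupOf M) ((Subgroup.zpowers z).subgroupOf M)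
  rw [h1, Subgroup.relIndex_top_right] at h2
  have h3 : ((Subgroup.zpowers z).subgroupOf M).index ∣ Nat.card x := by
    rw [h2]
    have := Subgroup.relIndex_dvd_card ((Subgroup.zpowers z).subgroupOf M) (x.subgroupOf M)
    rwa [Nat.card_congr (Subgroup.subgroupOfEquivOfLe hx.le).toEquiv] at this
  have hzc : Nat.card (Subgroup.zpowers z) = 2 := by
    rw [Nat.card_zpowers]
    exact orderOf_eq_prime hz2 hz1
  have h5 := Subgroup.card_mul_index ((Subgroup.zpowers z).subgroupOf M)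
  rw [Nat.card_congr (Subgroup.subgroupOfEquivOfLe hzM).toEquiv, hzc] at h5
  apply hodd
  have h6 : 2 ∣ ((Subgroup.zpowers z).subgroupOf M).index := by
    obtain ⟨k, hk⟩ := h4
    refine ⟨k, ?_⟩
    omega
  exact h6.trans h3

/-- `L` normalizes a subgroup of order `11` of `V`: no elements of order `3` or subgroups of
order `4`. -/
theorem no_line {V : Subgroup G} (h : Hyp V) {U L : Subgroup G} (hU : U ≤ V)
    (hc : Nat.card U = 11) (hL : ∀ g ∈ L, ∀ u ∈ U, g * u * g⁻¹ ∈ U) :
    ¬ 3 ∣ Nat.card L ∧ ¬ 4 ∣ Nat.card L := by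
  haveI : Fact (Nat.Prime 11) := ⟨by norm_num⟩
  have hne : ∃ u ∈ U, u ≠ 1 := by
    by_contra hcon
    push Not at hcon
    have : U = ⊥ := (Subgroup.eq_bot_iff_forall U).2 hcon
    rw [this, Subgroup.card_bot] at hc
    omega
  obtain ⟨u, hu, hu1⟩ := hne
  have hord : orderOf u = 11 := by
    have h1 : orderOf u ∣ 11 := hc ▸ Subgroup.orderOf_dvd_natCard U hu
    rcases (Nat.dvd_prime (by norm_num)).1 h1 with h2 | h2
    · exact absurd (orderOf_eq_one_iff.1 h2) hu1
    · exact h2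
  have hUz : U = Subgroup.zpowers u := by
    refine (Subgroup.eq_of_le_of_card_ge ?_ ?_).symm
    · rw [Subgroup.zpowers_le]
      exact hu
    · rw [hc, Nat.card_zpowers, hord]
  have hact : ∀ g ∈ L, ∃ c : ℕ, g * u * g⁻¹ = u ^ c := by
    intro g hg
    have h1 := hL g hg u hu
    rw [hUz] at h1
    have h2 := (mem_powers_iff_mem_zpowers (x := u)).2 h1
    obtain ⟨c, hc⟩ := h2
    exact ⟨c, hc.symm⟩
  constructor
  · intro h3
    haveI : Fact (Nat.Prime 3) := ⟨by norm_num⟩
    obtain ⟨g, hg⟩ := exists_prime_orderOf_dvd_card' 3 h3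
    have hg3 : (g : G) ^ 3 = 1 := by
      have := pow_orderOf_eq_one g
      rw [hg] at this
      exact_mod_cast congrArg Subtype.val this
    have hg1 : (g : G) ≠ 1 := by
      intro h1
      have : g = 1 := Subtype.ext h1
      rw [this, orderOf_one] at hg
      omega
    obtain ⟨c, hc⟩ := hact g g.2
    have hk : ∀ k : ℕ, (g : G) * u ^ k * (g : G)⁻¹ = u ^ (c * k) := by
      intro k
      rw [← conj_pow, hc, pow_mul]
    have h4 : (g : G) ^ 3 * u * ((g : G) ^ 3)⁻¹ = u ^ (c * (c * c)) := by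
      have : (g : G) ^ 3 * u * ((g : G) ^ 3)⁻¹
          = g * (g * (g * u * (g : G)⁻¹) * (g : G)⁻¹) * (g : G)⁻¹ := by
        simp only [pow_succ, pow_zero, one_mul, mul_inv_rev, mul_assoc]
      rw [this, hc, hk, hk]
    rw [hg3, one_mul, inv_one, mul_one] at h4
    have h5 : (1 : ℕ) ≡ c * (c * c) [MOD 11] := by
      rw [← hord]
      exact pow_eq_pow_iff_modEq.1 (by rw [pow_one]; exact h4)
    have h6 : c ≡ 1 [MOD 11] := by
      have h7 : (c * (c * c)) % 11 = 1 := h5.symm
      have h8 : c % 11 < 11 := Nat.mod_lt _ (by norm_num)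
      rw [Nat.mul_mod, Nat.mul_mod c c] at h7
      show c % 11 = 1 % 11
      generalize c % 11 = d at h7 h8 ⊢
      have h9 : ∀ d < 11, (d * (d * d % 11)) % 11 = 1 → d = 1 % 11 := by decide
      refine h9 d h8 ?_
      rwa [Nat.mul_mod, Nat.mod_mod] at h7 ⊢
    have h10 : (g : G) * u * (g : G)⁻¹ = u := by
      rw [hc]
      have : u ^ c = u ^ 1 := pow_eq_pow_iff_modEq.2 (by rw [hord]; exact h6)
      rw [this, pow_one]
    exact hu1 (h.three g hg3 hg1 u (hU hu) h10)
  · intro h4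
    haveI : Fact (Nat.Prime 2) := ⟨Nat.prime_two⟩
    obtain ⟨H, hH⟩ := Sylow.exists_subgroup_card_pow_prime (G := L) 2 (n := 2)
      (by simpa using h4)
    -- push to G
    have hH' : Nat.card (H.map L.subtype) = 4 := by
      rw [Nat.card_congr (Subgroup.equivMapOfInjective H _ L.subtype_injective).toEquiv.symm, hH]
      norm_num
    have h24 : Nat.card (H.map L.subtype) ∣ 24 := by rw [hH']; norm_num
    have hHL : H.map L.subtype ≤ L := Subgroup.map_subtype_le _
    -- there is an element g with g ^ 2 ≠ 1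
    have hex : ∃ g ∈ H.map L.subtype, g ^ 2 ≠ 1 := by
      by_contra hcon
      push Not at hcon
      obtain ⟨z, hz, hz2, hz1⟩ := exists_inv (M := H.map L.subtype) (by rw [hH']; norm_num)
      have : H.map L.subtype ≤ Subgroup.zpowers z := by
        intro g hg
        by_cases hg1 : g = 1
        · rw [hg1]
          exact Subgroup.one_mem _
        · have := inv_unique h h24 hg hz (hcon g hg) hg1 hz2 hz1
          rw [this]
          exact Subgroup.mem_zpowers z
      have h5 := Subgroup.card_le_of_le this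
      rw [hH', Nat.card_zpowers, orderOf_eq_prime hz2 hz1] at h5
      omega
    obtain ⟨g, hg, hg2⟩ := hex
    have hg4 : g ^ 4 = 1 := by
      have : orderOf g ∣ 4 := hH' ▸ Subgroup.orderOf_dvd_natCard _ hg
      exact orderOf_dvd_iff_pow_eq_one.1 this
    obtain ⟨c, hc⟩ := hact g (hHL hg)
    have hk : ∀ k : ℕ, g * u ^ k * g⁻¹ = u ^ (c * k) := by
      intro k
      rw [← conj_pow, hc, pow_mul]
    have h5 : g ^ 2 * u * (g ^ 2)⁻¹ = u ^ (c * c) := by
      have : g ^ 2 * u * (g ^ 2)⁻¹ = g * (g * u * g⁻¹) * g⁻¹ := by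
        simp only [pow_succ, pow_zero, one_mul, mul_inv_rev, mul_assoc]
      rw [this, hc, hk]
    rw [h.two (g ^ 2) (by rw [← pow_mul]; exact hg4) hg2 u (hU hu)] at h5
    have h6 : u ^ (c * c + 1) = 1 := by
      rw [pow_succ, ← h5, inv_mul_cancel]
    have h7 : 11 ∣ c * c + 1 := hord ▸ orderOf_dvd_of_pow_eq_one h6
    have h8 : (c * c + 1) % 11 = 0 := Nat.mod_eq_zero_of_dvd h7
    have h9 : c % 11 < 11 := Nat.mod_lt _ (by norm_num)
    rw [Nat.add_mod, Nat.mul_mod] at h8
    generalize c % 11 = d at h8 h9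
    have h10 : ∀ d < 11, (d * d % 11 + 1 % 11) % 11 ≠ 0 := by decide
    exact h10 d h9 h8

end Pool.Agent.R722.FG
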