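import Pool.Agent.R722.FGExt

/-!
Modules over the incidence algebra of a finite poset: for a convex subset `X` the module `k_X` of
functions on `X`, short exact sequences between them, and vanishing of `Ext` into a simple module.
-/

set_option autoImplicit false
set_option linter.unusedSectionVars false

open CategoryTheory CategoryTheory.Abelian

namespace Pool.Agent.R722.FG

variable {P : Type} [PartialOrder P] [Fintype P] [DecidableEq P] [LocallyFiniteOrder P]

/-- The product in the incidence algebra as a sum over the whole poset. -/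
theorem mul_univ (f g : IncidenceAlgebra ℚ P) (x y : P) :
    (f * g) x y = ∑ z : P, f x z * g z y := by
  rw [IncidenceAlgebra.mul_apply]
  refine Finset.sum_subset (Finset.subset_univ _) fun z _ hz => ?_
  rw [Finset.mem_Icc, not_and_or] at hz
  rcases hz with h | h
  · rw [IncidenceAlgebra.apply_eq_zero_of_not_le h, zero_mul]
  · rw [IncidenceAlgebra.apply_eq_zero_of_not_le h, mul_zero]

/-- The functions supported on a subset `X`. -/
def KK (X : Set P) : AddSubgroup (P → ℚ) where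
  carrier := {φ | ∀ x, x ∉ X → φ x = 0}
  zero_mem' := fun _ _ => rfl
  add_mem' := fun {a b} ha hb x hx => by
    show a x + b x = 0
    rw [ha x hx, hb x hx, add_zero]
  neg_mem' := fun {a} ha x hx => by
    show - a x = 0
    rw [ha x hx, neg_zero]

/-- The functions supported on an order-convex set. -/
def K (X : Set P) (_ : X.OrdConnected) : Type := KK X

section
variable {X : Set P} {hX : X.OrdConnected}

instance : AddCommGroup (K X hX) := inferInstanceAs (AddCommGroup (KK X))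

/-- The value of an element of `K X` at a point. -/
def K.ev (φ : K X hX) (x : P) : ℚ := (show KK X from φ).1 x

theorem K.ev_add (φ ψ : K X hX) (x : P) : (φ + ψ).ev x = φ.ev x + ψ.ev x := rfl
theorem K.ev_zero (x : P) : (0 : K X hX).ev x = 0 := rfl
theorem K.ev_of_notMem (φ : K X hX) {x : P} (hx : x ∉ X) : φ.ev x = 0 :=
  (show KK X from φ).2 x hx
theorem K.ext {φ ψ : K X hX} (h : ∀ x ∈ X, φ.ev x = ψ.ev x) : φ = ψ := by
  apply Subtype.ext
  funext x
  by_cases hx : x ∈ X
  · exact h x hx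
  · exact (K.ev_of_notMem φ hx).trans (K.ev_of_notMem ψ hx).symm

open Classical in
/-- Construct an element of `K X` from a function (restricted to `X`). -/
noncomputable def K.mk (X : Set P) (hX : X.OrdConnected) (F : P → ℚ) : K X hX :=
  (⟨fun x => if x ∈ X then F x else 0, fun _ hx => if_neg hx⟩ : KK X)

theorem K.ev_mk (F : P → ℚ) {x : P} (hx : x ∈ X) : (K.mk X hX F).ev x = F x := if_pos hx

noncomputable instance : SMul (IncidenceAlgebra ℚ P) (K X hX) :=
  ⟨fun f φ => K.mk X hX fun x => ∑ y : P, f x y * φ.ev y⟩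

theorem K.ev_smul (f : IncidenceAlgebra ℚ P) (φ : K X hX) {x : P} (hx : x ∈ X) :
    (f • φ).ev x = ∑ y : P, f x y * φ.ev y := K.ev_mk _ hx

noncomputable instance : Module (IncidenceAlgebra ℚ P) (K X hX) where
  one_smul φ := K.ext fun x hx => by
    rw [K.ev_smul _ _ hx, Finset.sum_eq_single x]
    · simp
    · intro y _ hy
      rw [IncidenceAlgebra.one_apply, if_neg hy.symm, zero_mul]
    · intro h
      exact absurd (Finset.mem_univ x) h
  mul_smul f g φ := K.ext fun x hx => by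
    rw [K.ev_smul _ _ hx, K.ev_smul _ _ hx]
    simp_rw [mul_univ, Finset.sum_mul]
    rw [Finset.sum_comm]
    refine Finset.sum_congr rfl fun z _ => ?_
    by_cases hz : z ∈ X
    · rw [K.ev_smul _ _ hz, Finset.mul_sum]
      exact Finset.sum_congr rfl fun y _ => mul_assoc _ _ _
    · rw [K.ev_of_notMem _ hz, mul_zero]
      refine Finset.sum_eq_zero fun y _ => ?_
      by_cases hy : y ∈ X
      · by_cases h1 : x ≤ z
        · by_cases h2 : z ≤ y
          · exact absurd (hX.out hx hy ⟨h1, h2⟩) hz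
          · rw [IncidenceAlgebra.apply_eq_zero_of_not_le h2, mul_zero, zero_mul]
        · rw [IncidenceAlgebra.apply_eq_zero_of_not_le h1, zero_mul, zero_mul]
      · rw [K.ev_of_notMem _ hy, mul_zero]
  smul_zero f := K.ext fun x hx => by
    rw [K.ev_smul _ _ hx, K.ev_zero]
    exact Finset.sum_eq_zero fun y _ => by rw [K.ev_zero, mul_zero]
  smul_add f φ ψ := K.ext fun x hx => by
    rw [K.ev_smul _ _ hx, K.ev_add, K.ev_smul _ _ hx, K.ev_smul _ _ hx,
      ← Finset.sum_add_distrib]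
    exact Finset.sum_congr rfl fun y _ => by rw [K.ev_add, mul_add]
  add_smul f g φ := K.ext fun x hx => by
    rw [K.ev_smul _ _ hx, K.ev_add, K.ev_smul _ _ hx, K.ev_smul _ _ hx,
      ← Finset.sum_add_distrib]
    exact Finset.sum_congr rfl fun y _ => by rw [IncidenceAlgebra.add_apply, add_mul]
  zero_smul φ := K.ext fun x hx => by
    rw [K.ev_smul _ _ hx, K.ev_zero]
    exact Finset.sum_eq_zero fun y _ => by rw [IncidenceAlgebra.zero_apply, zero_mul]

end

/-- The module `k_X` as an object of the module category. -/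
noncomputable abbrev KM (X : Set P) (hX : X.OrdConnected) : ModuleCat.{0} (IncidenceAlgebra ℚ P) :=
  ModuleCat.of _ (K X hX)

/-- Inclusion `k_X → k_Y` for `X` a lower subset of `Y`. -/
noncomputable def incl {X Y : Set P} (hX : X.OrdConnected) (hY : Y.OrdConnected) (h : X ⊆ Y)
    (hl : ∀ y ∈ Y, ∀ x ∈ X, y ≤ x → y ∈ X) : K X hX →ₗ[IncidenceAlgebra ℚ P] K Y hY where
  toFun φ := K.mk Y hY φ.ev
  map_add' φ ψ := K.ext fun x hx => by
    rw [K.ev_add, K.ev_mk _ hx, K.ev_mk _ hx, K.ev_mk _ hx, K.ev_add]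
  map_smul' f φ := K.ext fun x hx => by
    rw [RingHom.id_apply, K.ev_smul _ _ hx, K.ev_mk _ hx]
    by_cases hx' : x ∈ X
    · rw [K.ev_smul _ _ hx']
      refine Finset.sum_congr rfl fun y _ => ?_
      by_cases hy : y ∈ Y
      · rw [K.ev_mk _ hy]
      · rw [K.ev_of_notMem _ hy, K.ev_of_notMem _ (fun h' => hy (h h'))]
    · rw [K.ev_of_notMem _ hx']
      refine (Finset.sum_eq_zero fun y _ => ?_).symm
      by_cases hy : y ∈ X
      · have hxy : ¬ x ≤ y := fun hxy => hx' (hl x hx y hy hxy)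
        rw [IncidenceAlgebra.apply_eq_zero_of_not_le hxy, zero_mul]
      · by_cases hy' : y ∈ Y
        · rw [K.ev_mk _ hy', K.ev_of_notMem _ hy, mul_zero]
        · rw [K.ev_of_notMem _ hy', mul_zero]

/-- Restriction `k_Y → k_Z` for `Z` an upper subset of `Y`. -/
noncomputable def restr {Y Z : Set P} (hY : Y.OrdConnected) (hZ : Z.OrdConnected) (h : Z ⊆ Y)
    (hl : ∀ z ∈ Z, ∀ y ∈ Y, z ≤ y → y ∈ Z) : K Y hY →ₗ[IncidenceAlgebra ℚ P] K Z hZ where
  toFun φ := K.mk Z hZ φ.ev
  map_add' φ ψ := K.ext fun x hx => by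
    rw [K.ev_add, K.ev_mk _ hx, K.ev_mk _ hx, K.ev_mk _ hx, K.ev_add]
  map_smul' f φ := K.ext fun x hx => by
    rw [RingHom.id_apply, K.ev_smul _ _ hx, K.ev_mk _ hx, K.ev_smul _ _ (h hx)]
    refine Finset.sum_congr rfl fun y _ => ?_
    by_cases hy : y ∈ Z
    · rw [K.ev_mk _ hy]
    · rw [K.ev_of_notMem (K.mk Z hZ φ.ev) hy, mul_zero]
      by_cases hy' : y ∈ Y
      · have hxy : ¬ x ≤ y := fun hxy => hy (hl x hx y hy' hxy)
        rw [IncidenceAlgebra.apply_eq_zero_of_not_le hxy, zero_mul]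
      · rw [K.ev_of_notMem _ hy', mul_zero]

/-- The short complex `k_X → k_Y → k_Z`. -/
noncomputable def SC {X Y Z : Set P} (hX : X.OrdConnected) (hY : Y.OrdConnected)
    (hZ : Z.OrdConnected) (h : ∀ x, x ∈ Z ↔ x ∈ Y ∧ x ∉ X) (hXY : X ⊆ Y)
    (hl : ∀ y ∈ Y, ∀ x ∈ X, y ≤ x → y ∈ X) :
    ShortComplex (ModuleCat.{0} (IncidenceAlgebra ℚ P)) :=
  ShortComplex.mk (X₁ := KM X hX) (X₂ := KM Y hY) (X₃ := KM Z hZ)
    (ModuleCat.ofHom (incl hX hY hXY hl))
    (ModuleCat.ofHom (restr hY hZ (fun x hx => ((h x).1 hx).1)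
      (fun z hz y hy hzy => (h y).2 ⟨hy, fun hyX =>
        ((h z).1 hz).2 (hl z ((h z).1 hz).1 y hyX hzy)⟩)))
    (by
      apply ModuleCat.hom_ext
      refine LinearMap.ext fun φ => K.ext (hX := hZ) fun x hx => ?_
      have h1 := (h x).1 hx
      exact (K.ev_mk _ hx).trans ((K.ev_mk _ h1.1).trans (K.ev_of_notMem φ h1.2)))

theorem SC_exact {X Y Z : Set P} (hX : X.OrdConnected) (hY : Y.OrdConnected)
    (hZ : Z.OrdConnected) (h : ∀ x, x ∈ Z ↔ x ∈ Y ∧ x ∉ X) (hXY : X ⊆ Y)
    (hl : ∀ y ∈ Y, ∀ x ∈ X, y ≤ x → y ∈ X) :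
    (SC hX hY hZ h hXY hl).ShortExact := by
  have hm : Mono (SC hX hY hZ h hXY hl).f := by
    rw [ModuleCat.mono_iff_injective]
    intro φ ψ hφ
    refine K.ext (hX := hX) fun x hx => ?_
    have := congrArg (fun t : K Y hY => t.ev x) hφ
    exact (K.ev_mk _ (hXY hx)).symm.trans (this.trans (K.ev_mk _ (hXY hx)))
  have he : Epi (SC hX hY hZ h hXY hl).g := by
    rw [ModuleCat.epi_iff_surjective]
    intro φ
    refine ⟨K.mk Y hY (K.ev (show K Z hZ from φ)), ?_⟩
    refine K.ext (hX := hZ) fun x hx => ?_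
    exact (K.ev_mk _ hx).trans (K.ev_mk _ ((h x).1 hx).1)
  refine @ShortComplex.ShortExact.mk _ _ _ _ ?_ hm he
  rw [ShortComplex.moduleCat_exact_iff]
  intro φ hφ
  refine ⟨K.mk X hX (K.ev (show K Y hY from φ)), ?_⟩
  refine K.ext (hX := hY) fun x hx => ?_
  refine (K.ev_mk _ hx).trans ?_
  by_cases hx' : x ∈ X
  · exact K.ev_mk _ hx'
  · rw [K.ev_of_notMem _ hx']
    have h1 := congrArg (fun t : K Z hZ => t.ev x) hφ
    have h2 : x ∈ Z := (h x).2 ⟨hx, hx'⟩
    exact (h1.symm.trans (K.ev_mk _ h2))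

end Pool.Agent.R722.FG
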