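import Pool.Agent.R722.FGLem

/-!
Joins with a fixed element: the homotopy complementation principle for `Ext`.
-/

set_option autoImplicit false
set_option linter.unusedSectionVars false

open CategoryTheory CategoryTheory.Abelian

namespace Pool.Agent.R722.FG

variable {P : Type} [Lattice P] [Fintype P] [DecidableEq P] [LocallyFiniteOrder P]

/-- The proper complements-from-below of `N` in `b`: elements `x < b` with `x ⊔ N = b`. -/
def Cmp (N b : P) : Set P := {x | x < b ∧ x ⊔ N = b}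

theorem Cmp_oc (N b : P) : (Cmp N b).OrdConnected := by
  refine ⟨fun u hu v hv z hz => ⟨lt_of_le_of_lt hz.2 hv.1, ?_⟩⟩
  refine le_antisymm ?_ ?_
  · rw [← hv.2]
    exact sup_le_sup_right hz.2 N
  · rw [← hu.2]
    exact sup_le_sup_right hz.1 N

theorem D1_lower (N b : P) : IsLowerSet {x : P | x < b ∧ x ⊔ N ≠ b ∧ N ≤ b} := by
  rintro x y hyx ⟨h1, h2, h3⟩
  refine ⟨lt_of_le_of_lt hyx h1, fun h => h2 ?_, h3⟩
  exact le_antisymm (sup_le h1.le h3) (h ▸ sup_le_sup_right hyx N)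

theorem acyc_D1 {a N b : P} (ha : ¬ N ≤ a) :
    Acyc (KM {x : P | x < b ∧ x ⊔ N ≠ b ∧ N ≤ b} (D1_lower N b).ordConnected) (Sm a) := by
  refine acyc_closure (fun x => x ⊔ N) (fun x => le_sup_left)
    (fun x y h => sup_le_sup_right h N) (fun x => by simp) (fun h => ha ?_) _ _ (D1_lower N b) rfl ?_
  · exact h ▸ le_sup_right
  · rintro x ⟨h1, h2, h3⟩
    refine ⟨lt_of_le_of_ne (sup_le h1.le h3) h2, ?_, h3⟩
    simpa using h2

theorem exact_Cmp {N b : P} (hN : N ≤ b) :
    (SC (Z := Cmp N b) (D1_lower N b).ordConnected (Set.ordConnected_Iio (a := b)) (Cmp_oc N b)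
      (fun x => by
        constructor
        · rintro ⟨h1, h2⟩
          exact ⟨h1, fun h => h.2.1 h2⟩
        · rintro ⟨h1, h2⟩
          refine ⟨h1, ?_⟩
          by_contra h3
          exact h2 ⟨h1, h3, hN⟩)
      (fun x hx => hx.1) (fun u _ x hx hux => D1_lower N b hux hx)).ShortExact :=
  SC_exact _ _ _ _ _ _

/-- Vanishing for all complements gives vanishing. -/
theorem v_of_Cmp {a N b : P} (hN : N ≤ b) (ha : ¬ N ≤ a) {n : ℕ}
    (h : ∀ x ∈ Cmp N b, V (Sm x) (Sm a) n) : V (Sm b) (Sm a) (n + 1) :=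
  v_step (v2 (exact_Cmp hN) (acyc_D1 ha n) (v_of_simples _ _ _ rfl h))

/-- Nonvanishing for one (minimal and maximal) complement gives nonvanishing. -/
theorem v_to_Cmp {a N b : P} (hb : b ≠ a) (hN : N ≤ b) (ha : ¬ N ≤ a) {n : ℕ} {x : P}
    (hx : x ∈ Cmp N b) (hmin : ∀ y ∈ Cmp N b, y ≤ x → y = x)
    (hmax : ∀ y ∈ Cmp N b, x ≤ y → y = x) (h : V (Sm b) (Sm a) (n + 1)) :
    V (Sm x) (Sm a) n :=
  v_point (Cmp_oc N b) hx hmin hmax
    (v3_of_acyc1 (exact_Cmp hN) (acyc_D1 ha) (v_step_rev hb h))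

/-- If `a` is the greatest element below `b` then `Ext^1(S_b, S_a) ≠ 0`. -/
theorem not_v_one {a b : P} (hab : a < b) (h : ∀ x, x < b → a ≤ x → x = a) :
    ¬ V (Sm b) (Sm a) 1 := by
  intro hV
  have h1 := v_step_rev hab.ne' hV
  have hl : IsLowerSet {x : P | x < b ∧ x ≠ a} := by
    rintro x y hyx ⟨h2, h3⟩
    refine ⟨lt_of_le_of_lt hyx h2, ?_⟩
    rintro rfl
    exact h3 (h x h2 hyx)
  have hS := SC_exact (Z := ({a} : Set P)) hl.ordConnected (Set.ordConnected_Iio (a := b))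
    Set.ordConnected_singleton
    (fun x => by
      rw [Set.mem_singleton_iff]
      constructor
      · rintro rfl
        exact ⟨hab, fun h' => h'.2 rfl⟩
      · rintro ⟨h2, h3⟩
        by_contra h4
        exact h3 ⟨h2, h4⟩)
    (fun x hx => hx.1) (fun u _ x hx hux => hl hux hx)
  have h5 := v30 hS h1
  rw [v_zero_iff] at h5
  have h6 : (𝟙 (Sm a)) = 0 := h5 (𝟙 (Sm a))
  have h7 := congrArg (fun t : K {a} Set.ordConnected_singleton →ₗ[IncidenceAlgebra ℚ P]
    K {a} Set.ordConnected_singleton => (t (K.mk _ _ fun _ => 1)).ev a)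
    (congrArg ModuleCat.Hom.hom h6)
  have h8 := (K.ev_mk (X := {a}) (hX := Set.ordConnected_singleton) (fun _ => (1 : ℚ))
    rfl).symm.trans h7
  exact one_ne_zero (h8.trans rfl)

end Pool.Agent.R722.FG
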