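import Pool.Agent.R722.FGInc

/-!
Vanishing lemmas for `Ext` over the incidence algebra of a finite poset.
-/

set_option autoImplicit false
set_option linter.unusedSectionVars false

open CategoryTheory CategoryTheory.Abelian

namespace Pool.Agent.R722.FG

variable {P : Type} [PartialOrder P] [Fintype P] [DecidableEq P] [LocallyFiniteOrder P]

/-- The simple module at `a` as a module of functions. -/
noncomputable abbrev Sm (a : P) : ModuleCat.{0} (IncidenceAlgebra ℚ P) :=
  KM {a} Set.ordConnected_singleton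

/-- An element of `k_{≤ y}` as an element of the incidence algebra. -/
def toInc (y : P) (φ : K (Set.Iic y) Set.ordConnected_Iic) : IncidenceAlgebra ℚ P where
  toFun x z := if z = y then φ.ev x else 0
  eq_zero_of_not_le' x z h := by
    by_cases hz : z = y
    · subst hz
      rw [if_pos rfl]
      exact K.ev_of_notMem φ h
    · exact if_neg hz

theorem toInc_apply (y : P) (φ : K (Set.Iic y) Set.ordConnected_Iic) (x z : P) :
    toInc y φ x z = if z = y then φ.ev x else 0 := rfl

/-- The embedding of `k_{≤ y}` into the incidence algebra. -/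
noncomputable def embP (y : P) :
    K (Set.Iic y) Set.ordConnected_Iic →ₗ[IncidenceAlgebra ℚ P] IncidenceAlgebra ℚ P where
  toFun := toInc y
  map_add' φ ψ := by
    refine IncidenceAlgebra.ext fun x z _ => ?_
    rw [IncidenceAlgebra.add_apply, toInc_apply, toInc_apply, toInc_apply]
    split_ifs
    · rfl
    · rw [add_zero]
  map_smul' f φ := by
    refine IncidenceAlgebra.ext fun x z hxz => ?_
    rw [RingHom.id_apply, smul_eq_mul, mul_univ, toInc_apply]
    simp_rw [toInc_apply]
    split_ifs with h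
    · subst h
      exact K.ev_smul f φ hxz
    · exact (Finset.sum_eq_zero fun w _ => mul_zero _).symm

/-- The projection of the incidence algebra onto `k_{≤ y}`. -/
noncomputable def prP (y : P) :
    IncidenceAlgebra ℚ P →ₗ[IncidenceAlgebra ℚ P] K (Set.Iic y) Set.ordConnected_Iic where
  toFun f := K.mk _ _ fun x => f x y
  map_add' f g := K.ext fun x hx => by
    rw [K.ev_add, K.ev_mk _ hx, K.ev_mk _ hx, K.ev_mk _ hx, IncidenceAlgebra.add_apply]
  map_smul' f g := K.ext fun x hx => by
    rw [RingHom.id_apply, K.ev_smul _ _ hx, K.ev_mk _ hx, smul_eq_mul, mul_univ]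
    refine Finset.sum_congr rfl fun z _ => ?_
    by_cases hz : z ∈ Set.Iic y
    · rw [K.ev_mk _ hz]
    · rw [K.ev_of_notMem _ hz, IncidenceAlgebra.apply_eq_zero_of_not_le hz g]

theorem prP_embP (y : P) (φ : K (Set.Iic y) Set.ordConnected_Iic) : prP y (embP y φ) = φ :=
  K.ext fun x hx => by
    refine (K.ev_mk _ hx).trans ?_
    exact (toInc_apply y φ x y).trans (if_pos rfl)

theorem proj_Iic (y : P) :
    Module.Projective (IncidenceAlgebra ℚ P) (K (Set.Iic y) Set.ordConnected_Iic) :=
  Module.Projective.of_split (embP y) (prP y) (LinearMap.ext fun φ => prP_embP y φ)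

instance (y : P) : Projective (KM (Set.Iic y) Set.ordConnected_Iic) := by
  have := proj_Iic y
  exact (IsProjective.iff_projective _).1 this

theorem acyc_Iic {y a : P} (h : y ≠ a) : Acyc (KM (Set.Iic y) Set.ordConnected_Iic) (Sm a)
  | 0 => by
    rw [v_zero_iff]
    intro f
    apply ModuleCat.hom_ext
    refine LinearMap.ext fun φ => ?_
    set F := f.hom with hF
    -- the generator
    let δ : K (Set.Iic y) Set.ordConnected_Iic := K.mk _ _ fun x => if x = y then 1 else 0
    have hδ : ∀ x, δ.ev x = if x = y then 1 else 0 := by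
      intro x
      by_cases hx : x ∈ Set.Iic y
      · exact K.ev_mk _ hx
      · rw [K.ev_of_notMem _ hx, if_neg]
        rintro rfl
        exact hx le_rfl
    have h1 : toInc y φ • δ = φ := by
      refine K.ext fun x hx => ?_
      rw [K.ev_smul _ _ hx]
      simp_rw [hδ, toInc_apply]
      simp
    have h2 : toInc y δ • δ = δ := by
      refine K.ext fun x hx => ?_
      rw [K.ev_smul _ _ hx]
      simp_rw [toInc_apply]
      simp [hδ]
    have h3 : F δ = 0 := by
      refine K.ext (hX := Set.ordConnected_singleton) fun x hx => ?_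
      rw [Set.mem_singleton_iff] at hx
      subst hx
      have : F δ = toInc y δ • F δ := by rw [← map_smul, h2]
      rw [this]
      refine (K.ev_smul (hX := Set.ordConnected_singleton) _ _ rfl).trans ?_
      refine (Finset.sum_eq_zero fun z _ => ?_).trans (K.ev_zero x).symm
      rw [toInc_apply, hδ, if_neg (c := x = y) (Ne.symm h)]
      simp
    rw [← h1, map_smul, h3, smul_zero]
    rfl
  | n + 1 => v_projective n

/-- Restriction from a convex set to a point which is maximal in it. -/
theorem not_v_Iic (a : P) : ¬ V (KM (Set.Iic a) Set.ordConnected_Iic) (Sm a) 0 := by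
  rw [v_zero_iff]
  intro h
  have h1 := h (ModuleCat.ofHom (restr Set.ordConnected_Iic Set.ordConnected_singleton
    (fun x (hx : x = a) => le_of_eq hx)
    (fun z (hz : z = a) y (hy : y ≤ a) hzy => le_antisymm hy (hz ▸ hzy))))
  have h2 := congrArg (fun t : K (Set.Iic a) Set.ordConnected_Iic →ₗ[IncidenceAlgebra ℚ P]
    K {a} Set.ordConnected_singleton => (t (K.mk _ _ fun _ => 1)).ev a)
    (congrArg ModuleCat.Hom.hom h1)
  have h3 := (K.ev_mk (X := {a}) (hX := Set.ordConnected_singleton)
    (K.mk (Set.Iic a) Set.ordConnected_Iic fun _ => 1).ev rfl).symm.trans h2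
  rw [K.ev_mk _ (Set.mem_Iic.2 le_rfl)] at h3
  exact one_ne_zero (h3.trans rfl)

theorem v_empty {Y : ModuleCat.{0} (IncidenceAlgebra ℚ P)} {X : Set P} (hX : X.OrdConnected)
    (h : X = ∅) (n : ℕ) : V (KM X hX) Y n := by
  have : Subsingleton (K X hX) := ⟨fun φ ψ => K.ext fun x hx => by simp [h] at hx⟩
  have h0 : Limits.IsZero (KM X hX) := ModuleCat.isZero_of_subsingleton _
  refine subsingleton_of_forall_eq 0 fun x => ?_
  have : (Ext.mk₀ (𝟙 (KM X hX))).comp x (zero_add n) = x := Ext.mk₀_id_comp x
  rw [← this, h0.eq_of_src (𝟙 _) 0, Ext.mk₀_zero, Ext.zero_comp]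

/-- Convexity of a difference. -/
theorem oc_diff_lower {X Y : Set P} (hY : Y.OrdConnected)
    (hl : ∀ y ∈ Y, ∀ x ∈ X, y ≤ x → y ∈ X) : (Y \ X).OrdConnected := by
  refine ⟨fun x hx y hy z hz => ⟨hY.out hx.1 hy.1 hz, fun hzX => ?_⟩⟩
  exact hx.2 (hl x hx.1 z hzX hz.1)

/-- Vanishing for all simple constituents implies vanishing. -/
theorem v_of_simples {T : ModuleCat.{0} (IncidenceAlgebra ℚ P)} {n : ℕ} :
    ∀ (k : ℕ) (X : Set P) (hX : X.OrdConnected), X.ncard = k →
      (∀ x ∈ X, V (Sm x) T n) → V (KM X hX) T n := by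
  intro k
  induction k with
  | zero =>
    intro X hX hk _
    exact v_empty hX ((Set.ncard_eq_zero (Set.toFinite X)).1 hk) n
  | succ k ih =>
    intro X hX hk hV
    have hne : X.Nonempty := by
      rw [Set.nonempty_iff_ne_empty]
      rintro rfl
      simp at hk
    obtain ⟨x, hx, hmin⟩ := (Set.toFinite X).exists_minimal hne
    have hl : ∀ y ∈ X, ∀ z ∈ ({x} : Set P), y ≤ z → y ∈ ({x} : Set P) := by
      intro y hy z hz hyz
      rw [Set.mem_singleton_iff] at hz
      subst hz
      exact le_antisymm hyz (hmin hy hyz)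
    have hZ := oc_diff_lower hX hl
    have hS := SC_exact (Z := X \ {x}) (Set.ordConnected_singleton (a := x)) hX hZ
      (fun z => Iff.rfl) (Set.singleton_subset_iff.2 hx) hl
    refine v2 hS (hV x hx) (ih _ hZ ?_ fun z hz => hV z hz.1)
    rw [Set.ncard_sdiff_singleton_of_mem hx, hk]
    rfl

/-- A simple constituent which is both minimal and maximal splits off. -/
theorem v_point {T : ModuleCat.{0} (IncidenceAlgebra ℚ P)} {n : ℕ} {X : Set P}
    (hX : X.OrdConnected) {x : P} (hx : x ∈ X) (hmin : ∀ y ∈ X, y ≤ x → y = x)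
    (hmax : ∀ y ∈ X, x ≤ y → y = x) (h : V (KM X hX) T n) : V (Sm x) T n := by
  refine v_retract (X' := KM X hX)
    (ModuleCat.ofHom (incl Set.ordConnected_singleton hX (Set.singleton_subset_iff.2 hx) ?_))
    (ModuleCat.ofHom (restr hX Set.ordConnected_singleton (Set.singleton_subset_iff.2 hx) ?_))
    ?_ h
  · intro y hy z hz hyz
    rw [Set.mem_singleton_iff] at hz
    subst hz
    exact hmin y hy hyz
  · intro z hz y hy hzy
    rw [Set.mem_singleton_iff] at hz
    subst hz
    exact hmax y hy hzy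
  · apply ModuleCat.hom_ext
    refine LinearMap.ext fun φ => K.ext (hX := Set.ordConnected_singleton) fun y hy => ?_
    have hy' : y ∈ X := by
      rw [Set.mem_singleton_iff] at hy
      exact hy ▸ hx
    exact (K.ev_mk _ hy).trans (K.ev_mk _ hy')

/-- The passage from the simple module at `b` to the functions on `{x < b}`. -/
theorem step_exact (b : P) : (SC (Z := {b}) (Set.ordConnected_Iio (a := b))
    (Set.ordConnected_Iic (a := b)) Set.ordConnected_singleton
    (fun x => by
      rw [Set.mem_singleton_iff, Set.mem_Iic, Set.mem_Iio, lt_iff_le_and_ne]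
      constructor
      · rintro rfl
        exact ⟨le_rfl, fun h => h.2 rfl⟩
      · rintro ⟨h1, h2⟩
        by_contra h3
        exact h2 ⟨h1, h3⟩)
    (fun x hx => le_of_lt hx) (fun y _ x hx hyx => lt_of_le_of_lt hyx hx)).ShortExact :=
  SC_exact _ _ _ _ _ _

theorem v_step {T : ModuleCat.{0} (IncidenceAlgebra ℚ P)} {b : P} {n : ℕ}
    (h : V (KM (Set.Iio b) Set.ordConnected_Iio) T n) : V (Sm b) T (n + 1) :=
  v3 (step_exact b) h (v_projective (X := KM (Set.Iic b) Set.ordConnected_Iic) n)

theorem v_step_rev {a b : P} (hab : b ≠ a) {n : ℕ} (h : V (Sm b) (Sm a) (n + 1)) :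
    V (KM (Set.Iio b) Set.ordConnected_Iio) (Sm a) n :=
  v1 (step_exact b) (acyc_Iic hab n) h

theorem v_simple_ne {a b : P} (hab : b ≠ a) : V (Sm b) (Sm a) 0 :=
  v30 (step_exact b) (acyc_Iic hab 0)

/-- No extensions if `a` is not below `b`. -/
theorem acyc_of_not_le {a : P} : ∀ (n : ℕ) (b : P), ¬ a ≤ b → V (Sm b) (Sm a) n
  | 0, _, h => v_simple_ne (fun hb => h (le_of_eq hb.symm))
  | n + 1, _, h => v_step (v_of_simples _ _ _ rfl fun x hx =>
      acyc_of_not_le n x (fun hax => h (hax.trans (le_of_lt hx))))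

/-- Vanishing above the length. -/
theorem v_of_rank {a : P} (ρ : P → ℕ) (hρ : StrictMono ρ) :
    ∀ (n : ℕ) (b : P), ρ b < ρ a + n → V (Sm b) (Sm a) n
  | 0, b, h => v_simple_ne (fun hb => by subst hb; exact lt_irrefl _ h)
  | n + 1, b, h => v_step (v_of_simples _ _ _ rfl fun x hx =>
      v_of_rank ρ hρ n x (by have := hρ (show x < b from hx); omega))

/-- A lower set closed under a closure operator which moves `a` is acyclic for `a`. -/
theorem acyc_closure {a : P} (c : P → P) (hc1 : ∀ x, x ≤ c x) (hc2 : Monotone c)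
    (hc3 : ∀ x, c (c x) = c x) (ha : c a ≠ a) :
    ∀ (k : ℕ) (D : Set P) (hD : IsLowerSet D), D.ncard = k → (∀ x ∈ D, c x ∈ D) →
      Acyc (KM D hD.ordConnected) (Sm a) := by
  intro k
  induction k using Nat.strong_induction_on with
  | _ k ih =>
    intro D hD hk hcD
    rcases Set.eq_empty_or_nonempty D with h0 | hne
    · exact fun n => v_empty _ h0 n
    obtain ⟨y, hy, hmax⟩ := (Set.toFinite D).exists_maximal hne
    have hcy : c y = y := le_antisymm (hmax (hcD y hy) (hc1 y)) (hc1 y)
    have hya : y ≠ a := fun h => ha (h ▸ hcy)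
    have hD1 : IsLowerSet {x | x ∈ D ∧ c x ≠ y} := by
      intro x u hux hx
      refine ⟨hD hux hx.1, fun hcu => hx.2 ?_⟩
      have h1 : y ≤ c x := hcu ▸ hc2 hux
      exact le_antisymm (hmax (hcD x hx.1) h1) h1
    have hE : IsLowerSet {x | x ≤ y ∧ c x ≠ y} := by
      intro x u hux hx
      refine ⟨hux.trans hx.1, fun hcu => hx.2 ?_⟩
      have h1 : y ≤ c x := hcu ▸ hc2 hux
      exact le_antisymm (hcy ▸ hc2 hx.1) h1
    have hX : Set.OrdConnected {x | c x = y} := by
      refine ⟨fun u hu v hv z hz => ?_⟩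
      have hu' : c u = y := hu
      have hv' : c v = y := hv
      exact le_antisymm (hv' ▸ hc2 hz.2) (hu' ▸ hc2 hz.1)
    have i1 := ih _ (by
      rw [← hk]
      refine Set.ncard_lt_ncard ⟨fun x hx => hx.1, fun h => (h hy).2 hcy⟩ (Set.toFinite D))
      {x | x ∈ D ∧ c x ≠ y} hD1 rfl (fun x hx => ⟨hcD x hx.1, by rw [hc3]; exact hx.2⟩)
    have i2 := ih _ (by
      rw [← hk]
      refine Set.ncard_lt_ncard ⟨fun x hx => hD hx.1 hy, fun h => (h hy).2 hcy⟩
        (Set.toFinite D))
      {x | x ≤ y ∧ c x ≠ y} hE rfl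
      (fun x hx => ⟨hcy ▸ hc2 hx.1, by rw [hc3]; exact hx.2⟩)
    have s1 := SC_exact (Z := {x | c x = y}) hE.ordConnected (Set.ordConnected_Iic (a := y)) hX
      (fun x => by
        constructor
        · intro (hx : c x = y)
          exact ⟨hx ▸ hc1 x, fun h => h.2 hx⟩
        · rintro ⟨h1, h2⟩
          by_contra h3
          exact h2 ⟨h1, h3⟩)
      (fun x hx => hx.1) (fun u _ x hx hux => hE hux hx)
    have s2 := SC_exact (Z := {x | c x = y}) hD1.ordConnected hD.ordConnected hX
      (fun x => by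
        constructor
        · intro (hx : c x = y)
          exact ⟨hD (hx ▸ hc1 x) hy, fun h => h.2 hx⟩
        · rintro ⟨h1, h2⟩
          by_contra h3
          exact h2 ⟨h1, h3⟩)
      (fun x hx => hx.1) (fun u _ x hx hux => hD1 hux hx)
    exact acyc2 s2 i1 (acyc3 s1 i2 (acyc_Iic hya))

end Pool.Agent.R722.FG
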