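import Pool.Agent.R722.FGLem

/-!
The one-dimensional simple modules over the incidence algebra.
-/

set_option autoImplicit false
set_option linter.unusedSectionVars false

open CategoryTheory CategoryTheory.Abelian

namespace Pool.Agent.R722.FG

variable {P : Type} [PartialOrder P] [DecidableEq P] [LocallyFiniteOrder P]

/-- The one-dimensional module `S_a` over the incidence algebra of `P`, with `f • q = f a a * q`. -/
def Sim (_ : P) : Type := ℚ

instance (a : P) : AddCommGroup (Sim a) := inferInstanceAs (AddCommGroup ℚ)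

instance (a : P) : SMul (IncidenceAlgebra ℚ P) (Sim a) := ⟨fun f q => (f a a * (show ℚ from q) : ℚ)⟩

theorem Sim.smul_def {a : P} (f : IncidenceAlgebra ℚ P) (q : Sim a) :
    f • q = (f a a * (show ℚ from q) : ℚ) := rfl

instance (a : P) : Module (IncidenceAlgebra ℚ P) (Sim a) where
  one_smul q := by
    show ((1 : IncidenceAlgebra ℚ P) a a * (show ℚ from q) : ℚ) = q
    rw [IncidenceAlgebra.one_apply, if_pos rfl, one_mul]
  mul_smul f g q := by
    show ((f * g) a a * (show ℚ from q) : ℚ) = f a a * (g a a * (show ℚ from q))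
    rw [IncidenceAlgebra.mul_apply, Finset.Icc_self, Finset.sum_singleton, mul_assoc]
  smul_zero f := mul_zero (f a a)
  smul_add f q r := mul_add (f a a) (show ℚ from q) (show ℚ from r)
  add_smul f g q := by
    show ((f + g) a a * (show ℚ from q) : ℚ) = f a a * (show ℚ from q) + g a a * (show ℚ from q)
    rw [IncidenceAlgebra.add_apply, add_mul]
  zero_smul q := by
    show ((0 : IncidenceAlgebra ℚ P) a a * (show ℚ from q) : ℚ) = 0
    rw [IncidenceAlgebra.zero_apply, zero_mul]

/-- The comparison with the module of functions on a point. -/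
noncomputable def simEquiv [Fintype P] (a : P) :
    K ({a} : Set P) Set.ordConnected_singleton ≃ₗ[IncidenceAlgebra ℚ P] Sim a where
  toFun φ := φ.ev a
  invFun q := K.mk _ _ fun _ => q
  map_add' _ _ := rfl
  map_smul' f φ := by
    rw [K.ev_smul _ _ (Set.mem_singleton a), Finset.sum_eq_single a]
    · rfl
    · intro y _ hy
      rw [K.ev_of_notMem φ hy, mul_zero]
    · intro h
      exact absurd (Finset.mem_univ a) h
  left_inv φ := K.ext fun x hx => by
    rw [K.ev_mk _ hx]
    rw [Set.mem_singleton_iff] at hx
    rw [hx]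
  right_inv q := K.ev_mk _ (Set.mem_singleton a)

/-- The isomorphism of the two descriptions of the simple module. -/
noncomputable def simIso [Fintype P] (a : P) : Sm a ≅ ModuleCat.of (IncidenceAlgebra ℚ P) (Sim a) :=
  (simEquiv a).toModuleIso

theorem v_sim [Fintype P] (a b : P) (n : ℕ) :
    V (ModuleCat.of (IncidenceAlgebra ℚ P) (Sim a)) (ModuleCat.of (IncidenceAlgebra ℚ P) (Sim b)) n
      ↔ V (Sm a) (Sm b) n :=
  ⟨fun h => v_iso (simIso a) (v_iso_right (simIso b) h),
   fun h => v_iso (simIso a).symm (v_iso_right (simIso b).symm h)⟩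

end Pool.Agent.R722.FG
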