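import Pool.Agent.R722.FGGrp
import Pool.Agent.R722.FGLat

/-!
Vanishing of `Ext^n(S_L, S_{Phi L})` for `n ≥ 4`.
-/

set_option autoImplicit false
set_option linter.style.haveILetI false
set_option linter.unusedSectionVars false

open CategoryTheory CategoryTheory.Abelian

namespace Pool.Agent.R722.FG

variable {G : Type} [Group G] [Finite G]

omit [Finite G] in
theorem rmc (H K : Subgroup G) (h : H ≤ K) : H.relIndex K * Nat.card H = Nat.card K := by
  have h1 := Subgroup.relIndex_mul_relIndex (⊥ : Subgroup G) H K bot_le h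
  rw [Subgroup.relIndex_bot_left, Subgroup.relIndex_bot_left] at h1
  rw [← h1, mul_comm]

/-- The number of prime factors of the order. -/
noncomputable def rk (H : Subgroup G) : ℕ := ArithmeticFunction.cardFactors (Nat.card H)

theorem rk_mono : StrictMono (rk : Subgroup G → ℕ) := by
  intro H K hHK
  have h1 : H.relIndex K * Nat.card H = Nat.card K := rmc H K hHK.le
  have h2 : H.relIndex K ≠ 1 := by
    intro h
    rw [Subgroup.relIndex_eq_one] at h
    exact hHK.not_ge h
  have h3 : Nat.card K ≠ 0 := Nat.card_pos.ne'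
  have h4 : Nat.card H ≠ 0 := Nat.card_pos.ne'
  have h5 : H.relIndex K ≠ 0 := by
    intro h
    rw [h, zero_mul] at h1
    exact h3 h1.symm
  unfold rk
  rw [← h1, ArithmeticFunction.cardFactors_mul h5 h4]
  have h6 : ArithmeticFunction.cardFactors (H.relIndex K) ≠ 0 := by
    intro h
    rw [ArithmeticFunction.cardFactors_eq_zero_iff_eq_zero_or_one] at h
    omega
  omega

/-- Divisors of 24 with at least two prime factors. -/
theorem div24 : ∀ m ∈ Nat.divisors 24, 
    (2 ≤ ArithmeticFunction.cardFactors m → 3 ∣ m ∨ 4 ∣ m) ∧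
    (¬ 4 ∣ m → ArithmeticFunction.cardFactors m ≤ 2) ∧
    (4 ≤ ArithmeticFunction.cardFactors m → m = 24) := by
  have h : Nat.divisors 24 = {1, 2, 3, 4, 6, 8, 12, 24} := by decide
  have c1 : ArithmeticFunction.cardFactors 1 = 0 := by simp
  have c2 : ArithmeticFunction.cardFactors 2 = 1 :=
    ArithmeticFunction.cardFactors_apply_prime Nat.prime_two
  have c3 : ArithmeticFunction.cardFactors 3 = 1 :=
    ArithmeticFunction.cardFactors_apply_prime Nat.prime_three
  have c4 : ArithmeticFunction.cardFactors 4 = 2 := by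
    rw [show (4 : ℕ) = 2 * 2 by norm_num, ArithmeticFunction.cardFactors_mul (by norm_num)
      (by norm_num), c2]
  have c6 : ArithmeticFunction.cardFactors 6 = 2 := by
    rw [show (6 : ℕ) = 2 * 3 by norm_num, ArithmeticFunction.cardFactors_mul (by norm_num)
      (by norm_num), c2, c3]
  have c8 : ArithmeticFunction.cardFactors 8 = 3 := by
    rw [show (8 : ℕ) = 2 * 4 by norm_num, ArithmeticFunction.cardFactors_mul (by norm_num)
      (by norm_num), c2, c4]
  have c12 : ArithmeticFunction.cardFactors 12 = 3 := by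
    rw [show (12 : ℕ) = 3 * 4 by norm_num, ArithmeticFunction.cardFactors_mul (by norm_num)
      (by norm_num), c3, c4]
  have c24 : ArithmeticFunction.cardFactors 24 = 4 := by
    rw [show (24 : ℕ) = 3 * 8 by norm_num, ArithmeticFunction.cardFactors_mul (by norm_num)
      (by norm_num), c3, c8]
  rw [h]
  intro m hm
  simp only [Finset.mem_insert, Finset.mem_singleton] at hm
  rcases hm with rfl | rfl | rfl | rfl | rfl | rfl | rfl | rfl
  · rw [c1]; refine ⟨by omega, by omega, by omega⟩
  · rw [c2]; refine ⟨by omega, by omega, by omega⟩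
  · rw [c3]; refine ⟨by omega, by omega, by omega⟩
  · rw [c4]; refine ⟨by omega, by omega, by omega⟩
  · rw [c6]; refine ⟨by omega, by omega, by omega⟩
  · rw [c8]; refine ⟨by omega, by omega, by omega⟩
  · rw [c12]; refine ⟨by omega, by omega, by omega⟩
  · rw [c24]; refine ⟨by omega, by omega, by omega⟩

theorem cardFactors_121 : ArithmeticFunction.cardFactors 121 = 2 := by
  rw [show (121 : ℕ) = 11 * 11 by norm_num, ArithmeticFunction.cardFactors_mul (by norm_num)
    (by norm_num), ArithmeticFunction.cardFactors_apply_prime (by norm_num)]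

/-- The intersection with `W` is normalized. -/
theorem inf_normalized {W : Subgroup G} (h : Hyp W) {x L : Subgroup G} (hL : x ⊔ W = L) :
    ∀ g ∈ L, ∀ u ∈ x ⊓ W, g * u * g⁻¹ ∈ x ⊓ W := by
  have := h.normal
  have h1 : x ≤ Subgroup.normalizer ((x ⊓ W : Subgroup G) : Set G) := by
    intro g hg
    rw [Subgroup.mem_normalizer_iff]
    intro u
    rw [Subgroup.mem_inf, Subgroup.mem_inf]
    constructor
    · rintro ⟨h2, h3⟩
      exact ⟨x.mul_mem (x.mul_mem hg h2) (x.inv_mem hg), this.conj_mem u h3 g⟩
    · rintro ⟨h2, h3⟩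
      have e : u = g⁻¹ * (g * u * g⁻¹) * g⁻¹⁻¹ := by group
      constructor
      · rw [e]
        exact x.mul_mem (x.mul_mem (x.inv_mem hg) h2) (x.inv_mem (x.inv_mem hg))
      · rw [e]
        exact this.conj_mem _ h3 g⁻¹
  have h2 : W ≤ Subgroup.normalizer ((x ⊓ W : Subgroup G) : Set G) := by
    intro g hg
    rw [Subgroup.mem_normalizer_iff]
    intro u
    constructor
    · intro hu
      have : g * u * g⁻¹ = u := by
        rw [h.comm g hg u (Subgroup.mem_inf.1 hu).2, mul_inv_cancel_right]
      rwa [this]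
    · intro hu
      have h3 : g⁻¹ * (g * u * g⁻¹) * g⁻¹⁻¹ = g * u * g⁻¹ := by
        rw [h.comm g⁻¹ (W.inv_mem hg) _ (Subgroup.mem_inf.1 hu).2, mul_inv_cancel_right]
      have e : u = g⁻¹ * (g * u * g⁻¹) * g⁻¹⁻¹ := by group
      rw [e, h3]
      exact hu
  have h3 : L ≤ Subgroup.normalizer ((x ⊓ W : Subgroup G) : Set G) := by
    rw [← hL]
    exact sup_le h1 h2
  intro g hg u hu
  exact (Subgroup.mem_normalizer_iff.1 (h3 hg) u).1 hu

theorem card_inf {W : Subgroup G} (h : Hyp W) {x : Subgroup G} (hx : ¬ W ≤ x) :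
    Nat.card (x ⊓ W : Subgroup G) = 1 ∨ Nat.card (x ⊓ W : Subgroup G) = 11 := by
  have h1 : Nat.card (x ⊓ W : Subgroup G) ∣ 121 := by
    rw [← h.cardV]
    exact Subgroup.card_dvd_of_le inf_le_right
  have h2 : (121 : ℕ) = 11 ^ 2 := by norm_num
  rw [h2, Nat.dvd_prime_pow (by norm_num)] at h1
  obtain ⟨k, hk, hk'⟩ := h1
  interval_cases k
  · left; simpa using hk'
  · right; simpa using hk'
  · exfalso
    apply hx
    have : x ⊓ W = W := Subgroup.eq_of_le_of_card_ge inf_le_right (by rw [hk', h.cardV]; norm_num)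
    rw [← this]
    exact inf_le_left

/-- The order of a subgroup. -/
theorem card_eq_mul {W : Subgroup G} (h : Hyp W) (x : Subgroup G) :
    ∃ m, m ∣ 24 ∧ Nat.card x = Nat.card (x ⊓ W : Subgroup G) * m := by
  have := h.normal
  refine ⟨W.relIndex x, ?_, ?_⟩
  · have h1 : W.index = 24 := by
      have h2 := Subgroup.card_mul_index W
      rw [h.cardV, h.cardG] at h2
      omega
    rw [← h1]
    exact Subgroup.relIndex_dvd_index_of_normal W x
  · have h1 : (x ⊓ W).relIndex x = W.relIndex x := Subgroup.inf_relIndex_left x W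
    rw [← h1, mul_comm]
    exact (rmc _ _ inf_le_left).symm

theorem card_Cmp {W : Subgroup G} (h : Hyp W) {x L : Subgroup G} (hL : x ⊔ W = L)
    (hx : x ⊓ W = ⊥) : Nat.card L = Nat.card x * 121 := by
  have := h.normal
  have h1 := Subgroup.relIndex_sup_right x W
  rw [hL] at h1
  have h2 := rmc W L (hL ▸ le_sup_right)
  rw [h1, h.cardV] at h2
  rw [← h2]
  congr 1
  rw [← Subgroup.inf_relIndex_left x W, hx, Subgroup.relIndex_bot_left]

/-- A minimal condition on the complement: intersection trivial. -/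
theorem Cmp_inf {W : Subgroup G} (h : Hyp W) {x L : Subgroup G} (hL : x ⊔ W = L) (hx : x < L)
    (h34 : 3 ∣ Nat.card L ∨ 4 ∣ Nat.card L) : x ⊓ W = ⊥ := by
  have hW : ¬ W ≤ x := by
    intro hW
    rw [sup_eq_left.2 hW] at hL
    exact hx.ne hL
  rcases card_inf h hW with h1 | h1
  · exact Subgroup.card_eq_one.1 h1
  · exfalso
    have h2 := no_line h inf_le_right h1 (inf_normalized h hL)
    rcases h34 with h3 | h3
    · exact h2.1 h3
    · exact h2.2 h3

theorem exists_compl {W : Subgroup G} (h : Hyp W) {L : Subgroup G} (hL : W ≤ L) :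
    ∃ x, x < L ∧ x ⊔ W = L := by
  have := h.normal
  have h1 : Nat.card (W.subgroupOf L) = 121 := by
    rw [Nat.card_congr (Subgroup.subgroupOfEquivOfLe hL).toEquiv, h.cardV]
  have h2 : (W.subgroupOf L).index ∣ 24 := by
    have h3 : W.index = 24 := by
      have h2 := Subgroup.card_mul_index W
      rw [h.cardV, h.cardG] at h2
      omega
    rw [← h3]
    exact Subgroup.relIndex_dvd_index_of_normal W L
  have h4 : Nat.Coprime (Nat.card (W.subgroupOf L)) (W.subgroupOf L).index := by
    rw [h1]
    exact Nat.Coprime.coprime_dvd_right h2 (by norm_num)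
  obtain ⟨H, hH⟩ := Subgroup.exists_right_complement'_of_coprime h4
  refine ⟨H.map L.subtype, ?_, ?_⟩
  · refine lt_of_le_of_ne (Subgroup.map_subtype_le _) ?_
    intro h5
    have h6 : H = ⊤ := by
      rw [eq_top_iff]
      intro g _
      have : (g : G) ∈ H.map L.subtype := h5.symm ▸ g.2
      obtain ⟨g', hg', hgg'⟩ := this
      have : g' = g := L.subtype_injective hgg'
      exact this ▸ hg'
    rw [h6] at hH
    have h7 := Subgroup.isComplement'_top_right.1 hH
    rw [h7, Subgroup.card_bot] at h1
    omega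
  · have h5 := hH.sup_eq_top
    have h6 : ((W.subgroupOf L) ⊔ H).map L.subtype = L := by
      rw [h5, ← MonoidHom.range_eq_map, Subgroup.range_subtype]
    rw [Subgroup.map_sup, Subgroup.subgroupOf_map_subtype, inf_eq_left.2 hL, sup_comm] at h6
    exact h6

section
variable [Fintype (Subgroup G)] [DecidableEq (Subgroup G)] [LocallyFiniteOrder (Subgroup G)]

theorem vanish_of_inv {W : Subgroup G} (h : Hyp W) {M K : Subgroup G} (hM : Nat.card M ∣ 24)
    (h4 : 4 ∣ Nat.card M) {z : G} (hz : z ∈ M) (hz2 : z ^ 2 = 1) (hz1 : z ≠ 1)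
    (hzK : z ∉ K) (n : ℕ) : V (Sm M) (Sm K) (n + 1) := by
  refine v_of_Cmp (N := Subgroup.zpowers z) ?_ ?_ ?_
  · rw [Subgroup.zpowers_le]; exact hz
  · rw [Subgroup.zpowers_le]; exact hzK
  · rintro x ⟨h1, h2⟩
    exact absurd h2 (inv_nongen h hM h4 hz hz2 hz1 h1)

theorem vanishing {W : Subgroup G} (h : Hyp W) (L : Subgroup G) (n : ℕ) :
    V (Sm L) (Sm (Phi L)) (n + 4) := by
  have hnormal := h.normal
  set K := Phi L with hK
  by_cases hrk : rk L < rk K + (n + 4)
  · exact v_of_rank rk rk_mono _ _ hrk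
  have hrk4 : 4 ≤ rk L := by omega
  by_cases hWL : W ≤ L
  · obtain ⟨m, hm, hcard⟩ := card_eq_mul h L
    rw [inf_eq_right.2 hWL, h.cardV] at hcard
    have hm24 := div24 m (Nat.mem_divisors.2 ⟨hm, by norm_num⟩)
    have hm0 : m ≠ 0 := by
      rintro rfl
      simp at hm
    have hrkL : rk L = 2 + ArithmeticFunction.cardFactors m := by
      unfold rk
      rw [hcard, ArithmeticFunction.cardFactors_mul (by norm_num) hm0, cardFactors_121]
    have h34 : 3 ∣ Nat.card L ∨ 4 ∣ Nat.card L := by
      rw [hcard]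
      rcases hm24.1 (by omega) with h1 | h1
      · exact Or.inl (h1.mul_left _)
      · exact Or.inr (h1.mul_left _)
    have hWK : ¬ W ≤ K := by
      intro hWK
      obtain ⟨x, hx, hxW⟩ := exists_compl h hWL
      refine hx.ne (Phi_nongen hx.le (le_antisymm (sup_le hx.le (Phi_le L)) ?_))
      rw [← hxW]
      exact sup_le le_sup_left ((hWK.trans (le_of_eq (by rw [hK, hxW]))).trans le_sup_right)
    refine v_of_Cmp (N := W) (n := n + 3) hWL hWK ?_
    rintro x ⟨hx, hxW⟩
    have hinf := Cmp_inf h hxW hx h34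
    have hxc : Nat.card x = m := by
      have := card_Cmp h hxW hinf
      rw [hcard] at this
      omega
    by_cases h4m : 4 ∣ m
    · obtain ⟨z, hz, hz2, hz1⟩ := exists_inv (M := x)
        (by rw [hxc]; exact (show 2 ∣ 4 by norm_num).trans h4m)
      refine vanish_of_inv h (by rw [hxc]; exact hm) (by rw [hxc]; exact h4m) hz hz2 hz1 ?_ _
      intro hzK
      apply hWK
      intro v hv
      have h1 : z⁻¹ * (v * z * v⁻¹) ∈ K :=
        K.mul_mem (K.inv_mem hzK) (Phi_normal (hWL hv) hzK)
      have hzz : z⁻¹ = z := by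
        rw [inv_eq_iff_mul_eq_one, ← pow_two, hz2]
      have h2 : z⁻¹ * (v * z * v⁻¹) = v⁻¹ * v⁻¹ := by
        have h3 := h.two z hz2 hz1 v hv
        rw [← mul_assoc, ← mul_assoc]
        congr 1
        rw [← h3, hzz]
      rw [h2] at h1
      have h3 : v * v ∈ K := by
        have := K.inv_mem h1
        rwa [mul_inv_rev, inv_inv] at this
      have h4 : v ^ 121 = 1 := by
        have : orderOf v ∣ 121 := h.cardV ▸ Subgroup.orderOf_dvd_natCard W hv
        exact orderOf_dvd_iff_pow_eq_one.1 this
      have h5 : v = (v * v) ^ 61 := by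
        rw [← pow_two, ← pow_mul]
        calc v = v ^ 121 * v := by rw [h4, one_mul]
          _ = v ^ (2 * 61) := by rw [← pow_succ]
      rw [h5]
      exact K.pow_mem h3 61
    · refine v_of_rank rk rk_mono _ _ ?_
      have : rk x ≤ 2 := by
        unfold rk
        rw [hxc]
        exact hm24.2.1 h4m
      omega
  · rcases card_inf h hWL with h1 | h1
    · obtain ⟨m, hm, hcard⟩ := card_eq_mul h L
      rw [h1, one_mul] at hcard
      have hm24 := div24 m (Nat.mem_divisors.2 ⟨hm, by norm_num⟩)
      have hrkL : rk L = ArithmeticFunction.cardFactors m := by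
        unfold rk
        rw [hcard]
      have hm' : m = 24 := hm24.2.2 (by omega)
      have hrk' : rk L = 4 := by
        rw [hrkL, hm']
        rw [show (24 : ℕ) = 2 * (2 * (2 * 3)) by norm_num,
          ArithmeticFunction.cardFactors_mul (by norm_num) (by norm_num),
          ArithmeticFunction.cardFactors_mul (by norm_num) (by norm_num),
          ArithmeticFunction.cardFactors_mul (by norm_num) (by norm_num),
          ArithmeticFunction.cardFactors_apply_prime Nat.prime_two,
          ArithmeticFunction.cardFactors_apply_prime Nat.prime_three]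
      have hrkK : rk K = 0 := by omega
      obtain ⟨z, hz, hz2, hz1⟩ := exists_inv (M := L) (by rw [hcard, hm']; norm_num)
      refine vanish_of_inv h (by rw [hcard]; exact hm) (by rw [hcard, hm']; norm_num) hz hz2
        hz1 ?_ _
      intro hzK
      unfold rk at hrkK
      rw [ArithmeticFunction.cardFactors_eq_zero_iff_eq_zero_or_one] at hrkK
      rcases hrkK with h2 | h2
      · exact Nat.card_pos.ne' h2
      · rw [Subgroup.card_eq_one] at h2
        rw [h2] at hzK
        exact hz1 (Subgroup.mem_bot.1 hzK)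
    · exfalso
      obtain ⟨m, hm, hcard⟩ := card_eq_mul h L
      rw [h1] at hcard
      have hm24 := div24 m (Nat.mem_divisors.2 ⟨hm, by norm_num⟩)
      have hm0 : m ≠ 0 := by
        rintro rfl
        simp at hm
      have hrkL : rk L = 1 + ArithmeticFunction.cardFactors m := by
        unfold rk
        rw [hcard, ArithmeticFunction.cardFactors_mul (by norm_num) hm0,
          ArithmeticFunction.cardFactors_apply_prime (by norm_num)]
      have h2 := no_line h inf_le_right h1
        (fun g hg u hu => Subgroup.mem_inf.2 ⟨L.mul_mem (L.mul_mem hg (Subgroup.mem_inf.1 hu).1)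
          (L.inv_mem hg), hnormal.conj_mem u (Subgroup.mem_inf.1 hu).2 g⟩)
      rw [hcard] at h2
      rcases hm24.1 (by omega) with h3 | h3
      · exact h2.1 (h3.mul_left _)
      · exact h2.2 (h3.mul_left _)

end

end Pool.Agent.R722.FG
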