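import Pool.Agent.R722.QCBasic

/-!
Base change of rigidity, and descent of solutions.
-/

set_option autoImplicit false
set_option linter.style.haveILetI false
set_option linter.unusedSectionVars false

namespace Pool.Agent.R722.QC

variable {K : Type*} [Field K] {L : Type*} [Field L] [Algebra K L]
variable {ι : Type*} [Fintype ι] [DecidableEq ι] {n : ℕ}

/-- Extension of scalars of a matrix. -/
def up (L : Type*) [Field L] [Algebra K L] (X : Matrix ι ι K) : Matrix ι ι L :=
  X.map (algebraMap K L)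

theorem up_mul (X Y : Matrix ι ι K) : up L (X * Y) = up L X * up L Y :=
  Matrix.map_mul

theorem up_sub (X Y : Matrix ι ι K) : up L (X - Y) = up L X - up L Y :=
  Matrix.map_sub _ (fun a b => map_sub (algebraMap K L) a b) X Y

theorem up_smul (c : K) (X : Matrix ι ι K) : up L (c • X) = algebraMap K L c • up L X := by
  ext i j
  simp [up]

theorem up_pow (X : Matrix ι ι K) (a : ℕ) : up L (X ^ a) = up L X ^ a :=
  map_pow (algebraMap K L).mapMatrix X a

theorem up_zero : up L (0 : Matrix ι ι K) = 0 := by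
  ext i j
  simp [up]

theorem Rel_up {a : Fin n → ℕ} {r : Fin n → Fin n → K} {X : Fin n → Matrix ι ι K}
    (h : Rel a r X) : Rel a (fun i j => algebraMap K L (r i j)) (fun i => up L (X i)) := by
  refine ⟨fun i => ?_, fun i j hij => ?_⟩
  · rw [← up_pow, h.1, up_zero]
  · show up L (X i) * up L (X j) = algebraMap K L (r i j) • (up L (X j) * up L (X i))
    rw [← up_mul, h.2 i j hij, up_smul, up_mul]

/-- Application of a linear form to the entries. -/
def dn (φ : L →ₗ[K] K) : Matrix ι ι L →+ Matrix ι ι K := φ.toAddMonoidHom.mapMatrix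

theorem dn_apply (φ : L →ₗ[K] K) (D : Matrix ι ι L) (i j : ι) : dn φ D i j = φ (D i j) := rfl

theorem dn_mul_left (φ : L →ₗ[K] K) (X : Matrix ι ι K) (D : Matrix ι ι L) :
    dn φ (up L X * D) = X * dn φ D := by
  ext i j
  rw [dn_apply, Matrix.mul_apply, Matrix.mul_apply, map_sum]
  refine Finset.sum_congr rfl fun k _ => ?_
  rw [dn_apply, up, Matrix.map_apply, ← Algebra.smul_def, map_smul, smul_eq_mul]

theorem dn_mul_right (φ : L →ₗ[K] K) (X : Matrix ι ι K) (D : Matrix ι ι L) :
    dn φ (D * up L X) = dn φ D * X := by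
  ext i j
  rw [dn_apply, Matrix.mul_apply, Matrix.mul_apply, map_sum]
  refine Finset.sum_congr rfl fun k _ => ?_
  rw [dn_apply, up, Matrix.map_apply, mul_comm, ← Algebra.smul_def, map_smul, smul_eq_mul,
    mul_comm]

theorem dn_smul (φ : L →ₗ[K] K) (c : K) (D : Matrix ι ι L) :
    dn φ (algebraMap K L c • D) = c • dn φ D := by
  ext i j
  rw [dn_apply, Matrix.smul_apply, smul_eq_mul, ← Algebra.smul_def, map_smul]
  rfl

theorem Coc_dn {a : Fin n → ℕ} {r : Fin n → Fin n → K} {X : Fin n → Matrix ι ι K}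
    (φ : L →ₗ[K] K) {d : Fin n → Matrix ι ι L}
    (h : Coc a (fun i j => algebraMap K L (r i j)) (fun i => up L (X i)) (fun i => up L (X i)) d) :
    Coc a r X X (fun i => dn φ (d i)) := by
  refine ⟨fun i => ?_, fun i j hij => ?_⟩
  · rw [← T_addmap (dn φ) (up L (X i)) (up L (X i)) (X i) (X i) (dn_mul_left φ (X i))
      (dn_mul_right φ (X i)), h.1, map_zero]
  · have h1 := congrArg (dn φ) (h.2 i j hij)
    rw [dn_smul, map_add, map_add, dn_mul_left, dn_mul_right, dn_mul_left, dn_mul_right] at h1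
    exact h1

theorem Rigid_up {a : Fin n → ℕ} {r : Fin n → Fin n → K} {X : Fin n → Matrix ι ι K}
    (h : Rigid a r X) : Rigid a (fun i j => algebraMap K L (r i j)) (fun i => up L (X i)) := by
  classical
  intro d hd
  obtain ⟨β, ⟨B⟩⟩ : ∃ β : Type _, Nonempty (Module.Basis β K L) :=
    ⟨_, ⟨Module.Basis.ofVectorSpace K L⟩⟩
  have h1 : ∀ b : β, ∃ f, ∀ i, dn (B.coord b) (d i) = X i * f - f * X i :=
    fun b => h _ (Coc_dn (B.coord b) hd)
  choose f hf using h1
  let S : Finset β := Finset.univ.biUnion fun i : Fin n => Finset.univ.biUnion fun k : ι =>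
    Finset.univ.biUnion fun l : ι => (B.repr (d i k l)).support
  have hS : ∀ i k l, d i k l = ∑ b ∈ S, (B.coord b (d i k l)) • B b := by
    intro i k l
    have h2 := B.linearCombination_repr (d i k l)
    rw [Finsupp.linearCombination_apply, Finsupp.sum] at h2
    refine h2.symm.trans (Finset.sum_subset ?_ ?_)
    · intro b hb
      simp only [S, Finset.mem_biUnion, Finset.mem_univ, true_and]
      exact ⟨i, k, l, hb⟩
    · intro b _ hb
      rw [Finsupp.notMem_support_iff] at hb
      rw [hb, zero_smul]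
  refine ⟨∑ b ∈ S, B b • up L (f b), fun i => ?_⟩
  show d i = up L (X i) * _ - _ * up L (X i)
  rw [Finset.mul_sum, Finset.sum_mul, ← Finset.sum_sub_distrib]
  ext k l
  rw [hS i k l, Matrix.sum_apply]
  refine Finset.sum_congr rfl fun b _ => ?_
  rw [mul_smul_comm, smul_mul_assoc, ← smul_sub, ← up_mul, ← up_mul, ← up_sub, ← hf b i,
    Matrix.smul_apply, up, Matrix.map_apply, dn_apply, Algebra.smul_def, smul_eq_mul, mul_comm]

/-- Descent of solutions of linear systems. -/
theorem descend {X : Fin n → Matrix ι ι K} {φ : Fin n → ι → K}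
    (h : ∃ ψ : ι → L, ∀ i, Matrix.vecMul ψ (up L (X i)) = fun k => algebraMap K L (φ i k)) :
    ∃ ψ : ι → K, ∀ i, Matrix.vecMul ψ (X i) = φ i := by
  obtain ⟨ψ, hψ⟩ := h
  obtain ⟨π, hπ⟩ := LinearMap.exists_leftInverse_of_injective (Algebra.linearMap K L)
    (LinearMap.ker_eq_bot.2 (algebraMap K L).injective)
  have hπ' : ∀ c, π (algebraMap K L c) = c := fun c => LinearMap.congr_fun hπ c
  refine ⟨fun k => π (ψ k), fun i => ?_⟩
  funext k
  have h1 := congrArg π (congrFun (hψ i) k)
  rw [hπ'] at h1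
  rw [← h1]
  show ∑ j, π (ψ j) * X i j k = π (∑ j, ψ j * up L (X i) j k)
  rw [map_sum]
  refine Finset.sum_congr rfl fun j _ => ?_
  rw [up, Matrix.map_apply, mul_comm (ψ j), ← Algebra.smul_def, map_smul, smul_eq_mul, mul_comm]

end Pool.Agent.R722.QC
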