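import Mathlib

/-!
Cocycles for operators satisfying the relations of a quantum complete intersection.
-/

set_option autoImplicit false
set_option linter.style.haveILetI false

namespace Pool.Agent.R722.QC

section ring
variable {E : Type*} [Ring E]

/-- The sum of `P ^ k * d * Q ^ (a - 1 - k)` over `k < a`. -/
def T (P Q d : E) : ℕ → E
  | 0 => 0
  | a + 1 => P * T P Q d a + d * Q ^ a

theorem T_zero (P Q d : E) : T P Q d 0 = 0 := rfl
theorem T_succ (P Q d : E) (a : ℕ) : T P Q d (a + 1) = P * T P Q d a + d * Q ^ a := rfl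

theorem T_tele (P Q g : E) (a : ℕ) : T P Q (P * g - g * Q) a = P ^ a * g - g * Q ^ a := by
  induction a with
  | zero => simp [T_zero]
  | succ a ih =>
    rw [T_succ, ih, pow_succ' P, pow_succ' Q]
    noncomm_ring

theorem T_add (P Q d e : E) (a : ℕ) : T P Q (d + e) a = T P Q d a + T P Q e a := by
  induction a with
  | zero => simp [T_zero]
  | succ a ih =>
    rw [T_succ, ih, T_succ, T_succ]
    noncomm_ring

theorem T_smul {R : Type*} [CommRing R] [Algebra R E] (c : R) (P Q d : E) (a : ℕ) :
    T P Q (c • d) a = c • T P Q d a := by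
  induction a with
  | zero => simp [T_zero]
  | succ a ih =>
    rw [T_succ, ih, T_succ, smul_add, mul_smul_comm, smul_mul_assoc]

theorem T_dzero (P Q : E) (a : ℕ) : T P Q 0 a = 0 := by
  induction a with
  | zero => rfl
  | succ a ih => rw [T_succ, ih, mul_zero, zero_mul, add_zero]

theorem T_right (P Q Q' u g : E) (h : g * Q = Q' * g) (a : ℕ) :
    T P Q (u * g) a = T P Q' u a * g := by
  induction a with
  | zero => simp [T_zero]
  | succ a ih =>
    have h1 : ∀ a : ℕ, g * Q ^ a = Q' ^ a * g := by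
      intro a
      induction a with
      | zero => simp
      | succ a ih => rw [pow_succ, ← mul_assoc, ih, mul_assoc, h, pow_succ, mul_assoc]
    rw [T_succ, ih, T_succ, mul_assoc u, h1, add_mul, mul_assoc, mul_assoc]

theorem T_map {E' : Type*} [Ring E'] (f : E →+* E') (P Q d : E) (a : ℕ) :
    f (T P Q d a) = T (f P) (f Q) (f d) a := by
  induction a with
  | zero => simp [T_zero]
  | succ a ih => rw [T_succ, map_add, map_mul, map_mul, map_pow, ih, T_succ]

/-- An additive map which commutes with the multiplications commutes with `T`. -/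
theorem T_addmap {E' : Type*} [Ring E'] (f : E →+ E') (P Q : E) (P' Q' : E')
    (hP : ∀ x, f (P * x) = P' * f x) (hQ : ∀ x, f (x * Q) = f x * Q') (d : E) (a : ℕ) :
    f (T P Q d a) = T P' Q' (f d) a := by
  have h1 : ∀ (a : ℕ) (x : E), f (x * Q ^ a) = f x * Q' ^ a := by
    intro a
    induction a with
    | zero => simp
    | succ a ih =>
      intro x
      rw [pow_succ, ← mul_assoc, hQ, ih, mul_assoc, ← pow_succ]
  induction a with
  | zero => simp [T_zero]
  | succ a ih => rw [T_succ, map_add, hP, ih, h1, T_succ]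

end ring

section alg
variable {R : Type*} [CommRing R] {E : Type*} [Ring E] [Algebra R E] {n : ℕ}

/-- The relations. -/
def Rel (a : Fin n → ℕ) (r : Fin n → Fin n → R) (X : Fin n → E) : Prop :=
  (∀ i, X i ^ a i = 0) ∧ ∀ i j, i ≠ j → X i * X j = r i j • (X j * X i)

/-- The cocycle conditions. -/
def Coc (a : Fin n → ℕ) (r : Fin n → Fin n → R) (X' X d : Fin n → E) : Prop :=
  (∀ i, T (X' i) (X i) (d i) (a i) = 0) ∧
    ∀ i j, i ≠ j → X' i * d j + d i * X j = r i j • (X' j * d i + d j * X i)

/-- Every cocycle is a coboundary. -/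
def Rigid (a : Fin n → ℕ) (r : Fin n → Fin n → R) (X : Fin n → E) : Prop :=
  ∀ d, Coc a r X X d → ∃ f, ∀ i, d i = X i * f - f * X i

theorem Coc_cob {a : Fin n → ℕ} {r : Fin n → Fin n → R} {X' X : Fin n → E}
    (h' : Rel a r X') (h : Rel a r X) (g : E) :
    Coc a r X' X (fun i => X' i * g - g * X i) := by
  refine ⟨fun i => ?_, fun i j hij => ?_⟩
  · rw [T_tele, h'.1, h.1, zero_mul, mul_zero, sub_zero]
  · have e1 : X' i * (X' j * g - g * X j) + (X' i * g - g * X i) * X j
        = X' i * X' j * g - g * (X i * X j) := by noncomm_ring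
    have e2 : X' j * (X' i * g - g * X i) + (X' j * g - g * X j) * X i
        = X' j * X' i * g - g * (X j * X i) := by noncomm_ring
    rw [e1, e2, h'.2 i j hij, h.2 i j hij, smul_sub, smul_mul_assoc, mul_smul_comm]

theorem Coc_add {a : Fin n → ℕ} {r : Fin n → Fin n → R} {X' X d e : Fin n → E}
    (hd : Coc a r X' X d) (he : Coc a r X' X e) : Coc a r X' X (d + e) := by
  refine ⟨fun i => ?_, fun i j hij => ?_⟩
  · rw [Pi.add_apply, T_add, hd.1, he.1, add_zero]
  · have e1 : X' i * (d + e) j + (d + e) i * X j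
        = (X' i * d j + d i * X j) + (X' i * e j + e i * X j) := by
      rw [Pi.add_apply, Pi.add_apply]; noncomm_ring
    have e2 : X' j * (d + e) i + (d + e) j * X i
        = (X' j * d i + d j * X i) + (X' j * e i + e j * X i) := by
      rw [Pi.add_apply, Pi.add_apply]; noncomm_ring
    rw [e1, e2, hd.2 i j hij, he.2 i j hij, ← smul_add]

theorem Coc_smul {a : Fin n → ℕ} {r : Fin n → Fin n → R} {X' X d : Fin n → E}
    (c : R) (hd : Coc a r X' X d) : Coc a r X' X (c • d) := by
  refine ⟨fun i => ?_, fun i j hij => ?_⟩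
  · rw [Pi.smul_apply, T_smul, hd.1, smul_zero]
  · rw [Pi.smul_apply, Pi.smul_apply, mul_smul_comm, smul_mul_assoc, ← smul_add, hd.2 i j hij,
      mul_smul_comm, smul_mul_assoc, ← smul_add, smul_comm]

theorem Coc_zero {a : Fin n → ℕ} {r : Fin n → Fin n → R} {X' X : Fin n → E} :
    Coc a r X' X 0 := by
  refine ⟨fun i => ?_, fun i j hij => ?_⟩
  · rw [Pi.zero_apply, T_dzero]
  · simp

/-- Cancellation of a scalar in a cocycle. -/
theorem Coc_of_smul {a : Fin n → ℕ} {r : Fin n → Fin n → R} {X' X d : Fin n → E}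
    (c : R) (hc : ∀ x : E, c • x = 0 → x = 0) (hd : Coc a r X' X (c • d)) : Coc a r X' X d := by
  refine ⟨fun i => ?_, fun i j hij => ?_⟩
  · apply hc
    rw [← T_smul]
    exact hd.1 i
  · have h := hd.2 i j hij
    rw [Pi.smul_apply, Pi.smul_apply, mul_smul_comm, smul_mul_assoc, ← smul_add,
      mul_smul_comm, smul_mul_assoc, ← smul_add, smul_comm (r i j) c] at h
    rw [← sub_eq_zero] at h ⊢
    apply hc
    rw [smul_sub]
    exact h

end alg

end Pool.Agent.R722.QC
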