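import Pool.Agent.R722.QCPres

/-!
Vanishing of the first self-extension group gives rigidity of the tuple of operators.
-/

set_option autoImplicit false
set_option linter.style.haveILetI false
set_option linter.unusedSectionVars false

universe u

open CategoryTheory CategoryTheory.Abelian

namespace Pool.Agent.R722.QC

variable {K : Type u} [Field K] {B : Type u} [Ring B] [Algebra K B] {n : ℕ}

/-- The space `W` as a module through `ψ`. -/
def TM {W : Type u} [AddCommGroup W] [Module K W] (_ : B →ₐ[K] Module.End K W) : Type u := W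

section
variable {W : Type u} [AddCommGroup W] [Module K W] (ψ : B →ₐ[K] Module.End K W)

instance : AddCommGroup (TM ψ) := inferInstanceAs (AddCommGroup W)
instance : Module K (TM ψ) := inferInstanceAs (Module K W)
instance : Module B (TM ψ) := Module.compHom W ψ.toRingHom

theorem TM.smul_def (b : B) (w : TM ψ) : b • w = (ψ b (show W from w) : W) := rfl

instance : IsScalarTower K B (TM ψ) := ⟨fun c b w => by
  rw [TM.smul_def, TM.smul_def, map_smul]
  rfl⟩

end

/-- The operators on a module. -/
noncomputable def op (K : Type u) [Field K] {B : Type u} [Ring B] [Algebra K B] (M : Type u)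
    [AddCommGroup M] [Module K M] [Module B M]
    [IsScalarTower K B M] (b : B) : Module.End K M := Algebra.lsmul K K M b

section
variable {M : Type u} [AddCommGroup M] [Module K M] [Module B M] [IsScalarTower K B M]

theorem op_apply (b : B) (m : M) : op K M b m = b • m := rfl

theorem Rel_op {a : Fin n → ℕ} {r : Fin n → Fin n → K} {y : Fin n → B} (h : Rel a r y) :
    Rel a r (fun i => op K M (y i)) :=
  h.map (Algebra.lsmul K K M)

/-- The block operators. -/
noncomputable def blk (X d : Module.End K M) : Module.End K (M × M) :=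
  LinearMap.prod (X ∘ₗ LinearMap.fst K M M + d ∘ₗ LinearMap.snd K M M) (X ∘ₗ LinearMap.snd K M M)

theorem blk_apply (X d : Module.End K M) (p : M × M) : blk X d p = (X p.1 + d p.2, X p.2) := rfl

theorem blk_pow (X d : Module.End K M) (k : ℕ) (p : M × M) :
    (blk X d ^ k) p = ((X ^ k) p.1 + (T X X d k) p.2, (X ^ k) p.2) := by
  induction k with
  | zero => simp [T_zero]
  | succ k ih =>
    rw [pow_succ', Module.End.mul_apply, ih, blk_apply, T_succ, pow_succ']
    simp only [Module.End.mul_apply, LinearMap.add_apply, map_add, add_assoc]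

theorem Rel_blk {a : Fin n → ℕ} {r : Fin n → Fin n → K} {X d : Fin n → Module.End K M}
    (h : Rel a r X) (hd : Coc a r X X d) : Rel a r (fun i => blk (X i) (d i)) := by
  refine ⟨fun i => ?_, fun i j hij => ?_⟩
  · refine LinearMap.ext fun p => ?_
    rw [blk_pow, h.1, hd.1]
    simp
  · refine LinearMap.ext fun p => ?_
    have h1 := LinearMap.congr_fun (h.2 i j hij)
    have h2 := LinearMap.congr_fun (hd.2 i j hij) p.2
    simp only [Module.End.mul_apply, LinearMap.smul_apply, LinearMap.add_apply] at h1 h2
    show blk (X i) (d i) (blk (X j) (d j) p) = r i j • blk (X j) (d j) (blk (X i) (d i) p)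
    simp only [blk_apply, map_add, Prod.smul_mk, h1]
    refine Prod.ext ?_ rfl
    show r i j • X j (X i p.1) + X i (d j p.2) + d i (X j p.2)
      = r i j • (X j (X i p.1) + X j (d i p.2) + d j (X i p.2))
    rw [add_assoc, h2, smul_add, smul_add, smul_add]
    abel

end

section
variable (M : Type u) [AddCommGroup M] [Module K M] [Module B M] [IsScalarTower K B M]

theorem rigid_of_ext {a : Fin n → ℕ} {r : Fin n → Fin n → K} {y : Fin n → B} (h : Pres a r y)
    (hE : Subsingleton (Ext (ModuleCat.of B M) (ModuleCat.of B M) 1)) :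
    Rigid a r (fun i => op K M (y i)) := by
  intro d hd
  obtain ⟨ψ, hψ⟩ := h.lift (M × M) _ (Rel_blk (Rel_op h.rel) hd)
  -- the maps
  let iK : M →ₗ[K] TM ψ := LinearMap.inl K M M
  let pK : TM ψ →ₗ[K] M := LinearMap.snd K M M
  have hact : ∀ (i : Fin n) (p : M × M), (show M × M from (y i • (show TM ψ from p)))
      = (y i • p.1 + d i p.2, y i • p.2) := by
    intro i p
    have : (show M × M from (y i • (show TM ψ from p))) = ψ (y i) p := rfl
    rw [this, hψ i]
    rfl
  let iB : M →ₗ[B] TM ψ :=
    { toFun := iK
      map_add' := iK.map_add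
      map_smul' := lin_of_gen h iK (fun i m => by
        refine Eq.trans ?_ (hact i (m, 0)).symm
        refine Prod.ext ?_ ?_
        · show y i • m = y i • m + d i 0
          rw [map_zero, add_zero]
        · show (0 : M) = y i • 0
          rw [smul_zero]) }
  let pB : TM ψ →ₗ[B] M :=
    { toFun := pK
      map_add' := pK.map_add
      map_smul' := lin_of_gen h pK (fun i m => congrArg Prod.snd (hact i m)) }
  let S : ShortComplex (ModuleCat.{u} B) := ShortComplex.mk (X₁ := ModuleCat.of B M)
    (X₂ := ModuleCat.of B (TM ψ)) (X₃ := ModuleCat.of B M)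
    (ModuleCat.ofHom iB) (ModuleCat.ofHom pB) (by
      apply ModuleCat.hom_ext
      exact LinearMap.ext fun m => rfl)
  have hS : S.ShortExact := by
    have hm : Mono S.f := by
      rw [ModuleCat.mono_iff_injective]
      intro x z hxz
      exact congrArg Prod.fst hxz
    have he : Epi S.g := by
      rw [ModuleCat.epi_iff_surjective]
      intro x
      exact ⟨((0, x) : M × M), rfl⟩
    refine @ShortComplex.ShortExact.mk _ _ _ _ ?_ hm he
    rw [ShortComplex.moduleCat_exact_iff]
    intro x hx
    refine ⟨(show M × M from x).1, ?_⟩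
    have hx' : (show M × M from x).2 = 0 := hx
    exact Prod.ext rfl hx'.symm
  obtain ⟨x₂, hx₂⟩ := Ext.covariant_sequence_exact₃ (X := ModuleCat.of B M) hS
    (Ext.mk₀ (𝟙 (ModuleCat.of B M))) (zero_add 1) (Subsingleton.elim (α := Ext (ModuleCat.of B M) (ModuleCat.of B M) 1) _ _)
  obtain ⟨σ, rfl⟩ := (Ext.mk₀_bijective _ _).2 x₂
  rw [Ext.mk₀_comp_mk₀] at hx₂
  have hσ : σ ≫ S.g = 𝟙 _ := (Ext.mk₀_bijective _ _).1 hx₂
  have hσ' : ∀ m : M, (show M × M from σ.hom m).2 = m := fun m =>
    congrArg (fun t : ModuleCat.of B M ⟶ ModuleCat.of B M => t.hom m) hσ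
  -- the splitting function
  let s : M →ₗ[K] M :=
    { toFun := fun m => (show M × M from σ.hom m).1
      map_add' := fun m m' => by
        rw [map_add]
        rfl
      map_smul' := fun c m => by
        have h1 : c • m = (algebraMap K B c) • m := (algebraMap_smul B c m).symm
        rw [h1, map_smul, algebraMap_smul]
        rfl }
  refine ⟨-s, fun i => ?_⟩
  refine LinearMap.ext fun m => ?_
  have h1 : (show M × M from σ.hom (y i • m)) = (y i • s m + d i m, y i • m) := by
    have h2 : σ.hom (y i • m) = y i • σ.hom m := map_smul σ.hom (y i) m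
    have h3 := hact i (show M × M from σ.hom m)
    rw [hσ' m] at h3
    rw [h2]
    exact h3
  have h4 : s (y i • m) = y i • s m + d i m := congrArg Prod.fst h1
  show d i m = y i • ((-s) m) - (-s) (y i • m)
  rw [LinearMap.neg_apply, LinearMap.neg_apply, h4, smul_neg]
  abel

end

end Pool.Agent.R722.QC
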