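import Pool.Agent.R722.QCBasic

/-!
Algebras presented by the relations of a quantum complete intersection.
-/

set_option autoImplicit false
set_option linter.style.haveILetI false
set_option linter.unusedSectionVars false

universe u

namespace Pool.Agent.R722.QC

variable {K : Type u} [Field K] {B : Type u} [Ring B] [Algebra K B] {n : ℕ}

/-- `B` is the algebra presented by generators `y i` and the relations. -/
structure Pres (a : Fin n → ℕ) (r : Fin n → Fin n → K) (y : Fin n → B) : Prop where
  rel : Rel a r y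
  gen : Algebra.adjoin K (Set.range y) = ⊤
  lift : ∀ (W : Type u) [AddCommGroup W] [Module K W] (Tm : Fin n → Module.End K W),
    Rel a r Tm → ∃ ψ : B →ₐ[K] Module.End K W, ∀ i, ψ (y i) = Tm i

theorem Rel.map {E E' : Type*} [Ring E] [Algebra K E] [Ring E'] [Algebra K E']
    {a : Fin n → ℕ} {r : Fin n → Fin n → K} {X : Fin n → E} (h : Rel a r X) (f : E →ₐ[K] E') :
    Rel a r (fun i => f (X i)) := by
  refine ⟨fun i => ?_, fun i j hij => ?_⟩
  · show f (X i) ^ a i = 0
    rw [← map_pow, h.1, map_zero]
  · show f (X i) * f (X j) = r i j • (f (X j) * f (X i))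
    rw [← map_mul, h.2 i j hij, map_smul, map_mul]

/-- Linearity can be tested on generators. -/
theorem lin_of_gen {a : Fin n → ℕ} {r : Fin n → Fin n → K} {y : Fin n → B} (h : Pres a r y)
    {M₁ M₂ : Type*} [AddCommGroup M₁] [AddCommGroup M₂] [Module K M₁] [Module B M₁]
    [IsScalarTower K B M₁] [Module K M₂] [Module B M₂] [IsScalarTower K B M₂]
    (f : M₁ →ₗ[K] M₂) (hf : ∀ i m, f (y i • m) = y i • f m) (b : B) (m : M₁) :
    f (b • m) = b • f m := by
  have hb : b ∈ Algebra.adjoin K (Set.range y) := by rw [h.gen]; trivial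
  induction hb using Algebra.adjoin_induction generalizing m with
  | mem x hx =>
    obtain ⟨i, rfl⟩ := hx
    exact hf i m
  | algebraMap c => rw [algebraMap_smul, algebraMap_smul, map_smul]
  | add x z _ _ hx hz => rw [add_smul, map_add, hx, hz, add_smul]
  | mul x z _ _ hx hz => rw [mul_smul, hx, hz, mul_smul]

/-- A common kernel vector. -/
theorem exists_soc {a : Fin n → ℕ} {r : Fin n → Fin n → K} {y : Fin n → B} (h : Pres a r y)
    {N : Type*} [AddCommGroup N] [Module K N] [Module B N] [IsScalarTower K B N] [Nontrivial N] :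
    ∃ v : N, v ≠ 0 ∧ ∀ i, y i • v = 0 := by
  classical
  have key : ∀ S : Finset (Fin n), ∃ v : N, v ≠ 0 ∧ ∀ i ∈ S, y i • v = 0 := by
    intro S
    induction S using Finset.induction_on with
    | empty =>
      obtain ⟨v, hv⟩ := exists_ne (0 : N)
      exact ⟨v, hv, fun i hi => absurd hi (Finset.notMem_empty i)⟩
    | insert i S hi ih =>
      obtain ⟨v, hv, hvS⟩ := ih
      have hex : ∃ k, y i ^ k • v = 0 := ⟨a i, by rw [h.rel.1, zero_smul]⟩
      have hk0 : Nat.find hex ≠ 0 := by
        intro h0
        have := Nat.find_spec hex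
        rw [h0, pow_zero, one_smul] at this
        exact hv this
      obtain ⟨k, hk⟩ := Nat.exists_eq_succ_of_ne_zero hk0
      refine ⟨y i ^ k • v, Nat.find_min hex (by omega), fun j hj => ?_⟩
      rcases Finset.mem_insert.1 hj with rfl | hj'
      · have := Nat.find_spec hex
        rw [hk, Nat.succ_eq_add_one, pow_succ', mul_smul] at this
        exact this
      · have hji : j ≠ i := fun h' => hi (h' ▸ hj')
        have h5 : ∀ m : ℕ, y j * y i ^ m = (r j i) ^ m • (y i ^ m * y j) := by
          intro m
          induction m with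
          | zero => simp
          | succ m ih =>
            rw [pow_succ, ← mul_assoc, ih, smul_mul_assoc, mul_assoc, h.rel.2 j i hji,
              mul_smul_comm, smul_smul, ← pow_succ, mul_assoc]
        rw [← mul_smul, h5, smul_assoc, mul_smul, hvS j hj', smul_zero, smul_zero]
  obtain ⟨v, hv, hv'⟩ := key Finset.univ
  exact ⟨v, hv, fun i => hv' i (Finset.mem_univ i)⟩

/-- The value of a word. -/
def Wd (y : Fin n → B) (w : List (Fin n)) : B := (w.map y).prod

theorem Wd_cons (y : Fin n → B) (j : Fin n) (w : List (Fin n)) : Wd y (j :: w) = y j * Wd y w := by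
  simp [Wd]

theorem Wd_count {a : Fin n → ℕ} {r : Fin n → Fin n → K} {y : Fin n → B} (h : Pres a r y)
    (i : Fin n) (w : List (Fin n)) : ∃ (c : K) (z : B), Wd y w = c • (y i ^ (w.count i) * z) := by
  induction w with
  | nil => exact ⟨1, 1, by simp [Wd]⟩
  | cons j w ih =>
    obtain ⟨c, z, hz⟩ := ih
    rw [Wd_cons, hz]
    by_cases hj : j = i
    · subst hj
      refine ⟨c, z, ?_⟩
      rw [List.count_cons_self, mul_smul_comm, ← mul_assoc, ← pow_succ']
    · have h5 : ∀ m : ℕ, y j * y i ^ m = (r j i) ^ m • (y i ^ m * y j) := by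
        intro m
        induction m with
        | zero => simp
        | succ m ih =>
          rw [pow_succ, ← mul_assoc, ih, smul_mul_assoc, mul_assoc, h.rel.2 j i hj,
            mul_smul_comm, smul_smul, ← pow_succ, mul_assoc]
      refine ⟨c * (r j i) ^ (w.count i), y j * z, ?_⟩
      rw [List.count_cons_of_ne hj, mul_smul_comm, ← mul_assoc, h5, smul_mul_assoc,
        mul_assoc, smul_smul]

theorem Wd_long {a : Fin n → ℕ} {r : Fin n → Fin n → K} {y : Fin n → B} (h : Pres a r y)
    (w : List (Fin n)) (hw : ∑ i, a i < w.length) : Wd y w = 0 := by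
  by_contra hne
  have h1 : ∀ i, w.count i ≤ a i := by
    intro i
    by_contra hi
    rw [not_le] at hi
    obtain ⟨c, z, hz⟩ := Wd_count h i w
    apply hne
    have : y i ^ w.count i = 0 := pow_eq_zero_of_le hi.le (h.rel.1 i)
    rw [hz, this, zero_mul, smul_zero]
  have h2 : ∑ i, w.count i = w.length := by
    have := Multiset.sum_count_eq_card (s := Finset.univ) (m := (w : Multiset (Fin n)))
      (fun i _ => Finset.mem_univ i)
    simpa using this
  have h3 : ∑ i, w.count i ≤ ∑ i, a i := Finset.sum_le_sum fun i _ => h1 i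
  omega

theorem Pres.finite {a : Fin n → ℕ} {r : Fin n → Fin n → K} {y : Fin n → B} (h : Pres a r y) :
    Module.Finite K B := by
  have hfin : (Wd y '' {w : List (Fin n) | w.length ≤ ∑ i, a i}).Finite := by
    refine Set.Finite.image _ ?_
    exact List.finite_length_le (Fin n) _
  refine ⟨Submodule.fg_def.2 ⟨_, hfin, ?_⟩⟩
  rw [eq_top_iff]
  intro b _
  have hb : b ∈ Algebra.adjoin K (Set.range y) := by rw [h.gen]; trivial
  rw [← Subalgebra.mem_toSubmodule, Algebra.adjoin_eq_span] at hb
  refine (Submodule.span_le.2 ?_) hb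
  intro x hx
  obtain ⟨l, hl, rfl⟩ := Submonoid.exists_list_of_mem_closure hx
  obtain ⟨w, rfl⟩ : ∃ w : List (Fin n), w.map y = l := by
    have : l ∈ {l : List B | ∀ x ∈ l, x ∈ Set.range y} := hl
    rw [← Set.range_list_map] at this
    exact this
  by_cases hw : w.length ≤ ∑ i, a i
  · exact Submodule.subset_span ⟨w, hw, rfl⟩
  · have : (w.map y).prod = 0 := Wd_long h w (not_le.1 hw)
    rw [this]
    exact Submodule.zero_mem _

end Pool.Agent.R722.QC
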