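import Pool.Agent.R722.QCBasic

/-!
Roots of unity (possibly with repetitions) and the vanishing of a twisted sum.
-/

set_option autoImplicit false
set_option linter.style.haveILetI false
set_option linter.unusedSectionVars false

open Polynomial

namespace Pool.Agent.R722.QC

section root
variable {L : Type*} [Field L]

/-- The linear factors. -/
noncomputable def ff (t : L) : L[X][X] := X - C (C t * X)

/-- The condition on the root of unity. -/
def Good (ω : L) (a : ℕ) : Prop :=
  ω ≠ 0 ∧ ω ^ a = 1 ∧ ∏ l ∈ Finset.range a, ff (ω ^ l) = X ^ a - C (X ^ a)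

theorem prod_periodic {M : Type*} [CommMonoid M] (f : ℕ → M) (b : ℕ)
    (h : ∀ N x, f (N * b + x) = f x) (N : ℕ) :
    ∏ l ∈ Finset.range (N * b), f l = (∏ l ∈ Finset.range b, f l) ^ N := by
  induction N with
  | zero => simp
  | succ N ih =>
    rw [Nat.succ_mul, Finset.prod_range_add, ih, pow_succ]
    congr 1
    exact Finset.prod_congr rfl fun x _ => h N x

theorem exists_good [IsAlgClosed L] (a : ℕ) (ha : a ≠ 0) : ∃ ω : L, Good ω a := by
  obtain ⟨p, hp⟩ := ExpChar.exists L
  obtain ⟨e, b, hab, hbL⟩ : ∃ e b : ℕ, a = p ^ e * b ∧ (b : L) ≠ 0 := by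
    cases hp with
    | zero => exact ⟨0, a, by simp, by exact_mod_cast ha⟩
    | prime hq =>
      obtain ⟨e, b, hb, hab⟩ := Nat.exists_eq_pow_mul_and_not_dvd ha p hq.ne_one
      refine ⟨e, b, hab, ?_⟩
      rwa [Ne, CharP.cast_eq_zero_iff L p]
  have hb0 : 0 < b := Nat.pos_of_ne_zero (by rintro rfl; simp at hbL)
  haveI : NeZero (b : L) := ⟨hbL⟩
  haveI : NeZero b := ⟨hb0.ne'⟩
  obtain ⟨ζ, hζ⟩ := HasEnoughRootsOfUnity.exists_primitiveRoot L b
  have h1 : IsPrimitiveRoot (C ζ : L[X]) b := hζ.map_of_injective C_injective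
  have h2 := X_pow_sub_C_eq_prod h1 hb0 (α := (X : L[X])) rfl
  have h3 : ∏ l ∈ Finset.range b, ff (ζ ^ l) = X ^ b - C (X ^ b) := by
    rw [h2]
    refine Finset.prod_congr rfl fun l _ => ?_
    rw [ff, C_pow]
  refine ⟨ζ, hζ.ne_zero hb0.ne', ?_, ?_⟩
  · rw [hab, mul_comm, pow_mul, hζ.pow_eq_one, one_pow]
  · haveI : ExpChar L[X] p := inferInstance
    haveI : ExpChar L[X][X] p := inferInstance
    rw [hab, prod_periodic _ b ?_, h3, sub_pow_expChar_pow]
    · rw [← pow_mul, ← C_pow, ← pow_mul, mul_comm b]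
    · intro N x
      rw [pow_add, mul_comm N b, pow_mul ζ b N, hζ.pow_eq_one, one_pow, one_mul]

/-- The twisted geometric sum as a polynomial. -/
noncomputable def GG (t : L) : ℕ → L[X][X]
  | 0 => 0
  | a + 1 => X * GG t a + (C (C t * X)) ^ a

theorem ff_mul_GG (t : L) (a : ℕ) : ff t * GG t a = X ^ a - (C (C t * X)) ^ a := by
  induction a with
  | zero => simp [GG]
  | succ a ih =>
    rw [GG, mul_add, mul_left_comm, ih, ff]
    ring

theorem GG_dvd {ω : L} {a m : ℕ} (hω : Good ω a) (hm : m + 1 < a) :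
    ∃ Q, GG (ω ^ (m + 1)) a = Q * ∏ l ∈ Finset.range (m + 1), ff (ω ^ l) := by
  obtain ⟨k, rfl⟩ := Nat.exists_eq_add_of_lt hm
  have h1 := ff_mul_GG (ω ^ (m + 1)) (m + 1 + k + 1)
  have h2 : (C (C (ω ^ (m + 1)) * X)) ^ (m + 1 + k + 1) = (C (X ^ (m + 1 + k + 1)) : L[X][X]) := by
    rw [← C_pow, mul_pow, ← C_pow, ← pow_mul, mul_comm (m + 1), pow_mul, hω.2.1, one_pow, C_1,
      one_mul]
  rw [h2, ← hω.2.2, show m + 1 + k + 1 = (m + 1 + 1) + k by ring, Finset.prod_range_add,
    Finset.prod_range_succ] at h1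
  refine ⟨∏ x ∈ Finset.range k, ff (ω ^ (m + 1 + 1 + x)), ?_⟩
  have h3 : ff (ω ^ (m + 1)) ≠ 0 := X_sub_C_ne_zero _
  apply mul_left_cancel₀ h3
  rw [show m + 1 + k + 1 = (m + 1 + 1) + k by ring, h1]
  ring

end root

section act
variable {L : Type*} [Field L] {E : Type*} [Ring E] [Algebra L E]

/-- The action of polynomials in two variables by left and right multiplication. -/
noncomputable def Th (Y : E) : L[X][X] →+* Module.End L E :=
  eval₂RingHom' (aeval (R := L) (LinearMap.mulRight L Y) : L[X] →ₐ[L] Module.End L E).toRingHom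
    (LinearMap.mulLeft L Y) (fun p => by
      have h : Commute (LinearMap.mulLeft L Y) (LinearMap.mulRight L Y) := by
        refine LinearMap.ext fun x => ?_
        exact (mul_assoc Y x Y).symm
      induction p using Polynomial.induction_on' with
      | add p q hp hq => rw [map_add]; exact hp.add_left hq
      | monomial k c =>
        show Commute (aeval (R := L) (LinearMap.mulRight L Y) (monomial k c)) _
        rw [aeval_monomial]
        have h2 : Commute (algebraMap L (Module.End L E) c) (LinearMap.mulLeft L Y) :=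
          Algebra.commutes c (LinearMap.mulLeft L Y)
        exact h2.mul_left (h.symm.pow_left k))

theorem Th_X (Y : E) (d : E) : Th (L := L) Y X d = Y * d := by
  have : Th (L := L) Y X = LinearMap.mulLeft L Y := eval₂_X _ _
  rw [this, LinearMap.mulLeft_apply]

theorem Th_C (Y : E) (p : L[X]) : Th (L := L) Y (C p) = aeval (LinearMap.mulRight L Y) p :=
  eval₂_C _ _

theorem Th_CC (Y : E) (t : L) (a : ℕ) (d : E) :
    Th (L := L) Y ((C (C t * X)) ^ a) d = d * (t • Y) ^ a := by
  rw [map_pow, Th_C, map_mul, aeval_C, aeval_X]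
  have h : (algebraMap L (Module.End L E) t * LinearMap.mulRight L Y)
      = LinearMap.mulRight L (t • Y) := by
    ext x
    rw [Module.End.mul_apply, Module.algebraMap_end_apply, LinearMap.mulRight_apply,
      LinearMap.mulRight_apply, mul_smul_comm]
  rw [h, LinearMap.pow_mulRight, LinearMap.mulRight_apply]

theorem Th_ff (Y : E) (t : L) (d : E) : Th (L := L) Y (ff t) d = Y * d - t • (d * Y) := by
  have h := Th_CC Y t 1 d
  rw [pow_one, pow_one, mul_smul_comm] at h
  rw [ff, map_sub, LinearMap.sub_apply, Th_X, h]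

theorem Th_GG (Y : E) (t : L) (a : ℕ) (d : E) :
    Th (L := L) Y (GG t a) d = T Y (t • Y) d a := by
  induction a with
  | zero => simp [GG, T_zero]
  | succ a ih =>
    rw [GG, map_add, map_mul, LinearMap.add_apply, Module.End.mul_apply, Th_X, ih, Th_CC, T_succ]

theorem kill {ω : L} (Y : E) (F : ℕ → E) (h0 : F 0 = 1) (m : ℕ)
    (h : ∀ l < m, Y * F (l + 1) - ω ^ (l + 1) • (F (l + 1) * Y) = F l) :
    Th (L := L) Y (∏ l ∈ Finset.range (m + 1), ff (ω ^ l)) (F m) = 0 := by
  induction m with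
  | zero =>
    rw [Finset.prod_range_one, Th_ff, h0]
    simp
  | succ m ih =>
    rw [Finset.prod_range_succ, map_mul, Module.End.mul_apply, Th_ff, h m (Nat.lt_succ_self m)]
    exact ih fun l hl => h l (hl.trans (Nat.lt_succ_self m))

theorem T_chain {ω : L} {a m : ℕ} (hω : Good ω a) (hm : m + 1 < a) (Y : E) (F : ℕ → E)
    (h0 : F 0 = 1) (h : ∀ l < m, Y * F (l + 1) - ω ^ (l + 1) • (F (l + 1) * Y) = F l) :
    T Y (ω ^ (m + 1) • Y) (F m) a = 0 := by
  obtain ⟨Q, hQ⟩ := GG_dvd hω hm
  rw [← Th_GG, hQ, map_mul, Module.End.mul_apply, kill Y F h0 m h, map_zero]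

end act

end Pool.Agent.R722.QC
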