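import Pool.Agent.R722.QCBasic

/-!
Rigid tuples of matrices are conjugate to all their rescalings.
-/

set_option autoImplicit false
set_option linter.style.haveILetI false
set_option linter.unusedSectionVars false

open Polynomial

namespace Pool.Agent.R722.QC

variable {L : Type*} [Field L]
variable {ι : Type*} [Fintype ι] [DecidableEq ι] {n : ℕ}

/-- Constant matrices. -/
noncomputable def cm : Matrix ι ι L →+* Matrix ι ι L[X] := (Polynomial.C : L →+* L[X]).mapMatrix

/-- Evaluation of a polynomial matrix. -/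
noncomputable def evm (t : L) : Matrix ι ι L[X] →+* Matrix ι ι L := (Polynomial.evalRingHom t).mapMatrix

theorem evm_apply (t : L) (D : Matrix ι ι L[X]) (i j : ι) : evm t D i j = (D i j).eval t := rfl

theorem evm_cm (t : L) (D : Matrix ι ι L) : evm t (cm D) = D := by
  ext i j
  show ((Polynomial.C (D i j)).eval t) = D i j
  rw [eval_C]

theorem evm_smul (t : L) (c : L[X]) (D : Matrix ι ι L[X]) :
    evm t (c • D) = c.eval t • evm t D := by
  ext i j
  rw [evm_apply, Matrix.smul_apply, smul_eq_mul, eval_mul, Matrix.smul_apply, evm_apply,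
    smul_eq_mul]

theorem cm_smul (c : L) (D : Matrix ι ι L) : cm (c • D) = Polynomial.C c • cm D := by
  ext i j : 1
  show Polynomial.C ((c • D) i j) = Polynomial.C c * Polynomial.C (D i j)
  rw [Matrix.smul_apply, smul_eq_mul, C_mul]

/-- Scaling factors: the variable plus one at `j`, and one elsewhere. -/
noncomputable def cc (j : Fin n) (i : Fin n) : L[X] := if i = j then X + 1 else 1

theorem cc_eval (j i : Fin n) (t : L) : (cc j i : L[X]).eval t = if i = j then t + 1 else 1 := by
  unfold cc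
  split_ifs <;> simp

theorem Rel_cm {a : Fin n → ℕ} {r : Fin n → Fin n → L} {Y : Fin n → Matrix ι ι L}
    (h : Rel a r Y) : Rel a (fun i j => Polynomial.C (r i j)) (fun i => cm (Y i)) := by
  refine ⟨fun i => ?_, fun i j hij => ?_⟩
  · show cm (Y i) ^ a i = 0
    rw [← map_pow, h.1, map_zero]
  · show cm (Y i) * cm (Y j) = Polynomial.C (r i j) • (cm (Y j) * cm (Y i))
    rw [← map_mul, h.2 i j hij, cm_smul, map_mul]

theorem Rel_scale {R : Type*} [CommRing R] {E : Type*} [Ring E] [Algebra R E]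
    {a : Fin n → ℕ} {r : Fin n → Fin n → R} {Y : Fin n → E} (c : Fin n → R)
    (h : Rel a r Y) : Rel a r (fun i => c i • Y i) := by
  refine ⟨fun i => ?_, fun i j hij => ?_⟩
  · show (c i • Y i) ^ a i = 0
    rw [_root_.smul_pow, h.1, smul_zero]
  · show c i • Y i * c j • Y j = r i j • (c j • Y j * c i • Y i)
    simp only [smul_mul_assoc, mul_smul_comm, h.2 i j hij, smul_smul]
    congr 1
    ring

theorem Coc_evm {a : Fin n → ℕ} {r : Fin n → Fin n → L} {Y : Fin n → Matrix ι ι L}
    {c : Fin n → L[X]} (t : L) (hc : ∀ i, (c i).eval t = 1) {d : Fin n → Matrix ι ι L[X]}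
    (h : Coc a (fun i j => Polynomial.C (r i j)) (fun i => c i • cm (Y i)) (fun i => cm (Y i)) d) :
    Coc a r Y Y (fun i => evm t (d i)) := by
  have h0 : ∀ i, evm t (c i • cm (Y i)) = Y i := by
    intro i
    rw [evm_smul, hc, one_smul, evm_cm]
  refine ⟨fun i => ?_, fun i j hij => ?_⟩
  · have h1 := T_map (evm t) (c i • cm (Y i)) (cm (Y i)) (d i) (a i)
    rw [h0, evm_cm] at h1
    rw [← h1, h.1 i, map_zero]
  · have h1 := congrArg (evm t) (h.2 i j hij)
    rw [evm_smul, eval_C] at h1
    simp only [map_add, map_mul] at h1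
    rw [h0, h0, evm_cm, evm_cm] at h1
    exact h1

/-- The module of cocycles. -/
noncomputable def ZZ (a : Fin n → ℕ) (r : Fin n → Fin n → L) (Y : Fin n → Matrix ι ι L)
    (c : Fin n → L[X]) : Submodule L[X] (Fin n → Matrix ι ι L[X]) where
  carrier := {d | Coc a (fun i j => Polynomial.C (r i j)) (fun i => c i • cm (Y i))
    (fun i => cm (Y i)) d}
  zero_mem' := Coc_zero
  add_mem' h1 h2 := Coc_add h1 h2
  smul_mem' c' _ h := Coc_smul c' h

/-- The coboundary map. -/
noncomputable def DD (Y : Fin n → Matrix ι ι L) (c : Fin n → L[X]) :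
    Matrix ι ι L[X] →ₗ[L[X]] (Fin n → Matrix ι ι L[X]) where
  toFun g i := c i • cm (Y i) * g - g * cm (Y i)
  map_add' g h := by
    funext i
    rw [Pi.add_apply]
    noncomm_ring
  map_smul' e g := by
    funext i
    rw [RingHom.id_apply, Pi.smul_apply, smul_mul_assoc e, mul_smul_comm, smul_sub]

theorem DD_mem {a : Fin n → ℕ} {r : Fin n → Fin n → L} {Y : Fin n → Matrix ι ι L}
    (h : Rel a r Y) (c : Fin n → L[X]) (g : Matrix ι ι L[X]) : DD Y c g ∈ ZZ a r Y c :=
  Coc_cob (Rel_scale c (Rel_cm h)) (Rel_cm h) g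

/-- Division of a polynomial matrix by the variable. -/
theorem exists_div (d : Fin n → Matrix ι ι L[X]) (h : ∀ i, evm 0 (d i) = 0) :
    ∃ e : Fin n → Matrix ι ι L[X], (X : L[X]) • e = d := by
  refine ⟨fun i => (d i).map Polynomial.divX, ?_⟩
  funext i
  ext k l : 1
  rw [Pi.smul_apply, Matrix.smul_apply, Matrix.map_apply, smul_eq_mul]
  have h1 := Polynomial.divX_mul_X_add (d i k l)
  have h2 : (d i k l).coeff 0 = 0 := by
    rw [coeff_zero_eq_eval_zero]
    exact congrFun (congrFun (h i) k) l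
  rw [h2, C_0, add_zero, mul_comm] at h1
  exact h1

theorem X_cancel (x : Matrix ι ι L[X]) (h : (X : L[X]) • x = 0) : x = 0 := by
  ext k l : 1
  have h1 := congrFun (congrFun h k) l
  rw [Matrix.smul_apply, Matrix.zero_apply, smul_eq_mul, mul_eq_zero] at h1
  rcases h1 with h1 | h1
  · exact absurd h1 X_ne_zero
  · exact h1

theorem exists_poly {a : Fin n → ℕ} {r : Fin n → Fin n → L} {Y : Fin n → Matrix ι ι L}
    (h : Rel a r Y) (hr : Rigid a r Y) (j : Fin n) :
    ∃ g : Matrix ι ι L[X], evm 0 g = 1 ∧ ∀ i, g * cm (Y i) = (cc j i : L[X]) • (cm (Y i) * g) := by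
  set c : Fin n → L[X] := cc j with hc
  have hc0 : ∀ i, (c i).eval 0 = 1 := by
    intro i
    rw [hc, cc_eval]
    split_ifs <;> simp
  -- first decomposition
  have key : ∀ d ∈ ZZ a r Y c, ∃ g, ∃ e ∈ ZZ a r Y c, d = DD Y c g + (X : L[X]) • e := by
    intro d hd
    obtain ⟨f, hf⟩ := hr _ (Coc_evm 0 hc0 hd)
    have h1 : ∀ i, evm 0 ((d - DD Y c (cm f)) i) = 0 := by
      intro i
      rw [Pi.sub_apply, map_sub, hf i]
      show _ - evm 0 (c i • cm (Y i) * cm f - cm f * cm (Y i)) = 0
      rw [map_sub, map_mul, map_mul, evm_smul, hc0, one_smul, evm_cm, evm_cm, sub_self]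
    obtain ⟨e, he⟩ := exists_div _ h1
    refine ⟨cm f, e, ?_, ?_⟩
    · refine Coc_of_smul X X_cancel ?_
      rw [he]
      exact (ZZ a r Y c).sub_mem hd (DD_mem h c _)
    · rw [he, add_sub_cancel]
  -- Nakayama
  have hfg : ((ZZ a r Y c).map (LinearMap.range (DD Y c)).mkQ).FG :=
    Submodule.FG.map _ (IsNoetherian.noetherian _)
  obtain ⟨p, hp1, hp2⟩ := Submodule.exists_sub_one_mem_and_smul_eq_zero_of_fg_of_le_smul
    (Ideal.span {(X : L[X])}) _ hfg (by
      rintro _ ⟨d, hd, rfl⟩
      obtain ⟨g, e, he, hde⟩ := key d hd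
      have h1 : (LinearMap.range (DD Y c)).mkQ d
          = (X : L[X]) • (LinearMap.range (DD Y c)).mkQ e := by
        rw [hde, map_add, map_smul]
        have : (LinearMap.range (DD Y c)).mkQ (DD Y c g) = 0 := by
          rw [Submodule.mkQ_apply, Submodule.Quotient.mk_eq_zero]
          exact LinearMap.mem_range_self _ g
        rw [this, zero_add]
      rw [h1]
      exact Submodule.smul_mem_smul (Ideal.mem_span_singleton_self _)
        (Submodule.mem_map_of_mem he))
  -- the special cocycle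
  have h1 : ∀ i, evm 0 (DD Y c 1 i) = 0 := by
    intro i
    show evm 0 (c i • cm (Y i) * 1 - 1 * cm (Y i)) = 0
    rw [mul_one, one_mul, map_sub, evm_smul, hc0, one_smul, sub_self]
  obtain ⟨e, he⟩ := exists_div _ h1
  have he' : e ∈ ZZ a r Y c := by
    refine Coc_of_smul X X_cancel ?_
    rw [he]
    exact DD_mem h c _
  have h2 := hp2 _ (Submodule.mem_map_of_mem he')
  rw [← map_smul, Submodule.mkQ_apply, Submodule.Quotient.mk_eq_zero] at h2
  obtain ⟨g', hg'⟩ := h2
  have h3 : DD Y c (p • 1 - (X : L[X]) • g') = 0 := by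
    rw [map_sub, map_smul, map_smul, hg', ← he, smul_comm, sub_self]
  have hp0 : p.eval 0 = 1 := by
    rw [Ideal.mem_span_singleton] at hp1
    obtain ⟨s, hs⟩ := hp1
    have := congrArg (Polynomial.eval 0) hs
    rw [eval_sub, eval_one, eval_mul, eval_X, zero_mul, sub_eq_zero] at this
    exact this
  refine ⟨p • 1 - (X : L[X]) • g', ?_, fun i => ?_⟩
  · rw [map_sub, evm_smul, evm_smul, hp0, eval_X, zero_smul, sub_zero, one_smul, map_one]
  · have h4 : c i • cm (Y i) * (p • 1 - (X : L[X]) • g')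
        - (p • 1 - (X : L[X]) • g') * cm (Y i) = 0 := congrFun h3 i
    rw [sub_eq_zero, smul_mul_assoc] at h4
    exact h4.symm

/-- Rescaling one variable. -/
theorem exists_conj_one [Infinite L] {a : Fin n → ℕ} {r : Fin n → Fin n → L}
    {Y : Fin n → Matrix ι ι L} (h : Rel a r Y) (hr : Rigid a r Y) (j : Fin n) (t : L)
    (ht : t ≠ 0) :
    ∃ g : Matrix ι ι L, IsUnit g ∧ ∀ i, g * Y i = (if i = j then t else 1) • (Y i * g) := by
  obtain ⟨g, hg0, hg⟩ := exists_poly h hr j
  have hdet : g.det ≠ 0 := by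
    intro h0
    have h1 : (evm 0 g).det = (g.det).eval 0 := by
      rw [← Polynomial.coe_evalRingHom, RingHom.map_det]
      rfl
    rw [hg0, h0, Matrix.det_one, eval_zero] at h1
    exact one_ne_zero h1
  -- good values
  have good : ∀ u : L, (g.det).eval (u - 1) ≠ 0 → ∃ g' : Matrix ι ι L, IsUnit g' ∧
      ∀ i, g' * Y i = (if i = j then u else 1) • (Y i * g') := by
    intro u hu
    refine ⟨evm (u - 1) g, ?_, fun i => ?_⟩
    · rw [Matrix.isUnit_iff_isUnit_det]
      have h1 : (evm (u - 1) g).det = (g.det).eval (u - 1) := by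
        rw [← Polynomial.coe_evalRingHom, RingHom.map_det]
        rfl
      rw [h1]
      exact isUnit_iff_ne_zero.2 hu
    · have h1 := congrArg (evm (u - 1)) (hg i)
      rw [map_mul, evm_cm, evm_smul, map_mul, evm_cm, cc_eval, sub_add_cancel] at h1
      exact h1
  -- choose u
  obtain ⟨u, hu⟩ : ∃ u : L, u ∉ ({0} ∪ ((fun v => v + 1) '' {v | v ∈ g.det.roots}) ∪
      ((fun v => t / (v + 1)) '' {v | v ∈ g.det.roots}) : Set L) := by
    have hfin : ({0} ∪ ((fun v => v + 1) '' {v | v ∈ g.det.roots}) ∪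
      ((fun v => t / (v + 1)) '' {v | v ∈ g.det.roots}) : Set L).Finite := by
      refine ((Set.finite_singleton 0).union (Set.Finite.image _ ?_)).union
        (Set.Finite.image _ ?_)
      · exact Multiset.finite_toSet _
      · exact Multiset.finite_toSet _
    exact hfin.infinite_compl.nonempty
  simp only [Set.mem_union, Set.mem_singleton_iff, Set.mem_image, Set.mem_setOf_eq, not_or,
    not_exists, not_and] at hu
  obtain ⟨⟨hu0, hu1⟩, hu2⟩ := hu
  obtain ⟨g1, hg1, hg1'⟩ := good u (by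
    intro h0
    exact hu1 (u - 1) (by rw [mem_roots hdet]; exact h0) (sub_add_cancel u 1))
  obtain ⟨g2, hg2, hg2'⟩ := good (t / u) (by
    intro h0
    refine hu2 (t / u - 1) (by rw [mem_roots hdet]; exact h0) ?_
    rw [sub_add_cancel, div_div_cancel₀ ht])
  refine ⟨g1 * g2, hg1.mul hg2, fun i => ?_⟩
  rw [mul_assoc, hg2', mul_smul_comm, ← mul_assoc, hg1', smul_mul_assoc, smul_smul, mul_assoc]
  congr 1
  split_ifs
  · rw [div_mul_cancel₀ _ hu0]
  · rw [one_mul]

/-- Rescaling all variables. -/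
theorem exists_conj [Infinite L] {a : Fin n → ℕ} {r : Fin n → Fin n → L}
    {Y : Fin n → Matrix ι ι L} (h : Rel a r Y) (hr : Rigid a r Y) (t : Fin n → L)
    (ht : ∀ i, t i ≠ 0) :
    ∃ g : Matrix ι ι L, IsUnit g ∧ ∀ i, g * Y i = t i • (Y i * g) := by
  classical
  have key : ∀ S : Finset (Fin n), ∃ g : Matrix ι ι L, IsUnit g ∧
      ∀ i, g * Y i = (if i ∈ S then t i else 1) • (Y i * g) := by
    intro S
    induction S using Finset.induction_on with
    | empty => exact ⟨1, isUnit_one, fun i => by simp⟩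
    | insert j S hj ih =>
      obtain ⟨g, hg, hg'⟩ := ih
      obtain ⟨k, hk, hk'⟩ := exists_conj_one h hr j (t j) (ht j)
      refine ⟨g * k, hg.mul hk, fun i => ?_⟩
      rw [mul_assoc, hk', mul_smul_comm, ← mul_assoc, hg', smul_mul_assoc, smul_smul, mul_assoc]
      congr 1
      by_cases h1 : i = j
      · subst h1
        simp [hj]
      · simp [h1]
  obtain ⟨g, hg, hg'⟩ := key Finset.univ
  exact ⟨g, hg, fun i => by rw [hg', if_pos (Finset.mem_univ i)]⟩

end Pool.Agent.R722.QC
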