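import Pool.Agent.R722.QCRoot
import Pool.Agent.R722.QCTorus
import Pool.Agent.R722.QCBase

/-!
For a rigid tuple of matrices every row cocycle is a coboundary.
-/

set_option autoImplicit false
set_option linter.style.haveILetI false
set_option linter.unusedSectionVars false

open Matrix

namespace Pool.Agent.R722.QC

variable {L : Type*} [Field L]
variable {ι : Type*} [Fintype ι] [DecidableEq ι] {n : ℕ}

/-- The properties of the chain of matrices up to index `M`. -/
def Chain (_a : Fin n → ℕ) (r : Fin n → Fin n → L) (Y : Fin n → Matrix ι ι L) (i : Fin n) (ω : L)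
    (M : ℕ) (F : ℕ → Matrix ι ι L) : Prop :=
  F 0 = 1 ∧ (∀ l < M, Y i * F (l + 1) - ω ^ (l + 1) • (F (l + 1) * Y i) = F l) ∧
    ∀ l ≤ M, ∀ j, j ≠ i → Y j * F l = (r i j) ^ l • (F l * Y j)

theorem exists_step [Infinite L] {a : Fin n → ℕ} {r : Fin n → Fin n → L}
    {Y : Fin n → Matrix ι ι L} (h : Rel a r Y) (hr : Rigid a r Y)
    (hrr : ∀ i j, i ≠ j → r i j * r j i = 1) {i : Fin n} {ω : L} (hω : Good ω (a i))
    {M : ℕ} (hM : M + 1 < a i) {F : ℕ → Matrix ι ι L} (hF : Chain a r Y i ω M F) :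
    ∃ F' : Matrix ι ι L, Y i * F' - ω ^ (M + 1) • (F' * Y i) = F M ∧
      ∀ j, j ≠ i → Y j * F' = (r i j) ^ (M + 1) • (F' * Y j) := by
  obtain ⟨hF0, hF1, hF2⟩ := hF
  have hrne : ∀ j, j ≠ i → r i j ≠ 0 := fun j hj => left_ne_zero_of_mul_eq_one (hrr i j hj.symm)
  let t : Fin n → L := fun j => if j = i then ω ^ (M + 1) else (r i j) ^ (M + 1)
  have ht : ∀ j, t j ≠ 0 := by
    intro j
    by_cases hj : j = i
    · simp only [t, if_pos hj]
      exact pow_ne_zero _ hω.1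
    · simp only [t, if_neg hj]
      exact pow_ne_zero _ (hrne j hj)
  have hti : t i = ω ^ (M + 1) := if_pos rfl
  have htj : ∀ j, j ≠ i → t j = (r i j) ^ (M + 1) := fun j hj => if_neg hj
  obtain ⟨g, hgu, hg⟩ := exists_conj h hr t ht
  obtain ⟨gi, hgi1, hgi2⟩ : ∃ gi : Matrix ι ι L, g * gi = 1 ∧ gi * g = 1 :=
    ⟨_, hgu.mul_val_inv, hgu.val_inv_mul⟩
  have hginv : ∀ j, Y j * gi = t j • (gi * Y j) := by
    intro j
    have h1 := congrArg (fun z => gi * z * gi) (hg j)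
    simp only [mul_smul_comm, smul_mul_assoc] at h1
    rw [← mul_assoc, hgi2, one_mul, ← mul_assoc gi (Y j),
      mul_assoc, hgi1, mul_one] at h1
    exact h1
  let d : Fin n → Matrix ι ι L := fun j => if j = i then F M * g else 0
  have hdi : d i = F M * g := if_pos rfl
  have hdj : ∀ j, j ≠ i → d j = 0 := fun j hj => if_neg hj
  have hd : Coc a r Y Y d := by
    refine ⟨fun j => ?_, fun j k hjk => ?_⟩
    · by_cases hj : j = i
      · subst hj
        rw [hdi, T_right (Y j) (Y j) (t j • Y j) (F M) g (by rw [hg, smul_mul_assoc]), hti,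
          T_chain hω hM (Y j) F hF0 hF1, zero_mul]
      · rw [hdj j hj, T_dzero]
    · by_cases hj : j = i
      · subst hj
        have hk : k ≠ j := hjk.symm
        rw [hdj k hk, hdi, mul_zero, zero_add, zero_mul, add_zero, mul_assoc, hg, htj k hk,
          mul_smul_comm, ← mul_assoc, ← mul_assoc, hF2 M le_rfl k hk, smul_mul_assoc, smul_smul,
          pow_succ, mul_comm]
      · by_cases hk : k = i
        · subst hk
          rw [hdj j hj, hdi, mul_zero, zero_add, zero_mul, add_zero, mul_assoc, hg, htj j hj,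
            mul_smul_comm, ← mul_assoc, ← mul_assoc, hF2 M le_rfl j hj, smul_mul_assoc, smul_smul,
            pow_succ, mul_left_comm, hrr j k hj, mul_one]
        · rw [hdj j hj, hdj k hk]
          simp
  obtain ⟨f, hf⟩ := hr d hd
  refine ⟨f * gi, ?_, fun j hj => ?_⟩
  · have h1 : t i • (f * gi * Y i) = f * Y i * gi := by
      rw [mul_assoc, mul_assoc, hginv, mul_smul_comm]
    rw [← hti, h1, ← mul_assoc, ← sub_mul, ← hf i, hdi, mul_assoc, hgi1, mul_one]
  · have h1 : f * Y j = Y j * f := by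
      have := hf j
      rw [hdj j hj] at this
      exact (sub_eq_zero.1 this.symm).symm
    rw [← mul_assoc, ← h1, mul_assoc, hginv, htj j hj, mul_smul_comm, mul_assoc]

theorem exists_chain [Infinite L] {a : Fin n → ℕ} {r : Fin n → Fin n → L}
    {Y : Fin n → Matrix ι ι L} (h : Rel a r Y) (hr : Rigid a r Y)
    (hrr : ∀ i j, i ≠ j → r i j * r j i = 1) {i : Fin n} {ω : L} (hω : Good ω (a i))
    (M : ℕ) (hM : M < a i) : ∃ F, Chain a r Y i ω M F := by
  induction M with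
  | zero =>
    refine ⟨fun _ => 1, rfl, fun l hl => absurd hl (Nat.not_lt_zero l), fun l hl j _ => ?_⟩
    obtain rfl : l = 0 := Nat.le_zero.1 hl
    rw [pow_zero, one_smul, mul_one, one_mul]
  | succ M ih =>
    obtain ⟨F, hF⟩ := ih (by omega)
    obtain ⟨F', h1, h2⟩ := exists_step h hr hrr hω hM hF
    obtain ⟨hF0, hF1, hF2⟩ := hF
    have e1 : ∀ l, l ≤ M → Function.update F (M + 1) F' l = F l := by
      intro l hl
      exact Function.update_of_ne (by omega) _ _
    have e2 : Function.update F (M + 1) F' (M + 1) = F' := Function.update_self _ _ _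
    refine ⟨Function.update F (M + 1) F', ?_, fun l hl => ?_, fun l hl j hj => ?_⟩
    · rw [e1 0 (Nat.zero_le _), hF0]
    · rcases Nat.lt_succ_iff_lt_or_eq.1 hl with h3 | rfl
      · rw [e1 (l + 1) h3, e1 l h3.le]
        exact hF1 l h3
      · rw [e2, e1 l le_rfl]
        exact h1
    · rcases Nat.le_succ_iff.1 hl with h3 | rfl
      · rw [e1 l h3]
        exact hF2 l h3 j hj
      · rw [e2]
        exact h2 j hj

/-- The sum used for solving. -/
def UU (Y : Fin n → Matrix ι ι L) (i : Fin n) (ω : L) (F : ℕ → Matrix ι ι L) (k : ℕ) :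
    Matrix ι ι L :=
  ∑ m ∈ Finset.range k, ω ^ (m + 1) • (Y i ^ m * F (m + 1))

theorem UU_eq {a : Fin n → ℕ} {r : Fin n → Fin n → L} {Y : Fin n → Matrix ι ι L} {i : Fin n}
    {ω : L} {M : ℕ} {F : ℕ → Matrix ι ι L} (hF : Chain a r Y i ω M F) (k : ℕ) (hk : k ≤ M) :
    (1 : Matrix ι ι L) = Y i ^ k * F k - UU Y i ω F k * Y i := by
  induction k with
  | zero =>
    rw [UU, Finset.sum_range_zero, hF.1, pow_zero]
    simp
  | succ k ih =>
    have h1 := ih (by omega)
    have h2 := hF.2.1 k hk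
    have h3 : UU Y i ω F (k + 1) = UU Y i ω F k + ω ^ (k + 1) • (Y i ^ k * F (k + 1)) :=
      Finset.sum_range_succ _ _
    rw [h3, add_mul, smul_mul_assoc, pow_succ]
    have h4 : Y i ^ k * F k = Y i ^ k * Y i * F (k + 1)
        - ω ^ (k + 1) • (Y i ^ k * F (k + 1) * Y i) := by
      rw [← h2, mul_sub, mul_smul_comm]
      simp only [mul_assoc]
    rw [h4] at h1
    rw [h1]
    abel

theorem UU_comm {a : Fin n → ℕ} {r : Fin n → Fin n → L} {Y : Fin n → Matrix ι ι L}
    (h : Rel a r Y) (hrr : ∀ i j, i ≠ j → r i j * r j i = 1) {i : Fin n}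
    {ω : L} {M : ℕ} {F : ℕ → Matrix ι ι L} (hF : Chain a r Y i ω M F) (j : Fin n) (hj : j ≠ i)
    (k : ℕ) (hk : k ≤ M) :
    ∃ U', UU Y i ω F k * Y j = Y j * U' := by
  induction k with
  | zero => exact ⟨0, by rw [UU, Finset.sum_range_zero, zero_mul, mul_zero]⟩
  | succ k ih =>
    obtain ⟨U', hU'⟩ := ih (by omega)
    have h3 : UU Y i ω F (k + 1) = UU Y i ω F k + ω ^ (k + 1) • (Y i ^ k * F (k + 1)) :=
      Finset.sum_range_succ _ _
    have h4 : F (k + 1) * Y j = (r j i) ^ (k + 1) • (Y j * F (k + 1)) := by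
      rw [hF.2.2 (k + 1) hk j hj, smul_smul, ← mul_pow, hrr j i hj, one_pow, one_smul]
    have h5 : ∀ m : ℕ, Y i ^ m * Y j = (r i j) ^ m • (Y j * Y i ^ m) := by
      intro m
      induction m with
      | zero => simp
      | succ m ih =>
        rw [pow_succ, mul_assoc, h.2 i j hj.symm, mul_smul_comm, ← mul_assoc, ih, smul_mul_assoc,
          smul_smul, mul_assoc, ← pow_succ', ← pow_succ]
    refine ⟨U' + (ω ^ (k + 1) * (r j i) ^ (k + 1) * (r i j) ^ k) • (Y i ^ k * F (k + 1)), ?_⟩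
    rw [h3, add_mul, hU', mul_add, smul_mul_assoc, mul_assoc, h4, mul_smul_comm, ← mul_assoc,
      h5, smul_mul_assoc, mul_smul_comm, smul_smul, smul_smul, mul_assoc (Y j)]

/-- Row cocycles. -/
def RC (a : Fin n → ℕ) (r : Fin n → Fin n → L) (Y : Fin n → Matrix ι ι L) (φ : Fin n → ι → L) :
    Prop :=
  (∀ i, φ i ᵥ* (Y i ^ (a i - 1)) = 0) ∧ ∀ i j, i ≠ j → φ i ᵥ* Y j = r i j • (φ j ᵥ* Y i)

theorem RC_sub {a : Fin n → ℕ} {r : Fin n → Fin n → L} {Y : Fin n → Matrix ι ι L}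
    (h : Rel a r Y) (ha : ∀ i, 0 < a i) {φ : Fin n → ι → L} (hφ : RC a r Y φ) (ψ : ι → L) :
    RC a r Y (fun i => φ i - ψ ᵥ* Y i) := by
  refine ⟨fun i => ?_, fun i j hij => ?_⟩
  · rw [Matrix.sub_vecMul, hφ.1, Matrix.vecMul_vecMul, ← pow_succ', Nat.sub_add_cancel (ha i),
      h.1, Matrix.vecMul_zero, sub_zero]
  · rw [Matrix.sub_vecMul, Matrix.sub_vecMul, hφ.2 i j hij, Matrix.vecMul_vecMul,
      Matrix.vecMul_vecMul, h.2 i j hij, Matrix.vecMul_smul, smul_sub]

theorem solve_step [IsAlgClosed L] {a : Fin n → ℕ} {r : Fin n → Fin n → L}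
    {Y : Fin n → Matrix ι ι L} (h : Rel a r Y) (hr : Rigid a r Y)
    (hrr : ∀ i j, i ≠ j → r i j * r j i = 1) (ha : ∀ i, 0 < a i) {φ : Fin n → ι → L}
    (hφ : RC a r Y φ) {S : Finset (Fin n)} (hS : ∀ j ∈ S, φ j = 0) {i : Fin n} (hi : i ∉ S) :
    ∃ ψ : ι → L, ψ ᵥ* Y i = φ i ∧ ∀ j ∈ S, ψ ᵥ* Y j = 0 := by
  haveI : Infinite L := IsAlgClosed.instInfinite
  obtain ⟨ω, hω⟩ := exists_good (L := L) (a i) (ha i).ne'
  obtain ⟨F, hF⟩ := exists_chain h hr hrr hω (a i - 1) (by have := ha i; omega)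
  refine ⟨-(φ i ᵥ* UU Y i ω F (a i - 1)), ?_, fun j hj => ?_⟩
  · have h1 := UU_eq hF (a i - 1) le_rfl
    have h2 := congrArg (fun z => φ i ᵥ* z) h1
    simp only [Matrix.vecMul_one, Matrix.vecMul_sub] at h2
    rw [← Matrix.vecMul_vecMul, hφ.1, Matrix.zero_vecMul, zero_sub, ← Matrix.vecMul_vecMul] at h2
    rw [Matrix.neg_vecMul]
    exact h2.symm
  · have hji : j ≠ i := fun h' => hi (h' ▸ hj)
    obtain ⟨U', hU'⟩ := UU_comm h hrr hF j hji (a i - 1) le_rfl
    rw [Matrix.neg_vecMul, Matrix.vecMul_vecMul, hU', ← Matrix.vecMul_vecMul,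
      hφ.2 i j hji.symm, hS j hj, Matrix.zero_vecMul, smul_zero, Matrix.zero_vecMul, neg_zero]

theorem solve [IsAlgClosed L] {a : Fin n → ℕ} {r : Fin n → Fin n → L}
    {Y : Fin n → Matrix ι ι L} (h : Rel a r Y) (hr : Rigid a r Y)
    (hrr : ∀ i j, i ≠ j → r i j * r j i = 1) (ha : ∀ i, 0 < a i) {φ : Fin n → ι → L}
    (hφ : RC a r Y φ) : ∃ ψ : ι → L, ∀ i, ψ ᵥ* Y i = φ i := by
  classical
  have key : ∀ S : Finset (Fin n), ∃ ψ : ι → L, ∀ i ∈ S, ψ ᵥ* Y i = φ i := by
    intro S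
    induction S using Finset.induction_on with
    | empty => exact ⟨0, fun i hi => absurd hi (Finset.notMem_empty i)⟩
    | insert i S hi ih =>
      obtain ⟨ψ, hψ⟩ := ih
      obtain ⟨ψ', h1, h2⟩ := solve_step h hr hrr ha (RC_sub h ha hφ ψ) (S := S)
        (fun j hj => by rw [hψ j hj, sub_self]) hi
      refine ⟨ψ + ψ', fun j hj => ?_⟩
      rw [Matrix.add_vecMul]
      rcases Finset.mem_insert.1 hj with rfl | hj'
      · rw [h1, add_sub_cancel]
      · rw [h2 j hj', hψ j hj', add_zero]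
  obtain ⟨ψ, hψ⟩ := key Finset.univ
  exact ⟨ψ, fun i => hψ i (Finset.mem_univ i)⟩

/-- The main statement over an arbitrary field. -/
theorem solve_field {K : Type*} [Field K] {a : Fin n → ℕ} {r : Fin n → Fin n → K}
    {Y : Fin n → Matrix ι ι K} (h : Rel a r Y) (hr : Rigid a r Y)
    (hrr : ∀ i j, i ≠ j → r i j * r j i = 1) (ha : ∀ i, 0 < a i) {φ : Fin n → ι → K}
    (hφ : RC a r Y φ) : ∃ ψ : ι → K, ∀ i, ψ ᵥ* Y i = φ i := by
  have hup : ∀ (v : ι → K) (M : Matrix ι ι K), (fun k => algebraMap K (AlgebraicClosure K) (v k))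
      ᵥ* up (AlgebraicClosure K) M
      = fun k => algebraMap K (AlgebraicClosure K) ((v ᵥ* M) k) := by
    intro v M
    funext k
    exact (RingHom.map_vecMul (algebraMap K (AlgebraicClosure K)) M v k).symm
  refine descend (L := AlgebraicClosure K) ?_
  refine solve (Rel_up h) (Rigid_up hr) (fun i j hij => ?_) ha ⟨fun i => ?_, fun i j hij => ?_⟩
  · rw [← map_mul, hrr i j hij, map_one]
  · rw [← up_pow, hup, hφ.1]
    funext k
    exact map_zero _
  · show (fun k => algebraMap K (AlgebraicClosure K) (φ i k)) ᵥ* up (AlgebraicClosure K) (Y j)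
      = _ • ((fun k => algebraMap K (AlgebraicClosure K) (φ j k)) ᵥ*
        up (AlgebraicClosure K) (Y i))
    rw [hup, hup, hφ.2 i j hij]
    funext k
    exact map_mul _ _ _

end Pool.Agent.R722.QC
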