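import Pool.Agent.R722.QCPres
import Pool.Agent.R722.QCExt
import Pool.Agent.R722.QCSolve

/-!
Rigid modules over algebras presented by the relations are projective.
-/

set_option autoImplicit false
set_option linter.style.haveILetI false
set_option linter.unusedSectionVars false

universe u

open CategoryTheory CategoryTheory.Abelian

namespace Pool.Agent.R722.QC

theorem Rigid.map {K : Type*} [Field K] {n : ℕ} {E E' : Type*} [Ring E] [Algebra K E] [Ring E']
    [Algebra K E'] {a : Fin n → ℕ} {r : Fin n → Fin n → K} {X : Fin n → E} (h : Rigid a r X)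
    (e : E ≃ₐ[K] E') : Rigid a r (fun i => e (X i)) := by
  intro d hd
  have hc : Coc a r X X (fun i => e.symm (d i)) := by
    refine ⟨fun i => ?_, fun i j hij => ?_⟩
    · have h1 := T_map (e.symm : E' ≃ₐ[K] E).toRingEquiv.toRingHom (e (X i)) (e (X i)) (d i) (a i)
      have h2 : T (e (X i)) (e (X i)) (d i) (a i) = 0 := hd.1 i
      rw [h2, map_zero] at h1
      have h3 : ∀ x, (e.symm : E' ≃ₐ[K] E).toRingEquiv.toRingHom x = e.symm x := fun _ => rfl
      rw [h3, h3, AlgEquiv.symm_apply_apply] at h1
      exact h1.symm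
    · have h1 := congrArg e.symm (hd.2 i j hij)
      simpa only [map_add, map_mul, map_smul, AlgEquiv.symm_apply_apply] using h1
  obtain ⟨f, hf⟩ := h _ hc
  refine ⟨e f, fun i => ?_⟩
  have h1 := congrArg e (hf i)
  simpa only [map_sub, map_mul, AlgEquiv.apply_symm_apply] using h1

section
variable {K : Type u} [Field K] {B : Type u} [Ring B] [Algebra K B] {n : ℕ}
variable (M : Type u) [AddCommGroup M] [Module K M] [Module B M] [IsScalarTower K B M]

theorem solve_op [Module.Finite K M] {a : Fin n → ℕ} {r : Fin n → Fin n → K}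
    {X : Fin n → Module.End K M} (h : Rel a r X) (hr : Rigid a r X)
    (hrr : ∀ i j, i ≠ j → r i j * r j i = 1) (ha : ∀ i, 0 < a i) (φ : Fin n → M →ₗ[K] K)
    (h1 : ∀ i m, φ i ((X i ^ (a i - 1)) m) = 0)
    (h2 : ∀ i j, i ≠ j → ∀ m, φ i (X j m) = r i j * φ j (X i m)) :
    ∃ ψ : M →ₗ[K] K, ∀ i m, ψ (X i m) = φ i m := by
  classical
  let b := Module.finBasis K M
  let e := LinearMap.toMatrixAlgEquiv b
  have hv : ∀ (f : M →ₗ[K] K) (g : Module.End K M),
      Matrix.vecMul (fun k => f (b k)) (e g) = fun k => f (g (b k)) := by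
    intro f g
    funext k
    have h3 : g (b k) = ∑ j, (e g) j k • b j := by
      have := (b.sum_repr (g (b k))).symm
      rw [this]
      refine Finset.sum_congr rfl fun j _ => ?_
      congr 1
      rw [LinearMap.toMatrixAlgEquiv_apply]
    rw [h3, map_sum]
    show ∑ j, f (b j) * (e g) j k = _
    refine Finset.sum_congr rfl fun j _ => ?_
    rw [map_smul, smul_eq_mul, mul_comm]
  have hpow : ∀ (g : Module.End K M) (k : ℕ), e g ^ k = e (g ^ k) := fun g k => (map_pow e g k).symm
  have hrel : Rel a r (fun i => e (X i)) := h.map e.toAlgHom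
  obtain ⟨ψ, hψ⟩ := solve_field (Y := fun i => e (X i)) hrel
    (hr.map e) hrr ha (φ := fun i k => φ i (b k)) ⟨fun i => by
      show Matrix.vecMul (fun k => φ i (b k)) (e (X i) ^ (a i - 1)) = 0
      rw [hpow, hv]
      funext k
      exact h1 i (b k), fun i j hij => by
      show Matrix.vecMul (fun k => φ i (b k)) (e (X j))
        = r i j • Matrix.vecMul (fun k => φ j (b k)) (e (X i))
      rw [hv, hv]
      funext k
      exact h2 i j hij (b k)⟩
  refine ⟨b.constr K ψ, fun i m => ?_⟩
  have h4 : (b.constr K ψ) ∘ₗ (X i) = φ i := by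
    refine b.ext fun k => ?_
    have h5 := congrFun (hv (b.constr K ψ) (X i)) k
    have h6 : (fun k => (b.constr K ψ) (b k)) = ψ := by
      funext k
      exact b.constr_basis K ψ k
    rw [h6] at h5
    exact h5.symm.trans (congrFun (hψ i) k)
  exact LinearMap.congr_fun h4 m

end

section
variable {K : Type u} [Field K] {B : Type u} [Ring B] [Algebra K B] {n : ℕ}
variable {M : Type u} [AddCommGroup M] [Module K M] [Module B M] [IsScalarTower K B M]

/-- Splitting off a one-dimensional trivial kernel, up to a given linear lift. -/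
theorem split_one [Module.Finite K M] {a : Fin n → ℕ} {r : Fin n → Fin n → K} {y : Fin n → B}
    (h : Pres a r y) (hr : Rigid a r (fun i => op K M (y i)))
    (hrr : ∀ i j, i ≠ j → r i j * r j i = 1) (ha : ∀ i, 0 < a i)
    {E : Type u} [AddCommGroup E] [Module K E] [Module B E] [IsScalarTower K B E]
    (v : E) (hv0 : v ≠ 0) (hv : ∀ i, y i • v = 0) (s : M →ₗ[K] E)
    (hs : ∀ i m, ∃ c : K, y i • s m - s (y i • m) = c • v) :
    ∃ ψ : M →ₗ[K] K, ∀ i m, y i • (s m + ψ m • v) = s (y i • m) + ψ (y i • m) • v := by
  obtain ⟨ℓ, hℓ⟩ : ∃ ℓ : E →ₗ[K] K, ℓ v = 1 := by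
    obtain ⟨ℓ, hℓ⟩ : ∃ ℓ : E →ₗ[K] K, ℓ v ≠ 0 := by
      by_contra hcon
      push Not at hcon
      exact hv0 ((Module.forall_dual_apply_eq_zero_iff K v).1 hcon)
    refine ⟨(ℓ v)⁻¹ • ℓ, ?_⟩
    rw [LinearMap.smul_apply, smul_eq_mul, inv_mul_cancel₀ hℓ]
  let φ : Fin n → M →ₗ[K] K := fun i => ℓ ∘ₗ (op K E (y i) ∘ₗ s - s ∘ₗ op K M (y i))
  have hφ : ∀ i m, y i • s m - s (y i • m) = φ i m • v := by
    intro i m
    obtain ⟨c, hc⟩ := hs i m
    have : φ i m = ℓ (y i • s m - s (y i • m)) := rfl
    rw [this, hc, map_smul, hℓ, smul_eq_mul, mul_one]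
  have hφ' : ∀ i m, s (y i • m) = y i • s m - φ i m • v := by
    intro i m
    rw [← hφ i m]
    abel
  have hyv : ∀ i (c : K), y i • (c • v) = 0 := by
    intro i c
    rw [← algebraMap_smul B c v, ← mul_smul, ← Algebra.commutes, mul_smul, hv, smul_zero]
  have hinj : ∀ c c' : K, c • v = c' • v → c = c' := by
    intro c c' hcc
    have := congrArg ℓ hcc
    rwa [map_smul, map_smul, hℓ, smul_eq_mul, smul_eq_mul, mul_one, mul_one] at this
  obtain ⟨ψ, hψ⟩ := solve_op M (Rel_op h.rel) hr hrr ha φ
    (fun i m => by
      -- power relation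
      have h1 : ∀ (k : ℕ) (m : M), y i • s (y i ^ k • m) = y i ^ (k + 1) • s m := by
        intro k
        induction k with
        | zero => intro m; simp
        | succ k ih =>
          intro m
          have h9 : y i ^ (k + 1) • (φ i m • v) = 0 := by
            rw [pow_succ, mul_smul, hyv, smul_zero]
          rw [pow_succ (y i) k, mul_smul, ih, hφ', smul_sub, h9, sub_zero, ← mul_smul, ← pow_succ]
      apply hinj
      have h2 : (((op K M (y i)) ^ (a i - 1)) m) = y i ^ (a i - 1) • m := by
        show ((Algebra.lsmul K K M (y i)) ^ (a i - 1)) m = _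
        rw [← map_pow]
        rfl
      rw [zero_smul, h2, ← hφ, h1, ← mul_smul, ← pow_succ', Nat.sub_add_cancel (ha i), h.rel.1 i,
        zero_smul, zero_smul, map_zero, sub_zero])
    (fun i j hij m => by
      apply hinj
      show φ i (y j • m) • v = (r i j * φ j (y i • m)) • v
      have e1 : y i • s (y j • m) = (y i * y j) • s m := by
        rw [hφ' j m, smul_sub, hyv, sub_zero, mul_smul]
      have e2 : y j • s (y i • m) = (y j * y i) • s m := by
        rw [hφ' i m, smul_sub, hyv, sub_zero, mul_smul]
      rw [mul_smul, ← hφ, ← hφ, e1, e2, ← mul_smul, ← mul_smul, h.rel.2 i j hij, smul_assoc,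
        smul_assoc, map_smul, smul_sub])
  refine ⟨ψ, fun i m => ?_⟩
  rw [smul_add, hyv, add_zero, hφ' i m]
  have : ψ (y i • m) = φ i m := hψ i m
  rw [this]
  abel

theorem split_all [Module.Finite K M] {a : Fin n → ℕ} {r : Fin n → Fin n → K} {y : Fin n → B}
    (h : Pres a r y) (hr : Rigid a r (fun i => op K M (y i)))
    (hrr : ∀ i j, i ≠ j → r i j * r j i = 1) (ha : ∀ i, 0 < a i) (k : ℕ) :
    ∀ (E : Type u) [AddCommGroup E] [Module K E] [Module B E] [IsScalarTower K B E]
      [Module.Finite K E] (p : E →ₗ[B] M), Function.Surjective p →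
      Module.finrank K (LinearMap.ker p) = k → ∃ σ : M →ₗ[B] E, p ∘ₗ σ = LinearMap.id := by
  induction k with
  | zero =>
    intro E _ _ _ _ _ p hp hk
    have hker : LinearMap.ker p = ⊥ := by
      have h0 : Module.Finite K ((LinearMap.ker p).restrictScalars K) := inferInstance
      have h0' : Module.Finite K (LinearMap.ker p) := h0
      have h1 : Subsingleton (LinearMap.ker p) := Module.finrank_zero_iff.1 hk
      exact (Submodule.subsingleton_iff_eq_bot).1 h1
    have hbij : Function.Bijective p := ⟨LinearMap.ker_eq_bot.1 hker, hp⟩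
    refine ⟨((LinearEquiv.ofBijective p hbij).symm : M →ₗ[B] E), ?_⟩
    refine LinearMap.ext fun m => ?_
    exact (LinearEquiv.ofBijective p hbij).apply_symm_apply m
  | succ k ih =>
    intro E _ _ _ _ _ p hp hk
    haveI : Nontrivial (LinearMap.ker p) := by
      apply Module.nontrivial_of_finrank_pos (R := K)
      omega
    obtain ⟨v, hv0, hv⟩ := exists_soc h (N := LinearMap.ker p)
    have hv0' : (v : E) ≠ 0 := fun h' => hv0 (Subtype.ext h')
    have hv' : ∀ i, y i • (v : E) = 0 := fun i => congrArg Subtype.val (hv i)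
    -- the span of v
    have hspan : ∀ x ∈ Submodule.span B {(v : E)}, ∃ c : K, x = c • (v : E) := by
      intro x hx
      obtain ⟨b, rfl⟩ := Submodule.mem_span_singleton.1 hx
      have hb : b ∈ Algebra.adjoin K (Set.range y) := by rw [h.gen]; trivial
      clear hx
      induction hb using Algebra.adjoin_induction with
      | mem x hx =>
        obtain ⟨i, rfl⟩ := hx
        exact ⟨0, by rw [hv' i, zero_smul]⟩
      | algebraMap c => exact ⟨c, algebraMap_smul B c _⟩
      | add x z _ _ hx hz =>
        obtain ⟨c, hc⟩ := hx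
        obtain ⟨c', hc'⟩ := hz
        exact ⟨c + c', by rw [add_smul, hc, hc', add_smul]⟩
      | mul x z _ _ hx hz =>
        obtain ⟨c, hc⟩ := hx
        obtain ⟨c', hc'⟩ := hz
        refine ⟨c' * c, ?_⟩
        rw [mul_smul, hc', ← algebraMap_smul B c' (v : E), ← mul_smul, ← Algebra.commutes,
          mul_smul, hc, algebraMap_smul, mul_smul]
    set N := Submodule.span B {(v : E)} with hN
    have hNp : N ≤ LinearMap.ker p := by
      rw [hN, Submodule.span_singleton_le_iff_mem]
      exact v.2
    let pbar : (E ⧸ N) →ₗ[B] M := N.liftQ p hNp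
    have hpbar : Function.Surjective pbar := by
      intro m
      obtain ⟨e, he⟩ := hp m
      exact ⟨N.mkQ e, he⟩
    have hrank : Module.finrank K (LinearMap.ker pbar) = k := by
      -- dimension count
      have e1 : Module.finrank K (LinearMap.ker p) + Module.finrank K M = Module.finrank K E := by
        have := LinearMap.finrank_range_add_finrank_ker (p.restrictScalars K)
        have h2 : LinearMap.range (p.restrictScalars K) = ⊤ := LinearMap.range_eq_top.2 hp
        rw [h2, finrank_top] at this
        rw [← this, add_comm]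
        rfl
      have e2 : Module.finrank K (LinearMap.ker pbar) + Module.finrank K M
          = Module.finrank K (E ⧸ N) := by
        have := LinearMap.finrank_range_add_finrank_ker (pbar.restrictScalars K)
        have h2 : LinearMap.range (pbar.restrictScalars K) = ⊤ := LinearMap.range_eq_top.2 hpbar
        rw [h2, finrank_top] at this
        rw [← this, add_comm]
        rfl
      have e3 : Module.finrank K (E ⧸ N) + Module.finrank K N = Module.finrank K E := by
        have := LinearMap.finrank_range_add_finrank_ker (N.mkQ.restrictScalars K)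
        have h2 : LinearMap.range (N.mkQ.restrictScalars K) = ⊤ :=
          LinearMap.range_eq_top.2 N.mkQ_surjective
        rw [h2, finrank_top] at this
        have h3 : Module.finrank K (LinearMap.ker (N.mkQ.restrictScalars K))
            = Module.finrank K N := by
          have : LinearMap.ker (N.mkQ.restrictScalars K) = N.restrictScalars K := by
            ext x
            simp
          rw [this]
          rfl
        rw [h3] at this
        exact this
      have e4 : Module.finrank K N = 1 := by
        refine finrank_eq_one (⟨(v : E), Submodule.mem_span_singleton_self _⟩ : N) ?_ ?_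
        · intro h'
          exact hv0' (congrArg Subtype.val h')
        · rintro ⟨x, hx⟩
          obtain ⟨c, hc⟩ := hspan x hx
          exact ⟨c, Subtype.ext hc.symm⟩
      omega
    haveI : Module.Finite K (E ⧸ N) :=
      Module.Finite.of_surjective (N.mkQ.restrictScalars K) N.mkQ_surjective
    obtain ⟨σ, hσ⟩ := ih (E ⧸ N) pbar hpbar hrank
    -- lift
    obtain ⟨s, hs⟩ := Module.projective_lifting_property (N.mkQ.restrictScalars K)
      (σ.restrictScalars K) N.mkQ_surjective
    have hs' : ∀ m, N.mkQ (s m) = σ m := fun m => LinearMap.congr_fun hs m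
    obtain ⟨ψ, hψ⟩ := split_one h hr hrr ha (v : E) hv0' hv' s (fun i m => by
      apply hspan
      rw [← Submodule.Quotient.mk_eq_zero N, ← Submodule.mkQ_apply, map_sub, map_smul, hs', hs',
        map_smul, sub_self])
    let s' : M →ₗ[K] E := s + ψ.smulRight (v : E)
    have hs'' : ∀ m, s' m = s m + ψ m • (v : E) := fun m => rfl
    refine ⟨{ toFun := s', map_add' := s'.map_add, map_smul' := lin_of_gen h s' (fun i m => by
      rw [hs'', hs'', ← hψ i m]) }, ?_⟩
    refine LinearMap.ext fun m => ?_
    show p (s' m) = m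
    have h7 : p (s' m) = pbar (N.mkQ (s' m)) := rfl
    have h8 : N.mkQ (s' m) = σ m := by
      rw [hs'', map_add, hs']
      have : N.mkQ (ψ m • (v : E)) = 0 := by
        rw [Submodule.mkQ_apply, Submodule.Quotient.mk_eq_zero, ← algebraMap_smul B (ψ m) (v : E)]
        exact N.smul_mem _ (Submodule.mem_span_singleton_self _)
      rw [this, add_zero]
    rw [h7, h8]
    exact LinearMap.congr_fun hσ m

end

/-- The main theorem for presented algebras. -/
theorem projective_of_ext {K : Type u} [Field K] {B : Type u} [Ring B] [Algebra K B] {n : ℕ}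
    {a : Fin n → ℕ} {r : Fin n → Fin n → K} {y : Fin n → B} (h : Pres a r y)
    (hrr : ∀ i j, i ≠ j → r i j * r j i = 1) (ha : ∀ i, 0 < a i)
    (M : Type u) [AddCommGroup M] [Module B M] [Module.Finite B M]
    (hE : Subsingleton (Ext (ModuleCat.of B M) (ModuleCat.of B M) 1)) :
    Module.Projective B M := by
  letI : Module K M := Module.compHom M (algebraMap K B)
  haveI : IsScalarTower K B M := ⟨fun c b m => by
    show (c • b) • m = (algebraMap K B c) • (b • m)
    rw [Algebra.smul_def, mul_smul]⟩
  haveI := h.finite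
  haveI : Module.Finite K M := Module.Finite.trans B M
  obtain ⟨d, p, hp⟩ := Module.Finite.exists_fin' B M
  obtain ⟨σ, hσ⟩ := split_all h (rigid_of_ext M h hE) hrr ha _ (Fin d → B) p hp rfl
  exact Module.Projective.of_split σ p hσ

end Pool.Agent.R722.QC
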